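import Pool.Agent.Lib.CX.Defs
import Pool.Agent.Lib.LICH.Loc

/-! Frames on a manifold, read in a parametrisation. -/

noncomputable section

open Set Filter Topology VectorField CliffordAlgebra
open scoped Manifold ContDiff RealInnerProductSpace

set_option linter.unusedSectionVars false

namespace Pool.Agent.Lib.ANA

open CX

/-- A field of frames. -/
abbrev Fm (n : ℕ) (M : Type) [TopologicalSpace M] [ChartedSpace (Eu n) M] : Type :=
  ∀ x : M, Eu n ≃L[ℝ] TangentSpace (𝓡 n) x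

namespace Fm

variable {n : ℕ} {M : Type} [TopologicalSpace M] [ChartedSpace (Eu n) M] (F : Fm n M)
  {E T : Type} [NormedAddCommGroup E] [NormedSpace ℝ E] [NormedAddCommGroup T] [NormedSpace ℝ T]
  {S : Type} [NormedAddCommGroup S] [InnerProductSpace ℝ S]

/-- The vector fields of the frame. -/
def e (i : Fin n) (x : M) : TangentSpace (𝓡 n) x := F x (bv i)

/-- The derivative along `e i`. -/
def dd (i : Fin n) (u : M → T) (x : M) : T := mfderiv (𝓡 n) 𝓘(ℝ, T) u x (F.e i x)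

/-- The structure functions. -/
def cc (i j k : Fin n) (x : M) : ℝ := (F x).symm (mlieBracket (𝓡 n) (F.e i) (F.e j) x) k

/-- The Christoffel symbols. -/
def ga (i j k : Fin n) (x : M) : ℝ := (F.cc i j k x - F.cc j k i x + F.cc k i j x) / 2

/-- The curvature tensor. -/
def riem (i j k l : Fin n) (x : M) : ℝ :=
  F.dd i (F.ga j k l) x - F.dd j (F.ga i k l) x +
    ∑ m, (F.ga j k m x * F.ga i m l x - F.ga i k m x * F.ga j m l x - F.cc i j m x * F.ga m k l x)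

/-- The scalar curvature. -/
def scal (x : M) : ℝ := ∑ i, ∑ j, F.riem i j j i x

/-- The divergence of `e j`. -/
def dv (j : Fin n) (x : M) : ℝ := ∑ i, F.cc i j i x

/-- The spin connection form. -/
def con (γ : Fin n → S →L[ℝ] S) (i : Fin n) (x : M) : S →L[ℝ] S :=
  LICH.lam 1 γ fun j k => F.ga i j k x

/-- The covariant derivative. -/
def nab (γ : Fin n → S →L[ℝ] S) (i : Fin n) (u : M → S) (x : M) : S :=
  F.dd i u x + F.con γ i x (u x)

/-- The Dirac operator. -/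
def dir (γ : Fin n → S →L[ℝ] S) (u : M → S) (x : M) : S := ∑ i, γ i (F.nab γ i u x)

/-- The connection Laplacian. -/
def lap (γ : Fin n → S →L[ℝ] S) (u : M → S) (x : M) : S :=
  -∑ i, (F.nab γ i (F.nab γ i u) x - ∑ k, F.ga i i k x • F.nab γ k u x)

/-- The frame is smooth on the open set `U`. -/
structure Sm [IsManifold (𝓡 n) ∞ M] (U : Set M) : Prop where
  op : IsOpen U
  sm : ∀ i, ContMDiffOn (𝓡 n) (𝓡 n).tangent ∞
    (fun x => (⟨x, F.e i x⟩ : TangentBundle (𝓡 n) M)) U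

/-- The frame read in the parametrisation `ψ`, as a linear map. -/
def pm (ψ : E → M) (y : E) : Eu n →L[ℝ] E :=
  (mfderiv 𝓘(ℝ, E) (𝓡 n) ψ y).inverse.comp (F (ψ y)).toContinuousLinearMap

/-- The vector fields of the frame read in the parametrisation `ψ`. -/
def pe (ψ : E → M) (i : Fin n) (y : E) : E := F.pm ψ y (bv i)

/-- The structure functions read in the parametrisation `ψ`. -/
def pc (ψ : E → M) (i j k : Fin n) (y : E) : ℝ := F.cc i j k (ψ y)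

/-- The local data in the parametrisation `ψ`. -/
def dat (γ : Fin n → S →L[ℝ] S) (ψ : E → M) : LICH.Dat E S (Fin n) := ⟨1, γ, F.pe ψ, F.pc ψ⟩

/-- `ψ` is a parametrisation on `O` of a set on which the frame is smooth. -/
structure Par [IsManifold (𝓡 n) ∞ M] (ψ : E → M) (O : Set E) : Prop where
  op : IsOpen O
  sm : ContMDiffOn 𝓘(ℝ, E) (𝓡 n) ∞ ψ O
  inv : ∀ y ∈ O, (mfderiv 𝓘(ℝ, E) (𝓡 n) ψ y).IsInvertible
  fr : ∀ y ∈ O, ∀ i, ContMDiffAt (𝓡 n) (𝓡 n).tangent ∞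
    (fun x => (⟨x, F.e i x⟩ : TangentBundle (𝓡 n) M)) (ψ y)

lemma sum_bv (v : Eu n) : ∑ i, v i • bv i = v := by
  ext j
  simp [bv, Pi.single_apply]

lemma cc_skew (i j k : Fin n) (x : M) : F.cc i j k x = -F.cc j i k x := by
  rw [cc, cc, mlieBracket_swap_apply, map_neg]; rfl

lemma pm_eq (ψ : E → M) (y : E) :
    F.pm ψ y = ∑ i, (EuclideanSpace.proj i : Eu n →L[ℝ] ℝ).smulRight (F.pe ψ i y) := by
  ext v
  conv_lhs => rw [← sum_bv v]
  simp [pe]

lemma chr_pc (ψ : E → M) (i j k : Fin n) (y : E) :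
    LICH.chr (F.pc ψ) i j k y = F.ga i j k (ψ y) := rfl

lemma dv_pc (ψ : E → M) (j : Fin n) (y : E) : LICH.dv (F.pc ψ) j y = F.dv j (ψ y) := rfl

lemma con_dat (γ : Fin n → S →L[ℝ] S) (ψ : E → M) (i : Fin n) (y : E) :
    (F.dat γ ψ).con i y = F.con γ i (ψ y) := rfl

variable {F} [IsManifold (𝓡 n) ∞ M] {ψ : E → M} {O : Set E} {y : E}

lemma Par.smAt (h : F.Par ψ O) (hy : y ∈ O) : ContMDiffAt 𝓘(ℝ, E) (𝓡 n) ∞ ψ y :=
  h.sm.contMDiffAt (h.op.mem_nhds hy)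

lemma Par.pm_inv (h : F.Par ψ O) (hy : y ∈ O) : (F.pm ψ y).IsInvertible :=
  (h.inv y hy).inverse.comp ContinuousLinearMap.isInvertible_equiv

/-- The derivative along the frame is the flat derivative. -/
lemma Par.dd_eq (h : F.Par ψ O) (hy : y ∈ O) {u : M → T}
    (hu : MDifferentiableAt (𝓡 n) 𝓘(ℝ, T) u (ψ y)) (i : Fin n) :
    F.dd i u (ψ y) = LICH.X (F.pe ψ i) (fun z => u (ψ z)) y := by
  have h1 := mfderiv_comp y hu ((h.smAt hy).mdifferentiableAt (by simp))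
  rw [mfderiv_eq_fderiv] at h1
  have h2 : mfderiv 𝓘(ℝ, E) (𝓡 n) ψ y (F.pe (E := E) ψ i y) = F.e i (ψ y) :=
    (h.inv y hy).self_apply_inverse _
  rw [dd, ← h2]
  exact (congrArg (fun L : E →L[ℝ] T => L (F.pe ψ i y)) h1).symm

variable [CompleteSpace E]

lemma Par.pe_smooth (h : F.Par ψ O) (hy : y ∈ O) (i : Fin n) : ContDiffAt ℝ ∞ (F.pe ψ i) y :=
  contMDiffAt_vectorSpace_iff_contDiffAt.1
    ((h.fr y hy i).mpullback_vectorField_preimage (h.smAt hy) (h.inv y hy) (by simp))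

lemma Par.pm_smooth (h : F.Par ψ O) (hy : y ∈ O) : ContDiffAt ℝ ∞ (F.pm ψ) y := by
  rw [funext (F.pm_eq ψ)]
  exact ContDiffAt.sum fun i _ => contDiffAt_const.smulRight (h.pe_smooth hy i)

lemma Par.br_pm (h : F.Par ψ O) (hy : y ∈ O) (i j : Fin n) :
    lieBracket ℝ (F.pe ψ i) (F.pe ψ j) y =
      F.pm ψ y ((F (ψ y)).symm (mlieBracket (𝓡 n) (F.e i) (F.e j) (ψ y))) := by
  have : IsManifold (𝓡 n) (minSmoothness ℝ 2) M := by
    rw [minSmoothness_of_isRCLikeNormedField]; infer_instance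
  have h1 := mpullback_mlieBracket ((h.fr y hy i).mdifferentiableAt (by simp))
    ((h.fr y hy j).mdifferentiableAt (by simp)) (h.smAt hy) (by simp; norm_cast)
  rw [← mlieBracketWithin_univ (I := 𝓘(ℝ, E)), mlieBracketWithin_eq_lieBracketWithin,
    lieBracketWithin_univ] at h1
  exact h1.symm.trans (congrArg (mfderiv 𝓘(ℝ, E) (𝓡 n) ψ y).inverse
    ((F (ψ y)).apply_symm_apply _).symm)

lemma Par.br (h : F.Par ψ O) (hy : y ∈ O) (i j : Fin n) :
    lieBracket ℝ (F.pe ψ i) (F.pe ψ j) y = ∑ k, F.pc ψ i j k y • F.pe ψ k y := by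
  rw [h.br_pm hy, pm_eq]
  simp [pc, cc]

lemma Par.pc_smooth (h : F.Par ψ O) (hy : y ∈ O) (i j k : Fin n) :
    ContDiffAt ℝ ∞ (F.pc ψ i j k) y := by
  have h1 : ContDiffAt ℝ ∞ (fun z => (F.pm ψ z).inverse) y :=
    (h.pm_inv hy).contDiffAt_map_inverse.comp y (h.pm_smooth hy)
  have h2 : ContDiffAt ℝ ∞ (lieBracket ℝ (F.pe ψ i) (F.pe ψ j)) y :=
    (h.pe_smooth hy i).lieBracket_vectorField (h.pe_smooth hy j) (by simp)
  refine ((EuclideanSpace.proj k : Eu n →L[ℝ] ℝ).contDiff.contDiffAt.comp y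
    (h1.clm_apply h2)).congr_of_eventuallyEq ?_
  filter_upwards [h.op.mem_nhds hy] with z hz
  simp only [Function.comp_apply, h.br_pm hz, (h.pm_inv hz).inverse_apply_self]
  rfl

/-- The pulled back frame is a frame. -/
lemma Par.frameAt (h : F.Par ψ O) (hy : y ∈ O) : LICH.FrameAt (F.pe ψ) (F.pc ψ) y where
  sm i := (h.pe_smooth hy i).of_le (by norm_cast)
  smc i j k := (h.pc_smooth hy i j k).differentiableAt (by simp)
  br i j := by filter_upwards [h.op.mem_nhds hy] with z hz using h.br hz i j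
  li := by
    filter_upwards [h.op.mem_nhds hy] with z hz
    exact ((EuclideanSpace.orthonormal_single (𝕜 := ℝ)).linearIndependent).map'
      (F.pm ψ z).toLinearMap (LinearMap.ker_eq_bot.2 (h.pm_inv hz).bijective.1)

/-! ### Charts -/

section chart

variable {U : Set M} {x₀ x : M} {z : Eu n}

/-- The inverse of the chart at `x₀`. -/
abbrev ci (x₀ : M) : Eu n → M := (chartAt (Eu n) x₀).symm

lemma ci_chart (hx : x ∈ (chartAt (Eu n) x₀).source) : ci x₀ (chartAt (Eu n) x₀ x) = x :=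
  (chartAt (Eu n) x₀).left_inv hx

lemma ci_self (x : M) : ci x (chartAt (Eu n) x x) = x := ci_chart (mem_chart_source _ x)

lemma ci_smooth (hz : z ∈ (chartAt (Eu n) x₀).target) :
    ContMDiffAt (𝓡 n) (𝓡 n) ∞ (ci x₀) z :=
  contMDiffOn_chart_symm.contMDiffAt ((chartAt (Eu n) x₀).open_target.mem_nhds hz)

lemma chart_smooth (hx : x ∈ (chartAt (Eu n) x₀).source) :
    ContMDiffAt (𝓡 n) (𝓡 n) ∞ (chartAt (Eu n) x₀) x :=
  contMDiffOn_chart.contMDiffAt ((chartAt (Eu n) x₀).open_source.mem_nhds hx)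

lemma ci_inv (hz : z ∈ (chartAt (Eu n) x₀).target) :
    (mfderiv (𝓡 n) (𝓡 n) (ci x₀) z).IsInvertible :=
  ⟨(mdifferentiable_chart (I := 𝓡 n) x₀).symm.mfderiv hz, rfl⟩

lemma ci_inverse (hz : z ∈ (chartAt (Eu n) x₀).target) :
    (mfderiv (𝓡 n) (𝓡 n) (ci x₀) z).inverse =
      (mfderiv (𝓡 n) (𝓡 n) (chartAt (Eu n) x₀) (ci x₀ z) : Eu n →L[ℝ] Eu n) := by
  ext1 v
  refine (ci_inv hz).inverse_apply_eq.2 ?_
  have h := (mdifferentiable_chart (I := 𝓡 n) x₀).symm_comp_deriv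
    ((chartAt (Eu n) x₀).map_target hz)
  rw [(chartAt (Eu n) x₀).right_inv hz] at h
  exact (congrArg (fun L : Eu n →L[ℝ] Eu n => L v) h).symm

/-- The frame in a chart is the matrix that appears in the volume. -/
lemma pm_ci (hz : z ∈ (chartAt (Eu n) x₀).target) : F.pm (ci x₀) z =
    ((mfderiv (𝓡 n) (𝓡 n) (chartAt (Eu n) x₀) (ci x₀ z)).comp
      (F (ci x₀ z)).toContinuousLinearMap : Eu n →L[ℝ] Eu n) := by
  rw [pm, ci_inverse hz]; rfl

lemma Sm.smAt (h : F.Sm U) (hx : x ∈ U) (i : Fin n) : ContMDiffAt (𝓡 n) (𝓡 n).tangent ∞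
    (fun x => (⟨x, F.e i x⟩ : TangentBundle (𝓡 n) M)) x :=
  (h.sm i).contMDiffAt (h.op.mem_nhds hx)

lemma Sm.mono (h : F.Sm U) {V : Set M} (hV : IsOpen V) (hU : V ⊆ U) : F.Sm V :=
  ⟨hV, fun i => (h.sm i).mono hU⟩

/-- The inverse of a chart is a parametrisation. -/
lemma Sm.par (h : F.Sm U) (x₀ : M) : F.Par (ci x₀) ((chartAt (Eu n) x₀).target ∩ ci x₀ ⁻¹' U) where
  op := (chartAt (Eu n) x₀).isOpen_inter_preimage_symm h.op
  sm := contMDiffOn_chart_symm.mono inter_subset_left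
  inv _ hy := ci_inv hy.1
  fr _ hy := h.smAt hy.2

lemma mem_par (hx₀ : x ∈ (chartAt (Eu n) x₀).source) (hx : x ∈ U) :
    chartAt (Eu n) x₀ x ∈ (chartAt (Eu n) x₀).target ∩ ci x₀ ⁻¹' U :=
  ⟨(chartAt (Eu n) x₀).map_source hx₀, by rw [mem_preimage, ci_chart hx₀]; exact hx⟩

lemma ev_ci (hx : x ∈ (chartAt (Eu n) x₀).source) {α : Type*} (u : M → α) :
    u =ᶠ[𝓝 x] fun y => u (ci x₀ (chartAt (Eu n) x₀ y)) := by
  filter_upwards [(chartAt (Eu n) x₀).open_source.mem_nhds hx] with y hy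
  rw [ci_chart hy]

lemma mdiff_ci (hz : z ∈ (chartAt (Eu n) x₀).target) {u : M → T} :
    MDifferentiableAt (𝓡 n) 𝓘(ℝ, T) u (ci x₀ z) ↔ DifferentiableAt ℝ (fun y => u (ci x₀ y)) z := by
  have hx := (chartAt (Eu n) x₀).map_target hz
  refine ⟨fun h => (h.comp z ((ci_smooth hz).mdifferentiableAt (by simp))).differentiableAt,
    fun h => ?_⟩
  rw [← (chartAt (Eu n) x₀).right_inv hz] at h
  exact (h.mdifferentiableAt.comp _
    ((chart_smooth hx).mdifferentiableAt (by simp))).congr_of_eventuallyEq (ev_ci hx u)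

lemma smooth_ci (hz : z ∈ (chartAt (Eu n) x₀).target) {u : M → T} {m : ℕ∞ω} (hm : m ≤ ∞) :
    ContMDiffAt (𝓡 n) 𝓘(ℝ, T) m u (ci x₀ z) ↔ ContDiffAt ℝ m (fun y => u (ci x₀ y)) z := by
  have hx := (chartAt (Eu n) x₀).map_target hz
  refine ⟨fun h => (h.comp z ((ci_smooth hz).of_le hm)).contDiffAt, fun h => ?_⟩
  rw [← (chartAt (Eu n) x₀).right_inv hz] at h
  exact (h.contMDiffAt.comp _ ((chart_smooth hx).of_le hm)).congr_of_eventuallyEq (ev_ci hx u)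

lemma mdiff_self {u : M → T} : MDifferentiableAt (𝓡 n) 𝓘(ℝ, T) u x ↔
    DifferentiableAt ℝ (fun y => u (ci x y)) (chartAt (Eu n) x x) := by
  rw [← mdiff_ci (mem_chart_target _ x), ci_self]

lemma smooth_self {u : M → T} {m : ℕ∞ω} (hm : m ≤ ∞) : ContMDiffAt (𝓡 n) 𝓘(ℝ, T) m u x ↔
    ContDiffAt ℝ m (fun y => u (ci x y)) (chartAt (Eu n) x x) := by
  rw [← smooth_ci (mem_chart_target _ x) hm, ci_self]

variable (F) in
/-- In a chart, the derivative along the frame is the flat derivative, for every function. -/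
lemma dd_ci (hz : z ∈ (chartAt (Eu n) x₀).target) (i : Fin n) (u : M → T) :
    F.dd i u (ci x₀ z) = LICH.X (F.pe (ci x₀) i) (fun y => u (ci x₀ y)) z := by
  by_cases hu : MDifferentiableAt (𝓡 n) 𝓘(ℝ, T) u (ci x₀ z)
  · have h1 := mfderiv_comp z hu ((ci_smooth hz).mdifferentiableAt (by simp))
    rw [mfderiv_eq_fderiv] at h1
    have h2 : mfderiv (𝓡 n) (𝓡 n) (ci x₀) z (F.pe (E := Eu n) (ci x₀) i z) = F.e i (ci x₀ z) :=
      (ci_inv hz).self_apply_inverse _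
    rw [dd, ← h2]
    exact (congrArg (fun L : Eu n →L[ℝ] T => L (F.pe (ci x₀) i z)) h1).symm
  · rw [dd, mfderiv_zero_of_not_mdifferentiableAt hu, LICH.X,
      fderiv_zero_of_not_differentiableAt fun h => hu ((mdiff_ci hz).2 h)]
    rfl

variable (F) in
lemma dd_self (i : Fin n) (u : M → T) (x : M) :
    F.dd i u x = LICH.X (F.pe (ci x) i) (fun y => u (ci x y)) (chartAt (Eu n) x x) := by
  rw [← dd_ci F (mem_chart_target _ x), ci_self]

variable (F) {γ : Fin n → S →L[ℝ] S}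

lemma riem_ci (hz : z ∈ (chartAt (Eu n) x₀).target) (i j k l : Fin n) :
    F.riem i j k l (ci x₀ z) = LICH.riem (F.pe (ci x₀)) (F.pc (ci x₀)) i j k l z := by
  rw [riem, dd_ci F hz, dd_ci F hz]; rfl

lemma scal_ci (hz : z ∈ (chartAt (Eu n) x₀).target) :
    F.scal (ci x₀ z) = LICH.scal (F.pe (ci x₀)) (F.pc (ci x₀)) z := by
  simp only [scal, LICH.scal, riem_ci F hz]

lemma nab_ci (hz : z ∈ (chartAt (Eu n) x₀).target) (i : Fin n) (u : M → S) :
    F.nab γ i u (ci x₀ z) = (F.dat γ (ci x₀)).nab i (fun y => u (ci x₀ y)) z := by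
  rw [nab, dd_ci F hz]; rfl

lemma dir_ci (hz : z ∈ (chartAt (Eu n) x₀).target) (u : M → S) :
    F.dir γ u (ci x₀ z) = (F.dat γ (ci x₀)).dir (fun y => u (ci x₀ y)) z := by
  simp only [dir, nab_ci F hz]; rfl

lemma nab_ev (hz : z ∈ (chartAt (Eu n) x₀).target) (i : Fin n) (u : M → S) :
    (fun y => F.nab γ i u (ci x₀ y)) =ᶠ[𝓝 z] (F.dat γ (ci x₀)).nab i fun y => u (ci x₀ y) := by
  filter_upwards [(chartAt (Eu n) x₀).open_target.mem_nhds hz] with y hy using nab_ci F hy i u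

lemma dir_ev (hz : z ∈ (chartAt (Eu n) x₀).target) (u : M → S) :
    (fun y => F.dir γ u (ci x₀ y)) =ᶠ[𝓝 z] (F.dat γ (ci x₀)).dir fun y => u (ci x₀ y) := by
  filter_upwards [(chartAt (Eu n) x₀).open_target.mem_nhds hz] with y hy using dir_ci F hy u

lemma lap_ci (hz : z ∈ (chartAt (Eu n) x₀).target) (u : M → S) :
    F.lap γ u (ci x₀ z) = (F.dat γ (ci x₀)).lap (fun y => u (ci x₀ y)) z := by
  simp only [lap, LICH.Dat.lap, nab_ci F hz, LICH.Dat.nab_congr _ (nab_ev F hz _ u)]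
  rfl

end chart

/-! ### Calculus on the manifold -/

section mfd

variable {U : Set M} {x : M} {u v : M → T} {f g : M → ℝ} {γ : Fin n → S →L[ℝ] S} {i : Fin n}

lemma Sm.fa (h : F.Sm U) (hx : x ∈ U) :
    LICH.FrameAt (F.pe (ci x)) (F.pc (ci x)) (chartAt (Eu n) x x) :=
  (h.par x).frameAt (mem_par (mem_chart_source _ x) hx)

lemma Sm.cc_smooth (h : F.Sm U) (hx : x ∈ U) (i j k : Fin n) :
    ContMDiffAt (𝓡 n) 𝓘(ℝ, ℝ) ∞ (F.cc i j k) x :=
  (smooth_self le_rfl).2 ((h.par x).pc_smooth (mem_par (mem_chart_source _ x) hx) i j k)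

lemma Sm.ga_smooth (h : F.Sm U) (hx : x ∈ U) (i j k : Fin n) :
    ContMDiffAt (𝓡 n) 𝓘(ℝ, ℝ) ∞ (F.ga i j k) x :=
  (((h.cc_smooth hx i j k).sub (h.cc_smooth hx j k i)).add (h.cc_smooth hx k i j)).div_const 2

lemma Sm.dv_smooth (h : F.Sm U) (hx : x ∈ U) (j : Fin n) :
    ContMDiffAt (𝓡 n) 𝓘(ℝ, ℝ) ∞ (F.dv j) x :=
  contMDiffAt_finsetSum fun i _ => h.cc_smooth hx i j i

lemma Sm.con_smooth (h : F.Sm U) (hx : x ∈ U) (γ : Fin n → S →L[ℝ] S) (i : Fin n) :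
    ContMDiffAt (𝓡 n) 𝓘(ℝ, S →L[ℝ] S) ∞ (F.con γ i) x :=
  (contMDiffAt_const (I' := 𝓘(ℝ, ℝ)) (c := (1 / 4 : ℝ))).smul (contMDiffAt_finsetSum fun j _ =>
    contMDiffAt_finsetSum fun k _ => (h.ga_smooth hx i j k).smul contMDiffAt_const)

lemma Sm.dd_smooth' (h : F.Sm U) (hx : x ∈ U) {m m' : ℕ∞ω} (hm : m + 1 ≤ m') (hm' : m' ≤ ∞)
    (hu : ContMDiffAt (𝓡 n) 𝓘(ℝ, T) m' u x) (i : Fin n) :
    ContMDiffAt (𝓡 n) 𝓘(ℝ, T) m (F.dd i u) x := by
  have h0 : m ≤ ∞ := (le_self_add.trans hm).trans hm'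
  refine (smooth_self h0).2 ((LICH.contDiffAt_X (((h.par x).pe_smooth
    (mem_par (mem_chart_source _ x) hx) i).of_le h0) ((smooth_self hm').1 hu)
    hm).congr_of_eventuallyEq ?_)
  filter_upwards [(chartAt (Eu n) x).open_target.mem_nhds (mem_chart_target _ x)] with y hy
    using dd_ci F hy i u

lemma Sm.dd_smooth (h : F.Sm U) (hx : x ∈ U) (hu : ContMDiffAt (𝓡 n) 𝓘(ℝ, T) ∞ u x) (i : Fin n) :
    ContMDiffAt (𝓡 n) 𝓘(ℝ, T) ∞ (F.dd i u) x := h.dd_smooth' hx (by simp) le_rfl hu i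

lemma Sm.riem_smooth (h : F.Sm U) (hx : x ∈ U) (i j k l : Fin n) :
    ContMDiffAt (𝓡 n) 𝓘(ℝ, ℝ) ∞ (F.riem i j k l) x :=
  ((h.dd_smooth hx (h.ga_smooth hx _ _ _) _).sub (h.dd_smooth hx (h.ga_smooth hx _ _ _) _)).add
    (contMDiffAt_finsetSum fun _ _ => (((h.ga_smooth hx _ _ _).mul (h.ga_smooth hx _ _ _)).sub
      ((h.ga_smooth hx _ _ _).mul (h.ga_smooth hx _ _ _))).sub
        ((h.cc_smooth hx _ _ _).mul (h.ga_smooth hx _ _ _)))

lemma Sm.scal_smooth (h : F.Sm U) (hx : x ∈ U) : ContMDiffAt (𝓡 n) 𝓘(ℝ, ℝ) ∞ F.scal x :=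
  contMDiffAt_finsetSum fun _ _ => contMDiffAt_finsetSum fun _ _ => h.riem_smooth hx _ _ _ _

lemma Sm.nab_smooth (h : F.Sm U) (hx : x ∈ U) {u : M → S} (hu : ContMDiffAt (𝓡 n) 𝓘(ℝ, S) ∞ u x)
    (γ : Fin n → S →L[ℝ] S) (i : Fin n) : ContMDiffAt (𝓡 n) 𝓘(ℝ, S) ∞ (F.nab γ i u) x :=
  (h.dd_smooth hx hu i).add ((h.con_smooth hx γ i).clm_apply hu)

lemma Sm.dir_smooth (h : F.Sm U) (hx : x ∈ U) {u : M → S} (hu : ContMDiffAt (𝓡 n) 𝓘(ℝ, S) ∞ u x)
    (γ : Fin n → S →L[ℝ] S) : ContMDiffAt (𝓡 n) 𝓘(ℝ, S) ∞ (F.dir γ u) x :=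
  contMDiffAt_finsetSum fun i _ => contMDiffAt_const.clm_apply (h.nab_smooth hx hu γ i)

variable (F)

lemma dd_congr (h : u =ᶠ[𝓝 x] v) : F.dd i u x = F.dd i v x := by rw [dd, dd, h.mfderiv_eq]; rfl

lemma dd_const (a : T) : F.dd i (fun _ => a) x = 0 := by rw [dd_self, LICH.X_const]

lemma dd_add (hu : MDifferentiableAt (𝓡 n) 𝓘(ℝ, T) u x) (hv : MDifferentiableAt (𝓡 n) 𝓘(ℝ, T) v x) :
    F.dd i (fun y => u y + v y) x = F.dd i u x + F.dd i v x := by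
  simp only [dd_self]; exact LICH.X_add (mdiff_self.1 hu) (mdiff_self.1 hv)

lemma dd_sub (hu : MDifferentiableAt (𝓡 n) 𝓘(ℝ, T) u x) (hv : MDifferentiableAt (𝓡 n) 𝓘(ℝ, T) v x) :
    F.dd i (fun y => u y - v y) x = F.dd i u x - F.dd i v x := by
  simp only [dd_self]; exact LICH.X_sub (mdiff_self.1 hu) (mdiff_self.1 hv)

lemma dd_neg : F.dd i (fun y => -u y) x = -F.dd i u x := by
  simp only [dd_self]; exact LICH.X_neg

lemma dd_sum {κ : Type*} {s : Finset κ} {u : κ → M → T}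
    (h : ∀ k ∈ s, MDifferentiableAt (𝓡 n) 𝓘(ℝ, T) (u k) x) :
    F.dd i (fun y => ∑ k ∈ s, u k y) x = ∑ k ∈ s, F.dd i (u k) x := by
  simp only [dd_self]; exact LICH.X_sum fun k hk => mdiff_self.1 (h k hk)

lemma dd_smul (hf : MDifferentiableAt (𝓡 n) 𝓘(ℝ, ℝ) f x) (hu : MDifferentiableAt (𝓡 n) 𝓘(ℝ, T) u x) :
    F.dd i (fun y => f y • u y) x = f x • F.dd i u x + F.dd i f x • u x := by
  have := LICH.X_smul (V := F.pe (ci x) i) (mdiff_self.1 hf) (mdiff_self.1 hu)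
  simp only [ci_self] at this
  simp only [dd_self]; exact this

lemma dd_mul (hf : MDifferentiableAt (𝓡 n) 𝓘(ℝ, ℝ) f x) (hg : MDifferentiableAt (𝓡 n) 𝓘(ℝ, ℝ) g x) :
    F.dd i (fun y => f y * g y) x = f x * F.dd i g x + F.dd i f x * g x := F.dd_smul hf hg

lemma dd_clm {T' : Type} [NormedAddCommGroup T'] [NormedSpace ℝ T'] {A : M → T →L[ℝ] T'}
    (hA : MDifferentiableAt (𝓡 n) 𝓘(ℝ, T →L[ℝ] T') A x) (hu : MDifferentiableAt (𝓡 n) 𝓘(ℝ, T) u x) :
    F.dd i (fun y => A y (u y)) x = A x (F.dd i u x) + F.dd i A x (u x) := by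
  have := LICH.X_clm (V := F.pe (ci x) i) (mdiff_self.1 hA) (mdiff_self.1 hu)
  simp only [ci_self] at this
  simp only [dd_self]; exact this

lemma dd_map {T' : Type} [NormedAddCommGroup T'] [NormedSpace ℝ T'] (A : T →L[ℝ] T')
    (hu : MDifferentiableAt (𝓡 n) 𝓘(ℝ, T) u x) : F.dd i (fun y => A (u y)) x = A (F.dd i u x) := by
  simp only [dd_self]; exact LICH.X_map A (mdiff_self.1 hu)

lemma dd_comp {φ : T → ℝ} (hφ : DifferentiableAt ℝ φ (u x))
    (hu : MDifferentiableAt (𝓡 n) 𝓘(ℝ, T) u x) :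
    F.dd i (fun y => φ (u y)) x = fderiv ℝ φ (u x) (F.dd i u x) := by
  have h1 := mfderiv_comp x hφ.mdifferentiableAt hu
  rw [mfderiv_eq_fderiv] at h1
  exact congrArg (fun L : Eu n →L[ℝ] ℝ => L (F.e i x)) h1

variable {u v : M → S}

lemma dd_inner (hu : MDifferentiableAt (𝓡 n) 𝓘(ℝ, S) u x) (hv : MDifferentiableAt (𝓡 n) 𝓘(ℝ, S) v x) :
    F.dd i (fun y => ⟪u y, v y⟫) x = ⟪F.dd i u x, v x⟫ + ⟪u x, F.dd i v x⟫ := by
  have := LICH.X_inner (V := F.pe (ci x) i) (mdiff_self.1 hu) (mdiff_self.1 hv)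
  simp only [ci_self] at this
  simp only [dd_self]; exact this

lemma nab_congr (h : u =ᶠ[𝓝 x] v) : F.nab γ i u x = F.nab γ i v x := by
  rw [nab, nab, F.dd_congr h, h.self_of_nhds]

lemma dir_congr (h : u =ᶠ[𝓝 x] v) : F.dir γ u x = F.dir γ v x := by
  simp only [dir, F.nab_congr h]

lemma nab_zero (h : u =ᶠ[𝓝 x] 0) : F.nab γ i u x = 0 := by
  rw [F.nab_congr h, nab]
  exact (congrArg₂ _ (F.dd_const 0) (map_zero _)).trans (add_zero _)

lemma dir_zero (h : u =ᶠ[𝓝 x] 0) : F.dir γ u x = 0 := by simp [dir, F.nab_zero h]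

lemma nab_add (hu : MDifferentiableAt (𝓡 n) 𝓘(ℝ, S) u x) (hv : MDifferentiableAt (𝓡 n) 𝓘(ℝ, S) v x) :
    F.nab γ i (fun y => u y + v y) x = F.nab γ i u x + F.nab γ i v x := by
  simp only [nab, F.dd_add hu hv, map_add]; abel

lemma nab_sum {κ : Type*} {s : Finset κ} {u : κ → M → S}
    (h : ∀ k ∈ s, MDifferentiableAt (𝓡 n) 𝓘(ℝ, S) (u k) x) :
    F.nab γ i (fun y => ∑ k ∈ s, u k y) x = ∑ k ∈ s, F.nab γ i (u k) x := by
  simp only [nab, F.dd_sum h, map_sum, Finset.sum_add_distrib]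

lemma nab_smul (hf : MDifferentiableAt (𝓡 n) 𝓘(ℝ, ℝ) f x) (hu : MDifferentiableAt (𝓡 n) 𝓘(ℝ, S) u x) :
    F.nab γ i (fun y => f y • u y) x = f x • F.nab γ i u x + F.dd i f x • u x := by
  simp only [nab, F.dd_smul hf hu, map_smul, smul_add]; abel

lemma dir_add (hu : MDifferentiableAt (𝓡 n) 𝓘(ℝ, S) u x) (hv : MDifferentiableAt (𝓡 n) 𝓘(ℝ, S) v x) :
    F.dir γ (fun y => u y + v y) x = F.dir γ u x + F.dir γ v x := by
  simp only [dir, F.nab_add hu hv, map_add, Finset.sum_add_distrib]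

lemma dir_sum {κ : Type*} {s : Finset κ} {u : κ → M → S}
    (h : ∀ k ∈ s, MDifferentiableAt (𝓡 n) 𝓘(ℝ, S) (u k) x) :
    F.dir γ (fun y => ∑ k ∈ s, u k y) x = ∑ k ∈ s, F.dir γ (u k) x := by
  simp only [dir, F.nab_sum h, map_sum]
  exact Finset.sum_comm

/-- Leibniz rule. -/
lemma dir_smul (hf : MDifferentiableAt (𝓡 n) 𝓘(ℝ, ℝ) f x) (hu : MDifferentiableAt (𝓡 n) 𝓘(ℝ, S) u x) :
    F.dir γ (fun y => f y • u y) x = f x • F.dir γ u x + ∑ i, F.dd i f x • γ i (u x) := by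
  simp only [dir, F.nab_smul hf hu, map_add, map_smul, Finset.sum_add_distrib, Finset.smul_sum]

/-- An operator that anticommutes with the Clifford matrices commutes with the connection. -/
lemma con_comm {w : S →L[ℝ] S} (hw : ∀ i, w * γ i = -(γ i * w)) : w * F.con γ i x = F.con γ i x * w := by
  have h : ∀ j k, w * (γ j * γ k) = γ j * γ k * w := fun j k => by
    rw [← mul_assoc, hw, neg_mul, mul_assoc, hw, mul_neg, neg_neg, mul_assoc]
  simp only [con, LICH.lam, mul_smul_comm, smul_mul_assoc, Finset.mul_sum, Finset.sum_mul, h]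

lemma nab_anti {w : S →L[ℝ] S} (hw : ∀ i, w * γ i = -(γ i * w))
    (hu : MDifferentiableAt (𝓡 n) 𝓘(ℝ, S) u x) :
    F.nab γ i (fun y => w (u y)) x = w (F.nab γ i u x) := by
  rw [nab, nab, F.dd_map w hu, map_add]
  exact congrArg _ (congrArg (· (u x)) (F.con_comm hw)).symm

lemma dir_anti {w : S →L[ℝ] S} (hw : ∀ i, w * γ i = -(γ i * w))
    (hu : MDifferentiableAt (𝓡 n) 𝓘(ℝ, S) u x) :
    F.dir γ (fun y => w (u y)) x = -w (F.dir γ u x) := by
  simp only [dir, F.nab_anti hw hu, map_sum, ← Finset.sum_neg_distrib]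
  refine Finset.sum_congr rfl fun i _ => ?_
  exact neg_eq_iff_eq_neg.1 (congrArg (· (F.nab γ i u x)) (hw i)).symm

/-- Clifford relations and skewness. -/
structure Cl (γ : Fin n → S →L[ℝ] S) : Prop where
  rel : LICH.Rel 1 γ
  adj : ∀ i v w, ⟪γ i v, w⟫ = -⟪v, γ i w⟫

lemma Cl.dat (hc : Cl γ) (ψ : E → M) : (F.dat γ ψ).Cl :=
  ⟨hc.rel, fun i v w => (hc.adj i v w).trans (neg_one_mul _).symm⟩

lemma dd_inner_nab (hc : Cl γ) (hu : MDifferentiableAt (𝓡 n) 𝓘(ℝ, S) u x)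
    (hv : MDifferentiableAt (𝓡 n) 𝓘(ℝ, S) v x) :
    F.dd i (fun y => ⟪u y, v y⟫) x = ⟪F.nab γ i u x, v x⟫ + ⟪u x, F.nab γ i v x⟫ := by
  have := LICH.Dat.X_inner_nab (hc.dat F (ci x)) (fun i j k => F.cc_skew i j k _)
    (mdiff_self.1 hu) (mdiff_self.1 hv) i
  simp only [← nab_ci F (mem_chart_target _ x), ci_self] at this
  rw [dd_self]; exact this

/-- Green formula for the Dirac operator, pointwise. -/
theorem green_dir (hc : Cl γ) (hu : MDifferentiableAt (𝓡 n) 𝓘(ℝ, S) u x)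
    (hv : MDifferentiableAt (𝓡 n) 𝓘(ℝ, S) v x) :
    ⟪F.dir γ u x, v x⟫ - ⟪u x, F.dir γ v x⟫ =
      ∑ j, (F.dd j (fun y => ⟪γ j (u y), v y⟫) x + F.dv j x * ⟪γ j (u x), v x⟫) := by
  have := LICH.Dat.green_dir (hc.dat F (ci x)) (fun i j k => F.cc_skew i j k _)
    (mdiff_self.1 hu) (mdiff_self.1 hv)
  simp only [← dir_ci F (mem_chart_target _ x), ci_self] at this
  simp only [dat, one_mul, dv_pc, ci_self] at this
  simp only [dd_self]; exact this

variable {F}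

/-- The pointwise Lichnerowicz formula. -/
theorem Sm.dir_dir (h : F.Sm U) (hx : x ∈ U) (hc : Cl γ) (hu : ContMDiffAt (𝓡 n) 𝓘(ℝ, S) 2 u x) :
    F.dir γ (F.dir γ u) x = F.lap γ u x + (F.scal x / 4) • u x := by
  have hz := mem_chart_target (Eu n) x
  have := LICH.Dat.dir_dir (hc.dat F (ci x)) (h.fa hx) ((smooth_self (by norm_cast)).1 hu)
  rw [← LICH.Dat.dir_congr (dir_ev F hz u), ← dir_ci F hz, ← lap_ci F hz] at this
  simp only [dat, one_smul, ← scal_ci F hz, ci_self] at this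
  exact this

/-- The Lichnerowicz formula in divergence form. -/
theorem Sm.green_lich (h : F.Sm U) (hx : x ∈ U) (hc : Cl γ)
    (hu : ContMDiffAt (𝓡 n) 𝓘(ℝ, S) 2 u x) (hv : MDifferentiableAt (𝓡 n) 𝓘(ℝ, S) v x) :
    ∑ i, ⟪F.nab γ i u x, F.nab γ i v x⟫ + F.scal x / 4 * ⟪u x, v x⟫ - ⟪F.dir γ u x, F.dir γ v x⟫ =
      ∑ j, (F.dd j (fun y => ⟪F.nab γ j u y, v y⟫ + ⟪γ j (F.dir γ u y), v y⟫) x +
        F.dv j x * (⟪F.nab γ j u x, v x⟫ + ⟪γ j (F.dir γ u x), v x⟫)) := by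
  have hz := mem_chart_target (Eu n) x
  have hu' := (smooth_self (by norm_cast)).1 hu
  have hv' := mdiff_self.1 hv
  have := LICH.Dat.green_lich (hc.dat F (ci x)) (h.fa hx) hu' hv'
  have h1 : ∀ j, F.dd j (fun y => ⟪F.nab γ j u y, v y⟫ + ⟪γ j (F.dir γ u y), v y⟫) x =
      LICH.X (F.pe (ci x) j) (fun y => ⟪(F.dat γ (ci x)).nab j (fun y => u (ci x y)) y, v (ci x y)⟫)
        (chartAt (Eu n) x x) + LICH.X (F.pe (ci x) j) (fun y =>
          ⟪γ j ((F.dat γ (ci x)).dir (fun y => u (ci x y)) y), v (ci x y)⟫) (chartAt (Eu n) x x) :=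
    fun j => by
      rw [← LICH.X_add ((LICH.Dat.dnab (D := F.dat γ (ci x)) (h.fa hx) hu' j).inner ℝ hv')
        (((differentiableAt_const (γ j)).clm_apply
          (LICH.Dat.ddir (D := F.dat γ (ci x)) (h.fa hx) hu')).inner ℝ hv'), dd_self]
      refine LICH.X_congr ?_
      filter_upwards [nab_ev (γ := γ) F hz j u, dir_ev (γ := γ) F hz u] with y h1 h2
      rw [h1, h2]
  simp only [← nab_ci F hz, ← dir_ci F hz, ci_self] at this
  simp only [h1, mul_add, Finset.sum_add_distrib]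
  simp only [dat, one_mul, ← scal_ci F hz, ci_self, dv_pc, Finset.sum_add_distrib] at this
  simp only [dat]
  linarith

end mfd

end Fm

/-! ### The frames of a spin manifold -/

variable {n N : ℕ}

/-- The Clifford matrices. -/
def gam (S : Spinor n N) (i : Fin n) : Eu N →L[ℝ] Eu N := S.c (ι (Qn n) (bv i))

lemma gam_cl (S : Spinor n N) : Fm.Cl (gam S) where
  rel := ⟨one_mul 1, fun i j => by
    rw [gam, gam, ← map_mul S.c, ← map_mul S.c, ← map_add S.c, ι_mul_ι_add_swap, AlgHom.commutes,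
      Algebra.algebraMap_eq_smul_one]
    congr 1
    simp only [QuadraticMap.polar, Qn, _root_.neg_apply, LinearMap.BilinMap.toQuadraticMap_apply,
      innerₗ_apply_apply, inner_add_left, inner_add_right, bv, EuclideanSpace.inner_single_left]
    split_ifs with h
    · subst h; simp; norm_num
    · simp [h, Ne.symm h]⟩
  adj i := S.skew _

variable (X : SM n)

lemma sm (a : ℕ) : Fm.Sm (X.F a) (X.U a) := ⟨X.isOpen a, fun _ => X.smooth a _⟩

lemma e_eq (a : ℕ) : X.e a = Fm.e (X.F a) := rfl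

lemma dd_eq {T : Type} [NormedAddCommGroup T] [NormedSpace ℝ T] (a : ℕ) (i : Fin n) (u : X.M → T) :
    X.dd a i u = Fm.dd (X.F a) i u := rfl

lemma cc_eq (a : ℕ) : X.cc a = Fm.cc (X.F a) := rfl

lemma ga_eq (a : ℕ) : X.ga a = Fm.ga (X.F a) := rfl

lemma riem_eq (a : ℕ) : X.riem a = Fm.riem (X.F a) := rfl

lemma scal_eq (x : X.M) : X.scal x = Fm.scal (X.F (X.fr x)) x := rfl

lemma dirac_eq (S : Spinor n N) (a : ℕ) (u : X.M → Eu N) :
    X.dirac S a u = Fm.dir (X.F a) (gam S) u := by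
  funext x
  simp only [SM.dirac, Fm.dir, Fm.nab, Fm.con, LICH.lam, gam, map_mul, _root_.smul_apply,
    _root_.sum_apply, dd_eq, ga_eq]

lemma mem_fr (x : X.M) : x ∈ X.U (X.fr x) := Nat.sInf_mem (X.cover x)

end Pool.Agent.Lib.ANA
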