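import Mathlib

/-! General facts on manifolds: inverse function theorem, pull back of vector fields to a
parametrisation, vector fields on a product with the line. -/

noncomputable section

open Manifold Set Topology Filter VectorField
open scoped ContDiff

namespace Pool.Agent.Lib.ANA.Mf

section Gen

variable {E E' H H' M M' : Type*} [NormedAddCommGroup E] [NormedSpace ℝ E] [CompleteSpace E]
  [TopologicalSpace H] {I : ModelWithCorners ℝ E H} [TopologicalSpace M] [ChartedSpace H M]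
  [NormedAddCommGroup E'] [NormedSpace ℝ E'] [TopologicalSpace H'] {I' : ModelWithCorners ℝ E' H'}
  [TopologicalSpace M'] [ChartedSpace H' M']

omit [CompleteSpace E] in
theorem man2 (I : ModelWithCorners ℝ E H) (M : Type*) [TopologicalSpace M] [ChartedSpace H M]
    [IsManifold I ∞ M] : IsManifold I (minSmoothness ℝ 2) M := by
  rw [minSmoothness_of_isRCLikeNormedField]
  exact IsManifold.of_le (n := ∞) (by norm_cast)

/-- The inverse function theorem on manifolds: a local left inverse is smooth. -/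
theorem inv_smooth [I.Boundaryless] [I'.Boundaryless] [IsManifold I ∞ M] [IsManifold I' ∞ M']
    {f : M → M'} {g : M' → M} {x : M} (hf : ContMDiffAt I I' ∞ f x)
    (hi : (mfderiv I I' f x).IsInvertible) (hg : ∀ᶠ z in 𝓝 x, g (f z) = z) :
    ContMDiffAt I' I ∞ g (f x) := by
  set φ := extChartAt I x with hφ
  set ψ := extChartAt I' (f x) with hψ
  have hd : MDifferentiableAt I I' f x := hf.mdifferentiableAt (by simp)
  obtain ⟨hc, hh⟩ := contMDiffAt_iff.1 hf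
  rw [I.range_eq_univ, contDiffWithinAt_univ] at hh
  obtain ⟨A, hA⟩ : ∃ A : E ≃L[ℝ] E', (A : E →L[ℝ] E') = mfderiv I I' f x := hi
  have hm := hd.mfderiv
  rw [I.range_eq_univ, fderivWithin_univ] at hm
  have hA' : HasFDerivAt (ψ ∘ f ∘ φ.symm) (A : E →L[ℝ] E') (φ x) := by
    have h1 := (hh.differentiableAt (by simp)).hasFDerivAt
    have h2 : fderiv ℝ (ψ ∘ f ∘ φ.symm) (φ x) = (A : E →L[ℝ] E') := by
      rw [hA, hm]; rfl
    rwa [h2] at h1
  set L := hh.toOpenPartialHomeomorph _ hA' (by simp) with hL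
  have hx0 : (ψ ∘ f ∘ φ.symm) (φ x) = ψ (f x) := by
    simp [hφ]
  have hs : ContDiffAt ℝ ∞ L.symm (ψ (f x)) := by
    rw [← hx0]; exact hh.to_localInverse hA' (by simp)
  have hL0 : L.symm (ψ (f x)) = φ x := by
    rw [← hx0]; exact hh.localInverse_apply_image hA' (by simp)
  have hT : ψ (f x) ∈ L.target := by
    rw [← hx0]; exact hh.image_mem_toOpenPartialHomeomorph_target hA' (by simp)
  have h1 : ContMDiffAt I' 𝓘(ℝ, E') ∞ ψ (f x) := contMDiffAt_extChartAt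
  have h2 : ContMDiffAt I' 𝓘(ℝ, E) ∞ (L.symm ∘ ψ) (f x) := hs.contMDiffAt.comp _ h1
  have h3 : ContMDiffAt 𝓘(ℝ, E) I ∞ φ.symm (φ x) := by
    have := contMDiffWithinAt_extChartAt_symm_range (I := I) (n := ∞) x (mem_extChartAt_target x)
    rwa [I.range_eq_univ, contMDiffWithinAt_univ] at this
  have h4 : ContMDiffAt I' I ∞ (φ.symm ∘ L.symm ∘ ψ) (f x) := by
    refine ContMDiffAt.comp (f x) ?_ h2
    simpa only [Function.comp, hL0] using h3
  refine h4.congr_of_eventuallyEq ?_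
  have hG : (φ.symm ∘ L.symm ∘ ψ) (f x) = x := by
    simp only [Function.comp, hL0]; simp [hφ]
  have ht : Tendsto (φ.symm ∘ L.symm ∘ ψ) (𝓝 (f x)) (𝓝 x) := by
    have := h4.continuousAt.tendsto; rwa [hG] at this
  have e1 : ∀ᶠ z in 𝓝 x, f z ∈ ψ.source := hc (extChartAt_source_mem_nhds (f x))
  have e2 : ∀ᶠ y in 𝓝 (f x), ψ y ∈ L.target := h1.continuousAt (L.open_target.mem_nhds hT)
  filter_upwards [ht.eventually hg, ht.eventually e1, e2, extChartAt_source_mem_nhds (I := I') (f x)]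
    with y hy1 hy2 hy3 hy4
  have : f ((φ.symm ∘ L.symm ∘ ψ) y) = y := by
    refine ψ.injOn hy2 hy4 ?_
    exact L.right_inv hy3
  rw [← hy1, this]

variable (I I') in
/-- The derivative as a map between the model spaces. -/
def md (f : M → M') (x : M) : E →L[ℝ] E' := mfderiv I I' f x

omit [CompleteSpace E] in
theorem md_comp {E'' H'' M'' : Type*} [NormedAddCommGroup E''] [NormedSpace ℝ E'']
    [TopologicalSpace H''] {I'' : ModelWithCorners ℝ E'' H''} [TopologicalSpace M'']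
    [ChartedSpace H'' M''] {f : M → M'} {g : M' → M''} {x : M}
    (hg : MDifferentiableAt I' I'' g (f x)) (hf : MDifferentiableAt I I' f x) (v : E) :
    md I I'' (g ∘ f) x v = md I' I'' g (f x) (md I I' f x v) :=
  congrArg (fun A : E →L[ℝ] E'' => A v) (mfderiv_comp x hg hf)

omit [CompleteSpace E] in
theorem md_congr {f g : M → M'} {x : M} (h : f =ᶠ[𝓝 x] g) : md I I' f x = md I I' g x :=
  h.mfderiv_eq

omit [CompleteSpace E] in
theorem md_id (x : M) (v : E) : md I I (id : M → M) x v = v :=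
  congrArg (fun A : E →L[ℝ] E => A v) (mfderiv_id (I := I) (x := x))

omit [CompleteSpace E] in
theorem mpullback_md (f : M → M') (V : Π y : M', TangentSpace I' y) (x : M) :
    (mpullback I I' f V x : E) = (md I I' f x).inverse (V (f x)) := rfl

omit [CompleteSpace E] in
/-- The derivative of a local left inverse. -/
theorem inv_md {f : M → M'} {g : M' → M} {x : M} (hf : MDifferentiableAt I I' f x)
    (hg' : MDifferentiableAt I' I g (f x))
    (hi : (md I I' f x).IsInvertible) (hg : ∀ᶠ z in 𝓝 x, g (f z) = z) :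
    (md I' I g (f x)).IsInvertible ∧ (md I' I g (f x)).inverse = md I I' f x := by
  have h2 : (g ∘ f) =ᶠ[𝓝 x] id := hg
  have h3 : ∀ v : E, md I' I g (f x) (md I I' f x v) = v := by
    intro v
    rw [← md_comp hg' hf, md_congr h2, md_id]
  obtain ⟨A, hA⟩ := hi
  have h4 : md I' I g (f x) = (A.symm : E' →L[ℝ] E) := by
    ext w
    have := h3 (A.symm w)
    rw [← hA] at this
    simpa using this
  refine ⟨⟨A.symm, h4.symm⟩, ?_⟩
  rw [h4, ContinuousLinearMap.inverse_equiv, ← hA]; rfl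

end Gen

section Par

variable {E F H M : Type*} [NormedAddCommGroup E] [NormedSpace ℝ E] [CompleteSpace E]
  [NormedAddCommGroup F] [NormedSpace ℝ F]
  [TopologicalSpace H] {I : ModelWithCorners ℝ F H} [TopologicalSpace M] [ChartedSpace H M]
  [IsManifold I ∞ M]

/-- Pull back of a vector field by a parametrisation `κ : E → M`. -/
def pb (I : ModelWithCorners ℝ F H) (κ : E → M) (V : Π y : M, TangentSpace I y) (x : E) : E :=
  (md 𝓘(ℝ, E) I κ x).inverse (V (κ x))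

theorem contDiffAt_pb {κ : E → M} {V : Π y : M, TangentSpace I y} {x : E}
    (hV : ContMDiffAt I I.tangent ∞ (fun y => (⟨y, V y⟩ : TangentBundle I M)) (κ x))
    (hκ : ContMDiffAt 𝓘(ℝ, E) I ∞ κ x) (hi : (md 𝓘(ℝ, E) I κ x).IsInvertible) :
    ContDiffAt ℝ ∞ (pb I κ V) x :=
  contMDiffAt_vectorSpace_iff_contDiffAt.1
    (ContMDiffAt.mpullback_vectorField_preimage (m := ∞) (n := ∞) hV hκ hi (by simp))

theorem pb_bracket {κ : E → M} {V W : Π y : M, TangentSpace I y} {x : E}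
    (hV : ContMDiffAt I I.tangent ∞ (fun y => (⟨y, V y⟩ : TangentBundle I M)) (κ x))
    (hW : ContMDiffAt I I.tangent ∞ (fun y => (⟨y, W y⟩ : TangentBundle I M)) (κ x))
    (hκ : ContMDiffAt 𝓘(ℝ, E) I ∞ κ x) :
    pb I κ (mlieBracket I V W) x = lieBracket ℝ (pb I κ V) (pb I κ W) x := by
  have := man2 I M
  have := man2 𝓘(ℝ, E) E
  have h := mpullback_mlieBracket (I := 𝓘(ℝ, E)) (I' := I) (n := ∞)
    (hV.mdifferentiableAt (by simp)) (hW.mdifferentiableAt (by simp)) hκ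
    (by rw [minSmoothness_of_isRCLikeNormedField]; norm_cast)
  rw [← mlieBracketWithin_univ (I := 𝓘(ℝ, E)), mlieBracketWithin_eq_lieBracketWithin,
    lieBracketWithin_univ] at h
  exact h

omit [CompleteSpace E] [IsManifold I ∞ M] in
theorem md_pb {κ : E → M} (V : Π y : M, TangentSpace I y) {x : E}
    (hi : (md 𝓘(ℝ, E) I κ x).IsInvertible) : md 𝓘(ℝ, E) I κ x (pb I κ V x) = V (κ x) := by
  obtain ⟨A, hA⟩ := hi
  unfold pb
  rw [← hA, ContinuousLinearMap.inverse_equiv]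
  exact A.apply_symm_apply _

omit [CompleteSpace E] [IsManifold I ∞ M] in
/-- Derivative along a vector field, read in a parametrisation. -/
theorem md_eq_fderiv {S : Type*} [NormedAddCommGroup S] [NormedSpace ℝ S] {κ : E → M}
    (V : Π y : M, TangentSpace I y) {u : M → S} {x : E}
    (hu : MDifferentiableAt I 𝓘(ℝ, S) u (κ x)) (hκ : MDifferentiableAt 𝓘(ℝ, E) I κ x)
    (hi : (md 𝓘(ℝ, E) I κ x).IsInvertible) :
    md I 𝓘(ℝ, S) u (κ x) (V (κ x)) = fderiv ℝ (u ∘ κ) x (pb I κ V x) := by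
  rw [← md_pb V hi, ← md_comp hu hκ]
  exact congrArg (fun A : E →L[ℝ] S => A (pb I κ V x)) mfderiv_eq_fderiv

variable [I.Boundaryless]

theorem chart_smooth (y : M) {x : F} (hx : x ∈ (extChartAt I y).target) :
    ContMDiffAt 𝓘(ℝ, F) I ∞ (extChartAt I y).symm x := by
  have := contMDiffWithinAt_extChartAt_symm_range (I := I) (n := ∞) y hx
  rwa [I.range_eq_univ, contMDiffWithinAt_univ] at this

theorem chart_inv (y : M) {x : F} (hx : x ∈ (extChartAt I y).target) :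
    (md 𝓘(ℝ, F) I (extChartAt I y).symm x).IsInvertible := by
  have := isInvertible_mfderivWithin_extChartAt_symm (I := I) hx
  rwa [I.range_eq_univ, mfderivWithin_univ] at this

omit [IsManifold I ∞ M] in
theorem chart_nhds (y : M) : (extChartAt I y).target ∈ 𝓝 (extChartAt I y y) :=
  extChartAt_target_mem_nhds y

omit [IsManifold I ∞ M] [I.Boundaryless] in
/-- A function is smooth at `y` when it is so in the chart at `y`. -/
theorem smooth_of_chart {S : Type*} [NormedAddCommGroup S] [NormedSpace ℝ S] {u : M → S} {y : M}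
    (h : ContDiffAt ℝ ∞ (u ∘ (extChartAt I y).symm) (extChartAt I y y)) :
    ContMDiffAt I 𝓘(ℝ, S) ∞ u y := by
  refine (h.contMDiffAt.comp y (contMDiffAt_extChartAt (I := I) (n := ∞))).congr_of_eventuallyEq ?_
  filter_upwards [extChartAt_source_mem_nhds (I := I) y] with z hz
  simp only [Function.comp, (extChartAt I y).left_inv hz]

end Par

section Prod

variable {F H M : Type*} [NormedAddCommGroup F] [NormedSpace ℝ F]
  [TopologicalSpace H] {I : ModelWithCorners ℝ F H} [TopologicalSpace M] [ChartedSpace H M]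

/-- The vector field `(V, s ∂/∂t)` on `M × ℝ`. -/
def pv (V : Π y : M, TangentSpace I y) (s : ℝ) (q : M × ℝ) : TangentSpace (I.prod 𝓘(ℝ)) q :=
  (V q.1, s)

theorem md_prod {E : Type*} [NormedAddCommGroup E] [NormedSpace ℝ E] {κ : E → M} {x : E × ℝ}
    (hκ : MDifferentiableAt 𝓘(ℝ, E) I κ x.1) (v : E × ℝ) :
    md 𝓘(ℝ, E × ℝ) (I.prod 𝓘(ℝ)) (fun x : E × ℝ => (κ x.1, x.2)) x v =
      (md 𝓘(ℝ, E) I κ x.1 v.1, v.2) := by
  have h1 : HasMFDerivAt 𝓘(ℝ, E × ℝ) 𝓘(ℝ, E) (Prod.fst : E × ℝ → E) x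
      (ContinuousLinearMap.fst ℝ E ℝ) := (ContinuousLinearMap.fst ℝ E ℝ).hasMFDerivAt
  have h2 : HasMFDerivAt 𝓘(ℝ, E × ℝ) 𝓘(ℝ) (Prod.snd : E × ℝ → ℝ) x
      (ContinuousLinearMap.snd ℝ E ℝ) := (ContinuousLinearMap.snd ℝ E ℝ).hasMFDerivAt
  have h3 := ((hκ.hasMFDerivAt.comp x h1).prodMk h2).mfderiv
  exact congrArg (fun A : E × ℝ →L[ℝ] F × ℝ => A v) h3

/-- Derivative of a function of the first variable. -/
theorem md_fst {S : Type*} [NormedAddCommGroup S] [NormedSpace ℝ S] {u : M → S} {q : M × ℝ}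
    (hu : MDifferentiableAt I 𝓘(ℝ, S) u q.1) (v : F × ℝ) :
    md (I.prod 𝓘(ℝ)) 𝓘(ℝ, S) (fun q : M × ℝ => u q.1) q v = md I 𝓘(ℝ, S) u q.1 v.1 := by
  have h := md_comp (I := I.prod 𝓘(ℝ)) (f := (Prod.fst : M × ℝ → M)) hu mdifferentiableAt_fst v
  refine h.trans ?_
  congr 1
  exact congrArg (fun A : F × ℝ →L[ℝ] F => A v) (mfderiv_fst (I := I) (I' := 𝓘(ℝ)) (x := q))

/-- Derivative of a function of the second variable. -/
theorem md_snd {η : ℝ → ℝ} {q : M × ℝ} (hη : DifferentiableAt ℝ η q.2) (v : F × ℝ) :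
    md (I.prod 𝓘(ℝ)) 𝓘(ℝ) (fun q : M × ℝ => η q.2) q v = deriv η q.2 * v.2 := by
  have h := md_comp (I := I.prod 𝓘(ℝ)) (I' := 𝓘(ℝ)) (I'' := 𝓘(ℝ)) (f := (Prod.snd : M × ℝ → ℝ))
    (g := η) hη.mdifferentiableAt mdifferentiableAt_snd v
  refine h.trans ?_
  have h1 : md (I.prod 𝓘(ℝ)) 𝓘(ℝ) (Prod.snd : M × ℝ → ℝ) q v = v.2 :=
    congrArg (fun A : F × ℝ →L[ℝ] ℝ => A v) (mfderiv_snd (I := I) (I' := 𝓘(ℝ)) (x := q))
  have h2 : md 𝓘(ℝ) 𝓘(ℝ) η q.2 = fderiv ℝ η q.2 := mfderiv_eq_fderiv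
  rw [h1, h2, fderiv_eq_deriv_mul]

variable [IsManifold I ∞ M]

theorem pv_smooth {V : Π y : M, TangentSpace I y} (s : ℝ) {q : M × ℝ}
    (hV : ContMDiffAt I I.tangent ∞ (fun y => (⟨y, V y⟩ : TangentBundle I M)) q.1) :
    ContMDiffAt (I.prod 𝓘(ℝ)) (I.prod 𝓘(ℝ)).tangent ∞
      (fun q => (⟨q, pv V s q⟩ : TangentBundle (I.prod 𝓘(ℝ)) (M × ℝ))) q := by
  have h1 : ContMDiffAt 𝓘(ℝ) 𝓘(ℝ).tangent ∞ (fun t => (⟨t, s⟩ : TangentBundle 𝓘(ℝ) ℝ)) q.2 :=
    contMDiffAt_vectorSpace_iff_contDiffAt.2 contDiffAt_const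
  exact (contMDiff_equivTangentBundleProd_symm (I := I) (M := M) (I' := 𝓘(ℝ)) (M' := ℝ)
    (n := ∞) _).comp q ((hV.comp q contMDiffAt_fst).prodMk (h1.comp q contMDiffAt_snd))

theorem pv_bracket [CompleteSpace F] [I.Boundaryless] {V W : Π y : M, TangentSpace I y} (s s' : ℝ)
    {q : M × ℝ} (hV : ContMDiffAt I I.tangent ∞ (fun y => (⟨y, V y⟩ : TangentBundle I M)) q.1)
    (hW : ContMDiffAt I I.tangent ∞ (fun y => (⟨y, W y⟩ : TangentBundle I M)) q.1) :
    mlieBracket (I.prod 𝓘(ℝ)) (pv V s) (pv W s') q = pv (mlieBracket I V W) 0 q := by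
  set κ := (extChartAt I q.1).symm with hκ
  set x : F × ℝ := (extChartAt I q.1 q.1, q.2) with hx
  set ψ : F × ℝ → M × ℝ := fun x => (κ x.1, x.2) with hψ
  have hk : κ x.1 = q.1 := extChartAt_to_inv q.1
  have hq : ψ x = q := Prod.ext hk rfl
  have hx1 : x.1 ∈ (extChartAt I q.1).target := mem_extChartAt_target q.1
  have hs : ContMDiffAt 𝓘(ℝ, F × ℝ) (I.prod 𝓘(ℝ)) ∞ ψ x :=
    ((chart_smooth q.1 hx1).comp x contDiffAt_fst.contMDiffAt).prodMk contDiffAt_snd.contMDiffAt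
  have hm : ∀ z : F × ℝ, z.1 ∈ (extChartAt I q.1).target → ∃ A : F ≃L[ℝ] F,
      md 𝓘(ℝ, F) I κ z.1 = A ∧
      md 𝓘(ℝ, F × ℝ) (I.prod 𝓘(ℝ)) ψ z = A.prodCongr (ContinuousLinearEquiv.refl ℝ ℝ) := by
    intro z hz
    obtain ⟨A, hA⟩ := chart_inv q.1 hz
    refine ⟨A, hA.symm, ContinuousLinearMap.ext fun v => ?_⟩
    rw [md_prod ((chart_smooth q.1 hz).mdifferentiableAt (by simp)), ← hA]
    rfl
  have hp : ∀ (U : Π y : M, TangentSpace I y) (r : ℝ) (z : F × ℝ),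
      z.1 ∈ (extChartAt I q.1).target → pb (I.prod 𝓘(ℝ)) ψ (pv U r) z = (pb I κ U z.1, r) := by
    intro U r z hz
    obtain ⟨A, hA, hB⟩ := hm z hz
    unfold pb
    rw [hA, hB, ContinuousLinearMap.inverse_equiv, ContinuousLinearMap.inverse_equiv]
    rfl
  have hn : ∀ᶠ z : F × ℝ in 𝓝 x, z.1 ∈ (extChartAt I q.1).target :=
    continuousAt_fst.eventually (chart_nhds q.1)
  have hV' := hV
  have hW' := hW
  rw [← hk] at hV' hW'
  have a1 := (contDiffAt_pb hV' (chart_smooth q.1 hx1) (chart_inv q.1 hx1)).differentiableAt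
    (by simp)
  have a2 := (contDiffAt_pb hW' (chart_smooth q.1 hx1) (chart_inv q.1 hx1)).differentiableAt
    (by simp)
  have b1 := pb_bracket (κ := ψ) (x := x) (hq.symm ▸ pv_smooth s hV) (hq.symm ▸ pv_smooth s' hW) hs
  have b2 := pb_bracket hV' hW' (chart_smooth q.1 hx1)
  have e1 : pb (I.prod 𝓘(ℝ)) ψ (pv V s) =ᶠ[𝓝 x] fun z => (pb I κ V z.1, s) :=
    hn.mono fun z hz => hp V s z hz
  have e2 : pb (I.prod 𝓘(ℝ)) ψ (pv W s') =ᶠ[𝓝 x] fun z => (pb I κ W z.1, s') :=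
    hn.mono fun z hz => hp W s' z hz
  have d : ∀ (a : F → F) (r : ℝ), DifferentiableAt ℝ a x.1 → ∀ v : F × ℝ,
      fderiv ℝ (fun z : F × ℝ => (a z.1, r)) x v = (fderiv ℝ a x.1 v.1, 0) := by
    intro a r ha v
    have := ((ha.hasFDerivAt.comp x hasFDerivAt_fst).prodMk (hasFDerivAt_const r x)).fderiv
    exact congrArg (fun A : F × ℝ →L[ℝ] F × ℝ => A v) this
  have b3 : pb (I.prod 𝓘(ℝ)) ψ (mlieBracket (I.prod 𝓘(ℝ)) (pv V s) (pv W s')) x =
      pb (I.prod 𝓘(ℝ)) ψ (pv (mlieBracket I V W) 0) x := by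
    rw [b1, hp _ _ _ hx1, b2, e1.lieBracket_vectorField_eq e2]
    simp only [lieBracket, d _ _ a1, d _ _ a2, Prod.mk_sub_mk, sub_zero]
  have hi : (md 𝓘(ℝ, F × ℝ) (I.prod 𝓘(ℝ)) ψ x).IsInvertible := by
    obtain ⟨A, -, hB⟩ := hm x hx1
    exact ⟨_, hB.symm⟩
  have c1 := md_pb (mlieBracket (I.prod 𝓘(ℝ)) (pv V s) (pv W s')) hi
  rw [b3, md_pb _ hi] at c1
  rw [← hq]
  exact c1.symm

end Prod

end Pool.Agent.Lib.ANA.Mf
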