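import Pool.Agent.Lib.CX.Defs
import Pool.Agent.Lib.LICH.Int
import Pool.Agent.Lib.ANA.Mf

/-! Frames on a manifold, read in a parametrisation. -/

noncomputable section

open Manifold Set Topology Filter VectorField Module
open scoped ContDiff

namespace Pool.Agent.Lib.ANA.Fr

open CX Mf

variable {n : ℕ} {M : Type*} [TopologicalSpace M] [ChartedSpace (Eu n) M]

/-- A field of frames. -/
abbrev Frame (n : ℕ) (M : Type*) [TopologicalSpace M] [ChartedSpace (Eu n) M] : Type _ :=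
  ∀ x : M, Eu n ≃L[ℝ] TangentSpace (𝓡 n) x

def fe (F : Frame n M) (i : Fin n) (x : M) : TangentSpace (𝓡 n) x := F x (bv i)

def fdd {S : Type*} [NormedAddCommGroup S] [NormedSpace ℝ S] (F : Frame n M) (i : Fin n)
    (φ : M → S) (x : M) : S := md (𝓡 n) 𝓘(ℝ, S) φ x (fe F i x)

def fcc (F : Frame n M) (i j k : Fin n) (x : M) : ℝ :=
  (F x).symm (mlieBracket (𝓡 n) (fe F i) (fe F j) x) k

def fga (F : Frame n M) (i j k : Fin n) (x : M) : ℝ :=
  (fcc F i j k x - fcc F j k i x + fcc F k i j x) / 2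

def friem (F : Frame n M) (i j k l : Fin n) (x : M) : ℝ :=
  fdd F i (fga F j k l) x - fdd F j (fga F i k l) x +
    ∑ m, (fga F j k m x * fga F i m l x - fga F i k m x * fga F j m l x -
      fcc F i j m x * fga F m k l x)

def fscal (F : Frame n M) (x : M) : ℝ := ∑ i, ∑ j, friem F i j j i x

theorem e_eq (X : SM n) (a : ℕ) : X.e a = fe (X.F a) := rfl
theorem dd_eq {S : Type} [NormedAddCommGroup S] [NormedSpace ℝ S] (X : SM n) (a : ℕ) (i : Fin n)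
    (φ : X.M → S) : X.dd a i φ = fdd (X.F a) i φ := rfl
theorem cc_eq (X : SM n) (a : ℕ) : X.cc a = fcc (X.F a) := rfl
theorem ga_eq (X : SM n) (a : ℕ) : X.ga a = fga (X.F a) := rfl
theorem riem_eq (X : SM n) (a : ℕ) : X.riem a = friem (X.F a) := rfl
theorem scal_eq (X : SM n) (x : X.M) : X.scal x = fscal (X.F (X.fr x)) x := rfl

theorem fr_mem (X : SM n) (x : X.M) : x ∈ X.U (X.fr x) := Nat.sInf_mem (X.cover x)

theorem sum_bv (w : Eu n) : ∑ k, w k • bv k = w := by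
  ext l; simp [bv, Finset.sum_apply, Pi.single_apply]

variable [IsManifold (𝓡 n) ∞ M]

/-- The frame `F` is smooth on the open set `U`. -/
structure SmF (F : Frame n M) (U : Set M) : Prop where
  op : IsOpen U
  sm : ∀ i, ∀ y ∈ U, ContMDiffAt (𝓡 n) (𝓡 n).tangent ∞
    (fun y => (⟨y, fe F i y⟩ : TangentBundle (𝓡 n) M)) y

theorem smF (X : SM n) (a : ℕ) : SmF (X.F a) (X.U a) :=
  ⟨X.isOpen a, fun i _ hy => (X.smooth a (bv i)).contMDiffAt ((X.isOpen a).mem_nhds hy)⟩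

theorem SmF.mono {F : Frame n M} {U V : Set M} (h : SmF F U) (hV : IsOpen V) (hs : V ⊆ U) :
    SmF F V := ⟨hV, fun i y hy => h.sm i y (hs hy)⟩

section Par

variable {E : Type*} [NormedAddCommGroup E] [NormedSpace ℝ E]

/-- `κ` is a local diffeomorphism on the open set `Ω`. -/
structure IsPar (n : ℕ) {M : Type*} [TopologicalSpace M] [ChartedSpace (Eu n) M] (κ : E → M)
    (Ω : Set E) : Prop where
  op : IsOpen Ω
  sm : ∀ x ∈ Ω, ContMDiffAt 𝓘(ℝ, E) (𝓡 n) ∞ κ x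
  inv : ∀ x ∈ Ω, (md 𝓘(ℝ, E) (𝓡 n) κ x).IsInvertible

theorem isPar_chart (y : M) : IsPar n (extChartAt (𝓡 n) y).symm (extChartAt (𝓡 n) y).target :=
  ⟨isOpen_extChartAt_target y, fun _ hx => chart_smooth y hx, fun _ hx => chart_inv y hx⟩

/-- The frame in the parametrisation. -/
def pe (κ : E → M) (F : Frame n M) (i : Fin n) : E → E := pb (𝓡 n) κ (fe F i)

/-- The structure functions in the parametrisation. -/
def pc (κ : E → M) (F : Frame n M) (i j k : Fin n) (x : E) : ℝ := fcc F i j k (κ x)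

variable {κ : E → M} {Ω : Set E} {F : Frame n M} {U : Set M} {x : E}

omit [IsManifold (𝓡 n) ∞ M] in
theorem IsPar.ev (hκ : IsPar n κ Ω) (hU : IsOpen U) (hx : x ∈ Ω) (hy : κ x ∈ U) :
    ∀ᶠ z in 𝓝 x, z ∈ Ω ∧ κ z ∈ U :=
  (Filter.Eventually.and (hκ.op.mem_nhds hx) ((hκ.sm x hx).continuousAt (hU.mem_nhds hy)))

omit [IsManifold (𝓡 n) ∞ M] in
/-- The frame at `x` as a linear equivalence. -/
theorem IsPar.equiv (hκ : IsPar n κ Ω) (F : Frame n M) (hx : x ∈ Ω) :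
    ∃ A : Eu n ≃L[ℝ] E, (∀ v, A v = (md 𝓘(ℝ, E) (𝓡 n) κ x).inverse (F (κ x) v)) ∧
      (∀ v, md 𝓘(ℝ, E) (𝓡 n) κ x (A v) = F (κ x) v) ∧ ∀ i, pe κ F i x = A (bv i) := by
  obtain ⟨B, hB⟩ := hκ.inv x hx
  let F0 : Eu n ≃L[ℝ] Eu n := F (κ x)
  have h1 : ∀ v, (F0.trans B.symm) v = (md 𝓘(ℝ, E) (𝓡 n) κ x).inverse (F (κ x) v) := by
    intro v
    rw [← hB, ContinuousLinearMap.inverse_equiv]; rfl
  refine ⟨F0.trans B.symm, h1, fun v => ?_, fun i => (h1 _).symm⟩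
  rw [← hB]
  exact B.apply_symm_apply _

omit [IsManifold (𝓡 n) ∞ M] in
theorem IsPar.li (hκ : IsPar n κ Ω) (F : Frame n M) (hx : x ∈ Ω) :
    LinearIndependent ℝ fun i => pe κ F i x := by
  obtain ⟨A, -, -, hA⟩ := hκ.equiv F hx
  have h : LinearIndependent ℝ fun i : Fin n => (bv i : Eu n) :=
    (EuclideanSpace.orthonormal_single (𝕜 := ℝ)).linearIndependent
  simp only [hA]
  exact h.map' A.toLinearEquiv.toLinearMap A.toLinearEquiv.ker

omit [IsManifold (𝓡 n) ∞ M] in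
/-- Coefficients of a vector field in the frame. -/
theorem IsPar.pb_eq (hκ : IsPar n κ Ω) (F : Frame n M) (hx : x ∈ Ω)
    (V : Π y : M, TangentSpace (𝓡 n) y) :
    pb (𝓡 n) κ V x = ∑ k, (F (κ x)).symm (V (κ x)) k • pe κ F k x := by
  obtain ⟨A, h1, -, hA⟩ := hκ.equiv F hx
  simp only [hA]
  simp only [← map_smul, ← map_sum]
  rw [sum_bv, h1]
  unfold pb
  congr 1
  exact ((F (κ x)).apply_symm_apply _).symm

omit [IsManifold (𝓡 n) ∞ M] in
theorem IsPar.dd {S : Type*} [NormedAddCommGroup S] [NormedSpace ℝ S] (hκ : IsPar n κ Ω)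
    (F : Frame n M) (hx : x ∈ Ω) {u : M → S} (hu : MDifferentiableAt (𝓡 n) 𝓘(ℝ, S) u (κ x))
    (i : Fin n) : fdd F i u (κ x) = LICH.X (pe κ F i) (u ∘ κ) x :=
  md_eq_fderiv (fe F i) hu ((hκ.sm x hx).mdifferentiableAt (by simp)) (hκ.inv x hx)

variable [FiniteDimensional ℝ E]

theorem IsPar.pe_smooth (hκ : IsPar n κ Ω) (hF : SmF F U) (hx : x ∈ Ω) (hy : κ x ∈ U) (i : Fin n) :
    ContDiffAt ℝ ∞ (pe κ F i) x := by
  have := FiniteDimensional.complete ℝ E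
  exact contDiffAt_pb (hF.sm i _ hy) (hκ.sm x hx) (hκ.inv x hx)

theorem IsPar.br (hκ : IsPar n κ Ω) (hF : SmF F U) (hx : x ∈ Ω) (hy : κ x ∈ U) (i j : Fin n) :
    lieBracket ℝ (pe κ F i) (pe κ F j) x = ∑ k, pc κ F i j k x • pe κ F k x := by
  have := FiniteDimensional.complete ℝ E
  exact (pb_bracket (hF.sm i _ hy) (hF.sm j _ hy) (hκ.sm x hx)).symm.trans (hκ.pb_eq F hx _)

theorem IsPar.pc_smooth (hκ : IsPar n κ Ω) (hF : SmF F U) (hx : x ∈ Ω) (hy : κ x ∈ U)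
    (i j k : Fin n) : ContDiffAt ℝ ∞ (pc κ F i j k) x := by
  obtain ⟨A, -, -, -⟩ := hκ.equiv F hx
  let b : Basis (Fin n) ℝ E := (EuclideanSpace.basisFun (Fin n) ℝ).toBasis.map A.toLinearEquiv
  refine (LICH.contDiffAt_cf b (m := ∞) (n := ∞) (hκ.pe_smooth hF hx hy) (by simp) (hκ.li F hx)
    i j k).congr_of_eventuallyEq ?_
  filter_upwards [hκ.ev hF.op hx hy] with z hz
  have h1 := hκ.br hF hz.1 hz.2 i j
  have h2 := LICH.cramer b (hκ.li F hz.1) (lieBracket ℝ (pe κ F i) (pe κ F j) z)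
  have h3 := Fintype.linearIndependent_iff.1 (hκ.li F hz.1)
    (fun k => pc κ F i j k z - LICH.cf b (pe κ F) i j k z) (by
      simp only [sub_smul, Finset.sum_sub_distrib]
      rw [← h1]
      exact sub_eq_zero.2 h2) k
  exact sub_eq_zero.1 h3

theorem IsPar.frameAt (hκ : IsPar n κ Ω) (hF : SmF F U) (hx : x ∈ Ω) (hy : κ x ∈ U) :
    LICH.FrameAt (pe κ F) (pc κ F) x where
  sm i := (hκ.pe_smooth hF hx hy i).of_le (by norm_cast)
  smc i j k := (hκ.pc_smooth hF hx hy i j k).differentiableAt (by simp)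
  br i j := (hκ.ev hF.op hx hy).mono fun _ hz => hκ.br hF hz.1 hz.2 i j
  li := (hκ.ev hF.op hx hy).mono fun _ hz => hκ.li F hz.1

omit [IsManifold (𝓡 n) ∞ M] [FiniteDimensional ℝ E] [NormedAddCommGroup E] [NormedSpace ℝ E] in
theorem ga_comp (κ : E → M) (F : Frame n M) (i j k : Fin n) :
    fga F i j k ∘ κ = LICH.chr (pc κ F) i j k := rfl

end Par

variable {F : Frame n M} {U : Set M} {y : M}

theorem SmF.cc_smooth (hF : SmF F U) (hy : y ∈ U) (i j k : Fin n) :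
    ContMDiffAt (𝓡 n) 𝓘(ℝ) ∞ (fcc F i j k) y :=
  smooth_of_chart ((isPar_chart y).pc_smooth hF (mem_extChartAt_target y)
    (by rwa [extChartAt_to_inv]) i j k)

theorem SmF.ga_smooth (hF : SmF F U) (hy : y ∈ U) (i j k : Fin n) :
    ContMDiffAt (𝓡 n) 𝓘(ℝ) ∞ (fga F i j k) y :=
  smooth_of_chart (LICH.contDiffAt_chr ((isPar_chart y).pc_smooth hF (mem_extChartAt_target y)
    (by rwa [extChartAt_to_inv])) i j k)

theorem SmF.dd_smooth {S : Type*} [NormedAddCommGroup S] [NormedSpace ℝ S] (hF : SmF F U)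
    (hy : y ∈ U) {u : M → S} (hu : ContMDiffAt (𝓡 n) 𝓘(ℝ, S) ∞ u y) (i : Fin n) :
    ContMDiffAt (𝓡 n) 𝓘(ℝ, S) ∞ (fdd F i u) y := by
  have hκ := isPar_chart (n := n) y
  have hx := mem_extChartAt_target (I := 𝓡 n) y
  have h0 := extChartAt_to_inv (I := 𝓡 n) y
  have h1 : ContDiffAt ℝ ∞ (u ∘ (extChartAt (𝓡 n) y).symm) (extChartAt (𝓡 n) y y) :=
    ((h0.symm ▸ hu : ContMDiffAt (𝓡 n) 𝓘(ℝ, S) ∞ u _).comp _ (hκ.sm _ hx)).contDiffAt
  refine smooth_of_chart ((LICH.contDiffAt_X (m := ∞) (hκ.pe_smooth hF hx (h0.symm ▸ hy) i) h1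
    (by simp)).congr_of_eventuallyEq ?_)
  have h2 : ∀ᶠ z in 𝓝 y, ContMDiffAt (𝓡 n) 𝓘(ℝ, S) 1 u z :=
    (contMDiffAt_iff_contMDiffAt_nhds (by simp)).1 (hu.of_le (by norm_cast))
  have h3 : Tendsto (extChartAt (𝓡 n) y).symm (𝓝 (extChartAt (𝓡 n) y y)) (𝓝 y) := by
    have := (hκ.sm _ hx).continuousAt.tendsto
    rwa [h0] at this
  filter_upwards [h3.eventually h2, hκ.op.mem_nhds hx] with z hz hz'
  exact hκ.dd F hz' (hz.mdifferentiableAt one_ne_zero) i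

section Par2

variable {E : Type*} [NormedAddCommGroup E] [NormedSpace ℝ E] {κ : E → M} {Ω : Set E} {x : E}

theorem IsPar.riem (hκ : IsPar n κ Ω) (hF : SmF F U) (hx : x ∈ Ω) (hy : κ x ∈ U)
    (i j k l : Fin n) : friem F i j k l (κ x) = LICH.riem (pe κ F) (pc κ F) i j k l x := by
  unfold friem LICH.riem
  rw [hκ.dd F hx ((hF.ga_smooth hy j k l).mdifferentiableAt (by simp)),
    hκ.dd F hx ((hF.ga_smooth hy i k l).mdifferentiableAt (by simp))]
  rfl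

theorem IsPar.scal (hκ : IsPar n κ Ω) (hF : SmF F U) (hx : x ∈ Ω) (hy : κ x ∈ U) :
    fscal F (κ x) = LICH.scal (pe κ F) (pc κ F) x :=
  Finset.sum_congr rfl fun i _ => Finset.sum_congr rfl fun j _ => hκ.riem hF hx hy i j j i

end Par2

theorem SmF.scal_smooth (hF : SmF F U) (hy : y ∈ U) : ContMDiffAt (𝓡 n) 𝓘(ℝ) ∞ (fscal F) y := by
  have hκ := isPar_chart (n := n) y
  have hx := mem_extChartAt_target (I := 𝓡 n) y
  have h0 : (extChartAt (𝓡 n) y).symm (extChartAt (𝓡 n) y y) ∈ U := by rwa [extChartAt_to_inv]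
  refine smooth_of_chart ((LICH.contDiffAt_scal (m := ∞) (n := ∞) (hκ.pe_smooth hF hx h0)
    (hκ.pc_smooth hF hx h0) (by simp)).congr_of_eventuallyEq ?_)
  filter_upwards [hκ.ev hF.op hx h0] with z hz
  exact hκ.scal hF hz.1 hz.2

end Pool.Agent.Lib.ANA.Fr
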