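import Pool.Agent.Lib.ANA.CylX
import Pool.Agent.Lib.ANA.Fr

/-! Height function, cut-off functions and partitions of unity on a manifold with a cylinder. -/

noncomputable section

open Manifold Set Topology Filter CliffordAlgebra
open scoped ContDiff InnerProductSpace

namespace Pool.Agent.Lib.ANA.Cyl

open CX CylA CylB

/-! ### The gradient norm -/

section Grad

variable {n : ℕ}

theorem covers_norm {s : Cl n} {A : Eu n → Eu n} (h : Covers s id A) (v : Eu n) :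
    ‖A v‖ = ‖v‖ := by
  have h1 := h.2 v
  simp only [id] at h1
  have h2 : ι (Qn n) (A v) * ι (Qn n) (A v) * s = s * (ι (Qn n) v * ι (Qn n) v) := by
    rw [mul_assoc, h1, ← mul_assoc, h1, mul_assoc]
  rw [ι_sq_scalar, ι_sq_scalar, ← Algebra.commutes] at h2
  have h3 := congrArg (· * star s) h2
  simp only [mul_assoc, spinGroup.mul_star_self_of_mem h.1, mul_one] at h3
  have h4 := (algebraMap ℝ (Cl n)).injective h3
  have h5 : ∀ w : Eu n, Qn n w = -‖w‖ ^ 2 := fun w => by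
    simp [Qn]
  rw [h5, h5, neg_inj] at h4
  exact (pow_left_inj₀ (norm_nonneg _) (norm_nonneg _) two_ne_zero).1 h4

theorem sum_sq_iso (L : Eu n →L[ℝ] ℝ) (A : Eu n ≃L[ℝ] Eu n) (hA : ∀ v, ‖A v‖ = ‖v‖) :
    ∑ i, L (A (bv i)) ^ 2 = ‖L‖ ^ 2 := by
  let B : Eu n ≃ₗᵢ[ℝ] Eu n := { A.toLinearEquiv with norm_map' := hA }
  have h := ((EuclideanSpace.basisFun (Fin n) ℝ).map B).sum_sq_inner_left
    ((InnerProductSpace.toDual ℝ (Eu n)).symm L)
  rw [LinearIsometryEquiv.norm_map] at h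
  rw [← h]
  refine Finset.sum_congr rfl fun i _ => ?_
  rw [InnerProductSpace.toDual_symm_apply, OrthonormalBasis.map_apply, EuclideanSpace.basisFun_apply]
  rfl

variable (X : SM n)

/-- The squared norm of the gradient. -/
def g2 (φ : X.M → ℝ) (p : X.M) : ℝ := ∑ i, X.dd (X.fr p) i φ p ^ 2

theorem dd_sq_congr (φ : X.M → ℝ) {a b : ℕ} {p : X.M} (ha : p ∈ X.U a) (hb : p ∈ X.U b) :
    ∑ i, X.dd a i φ p ^ 2 = ∑ i, X.dd b i φ p ^ 2 := by
  let L : Eu n →L[ℝ] ℝ := (mfderiv (𝓡 n) 𝓘(ℝ, ℝ) φ p).comp (X.F a p).toContinuousLinearMap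
  have h1 := sum_sq_iso L (ContinuousLinearEquiv.refl ℝ _) fun _ => rfl
  have h2 := sum_sq_iso L ((X.F b p).trans (X.F a p).symm) (covers_norm (X.spin a b p ⟨ha, hb⟩))
  refine h1.trans (h2.symm.trans (Finset.sum_congr rfl fun i _ => ?_))
  exact congrArg (fun w : Eu n => Mf.md (𝓡 n) 𝓘(ℝ, ℝ) φ p w ^ 2)
    ((X.F a p).apply_symm_apply _)

theorem g2_eq (φ : X.M → ℝ) {a : ℕ} {p : X.M} (ha : p ∈ X.U a) :
    ∑ i, X.dd a i φ p ^ 2 = g2 X φ p := dd_sq_congr X φ ha (fr_mem X p)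

theorem continuous_g2 {φ : X.M → ℝ} (hφ : ContMDiff (𝓡 n) 𝓘(ℝ, ℝ) ∞ φ) : Continuous (g2 X φ) := by
  refine continuous_iff_continuousAt.2 fun p => ?_
  have h : ContinuousAt (fun q => ∑ i, X.dd (X.fr p) i φ q ^ 2) p :=
    tendsto_finsetSum _ fun i _ =>
      ((Fr.smF X _).dd_smooth (fr_mem X p) (hφ p) i).continuousAt.pow 2
  refine h.congr ?_
  filter_upwards [(X.isOpen _).mem_nhds (fr_mem X p)] with q hq
  exact g2_eq X φ hq

theorem continuous_scal (hG : ∀ a b p, p ∈ X.U a → p ∈ X.U b →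
    ∑ i, ∑ j, X.riem a i j j i p = ∑ i, ∑ j, X.riem b i j j i p) : Continuous X.scal := by
  refine continuous_iff_continuousAt.2 fun p => ?_
  refine ((Fr.smF X _).scal_smooth (fr_mem X p)).continuousAt.congr ?_
  filter_upwards [(X.isOpen _).mem_nhds (fr_mem X p)] with q hq
  exact hG _ _ q hq (fr_mem X q)

/-- A smooth bump function. -/
theorem exists_bump {W : Set X.M} {p : X.M} (hW : W ∈ 𝓝 p) : ∃ ψ : X.M → ℝ,
    ContMDiff (𝓡 n) 𝓘(ℝ, ℝ) ∞ ψ ∧ HasCompactSupport ψ ∧ tsupport ψ ⊆ W ∧ ψ p = 1 := by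
  obtain ⟨f, -, hf⟩ := (SmoothBumpFunction.nhds_basis_tsupport (I := 𝓡 n) p).mem_iff.1 hW
  exact ⟨f, f.contMDiff, f.hasCompactSupport, hf, f.eq_one⟩

/-- Finitely many bump functions without common zero on a compact set. -/
theorem exists_bumps {K : Set X.M} (hK : IsCompact K) {P : Set X.M → Prop}
    (hP : ∀ p ∈ K, ∃ W ∈ 𝓝 p, P W) : ∃ (r : ℕ) (ψ : Fin r → X.M → ℝ),
      (∀ k, ContMDiff (𝓡 n) 𝓘(ℝ, ℝ) ∞ (ψ k) ∧ HasCompactSupport (ψ k) ∧
        ∃ W, P W ∧ tsupport (ψ k) ⊆ W) ∧ ∀ p ∈ K, ∃ k, ψ k p ≠ 0 := by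
  choose W hW hPW using hP
  choose ψ h1 h2 h3 h4 using fun p : K => exists_bump X (hW p.1 p.2)
  obtain ⟨t, ht⟩ := hK.elim_nhds_subcover' (fun p hp => {q | ψ ⟨p, hp⟩ q ≠ 0}) fun p hp =>
    (isOpen_ne_fun (h1 _).continuous continuous_const).mem_nhds (by simp [h4])
  refine ⟨t.card, fun k => ψ (t.equivFin.symm k).1, fun k => ⟨h1 _, h2 _, _, hPW _ _, h3 _⟩,
    fun p hp => ?_⟩
  obtain ⟨q, hq, h⟩ := mem_iUnion₂.1 (ht hp)
  exact ⟨t.equivFin ⟨q, hq⟩, by simpa using h⟩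

end Grad

variable {m : ℕ} {G : Type} [Group G] (x : Sing G m)

theorem g2_ext (φ : x.X.M → ℝ) {a : ℕ} {p : x.X.M} (ha : p ∈ eU x a) :
    ∑ i, (ext x).dd a i φ p ^ 2 = g2 x.X φ p := by
  rw [dd_sq_congr (ext x) φ ha (mem_even x (fr_mem x.X p)), dd_even]
  rfl

/-! ### Topology of the cylinder -/

theorem isCompact_slab (a b : ℝ) : IsCompact {z : x.N.M × Eu 1 | a ≤ z.2 0 ∧ z.2 0 ≤ b} := by
  have := x.cpt
  have h : IsCompact ((fun t : ℝ => t • (bv 0 : Eu 1)) '' Icc a b) :=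
    isCompact_Icc.image (by fun_prop)
  convert (isCompact_univ (X := x.N.M)).prod h using 1
  ext z
  simp only [mem_ofPred_eq, mem_prod, mem_univ, true_and, mem_image, mem_Icc]
  refine ⟨fun h => ⟨z.2 0, h, ?_⟩, ?_⟩
  · ext i; simp [Subsingleton.elim i 0, bv]
  · rintro ⟨t, ht, h⟩
    rw [← h]; simpa [bv] using ht

theorem isCompact_j_slab {a : ℝ} (ha : 0 < a) (b : ℝ) :
    IsCompact (x.j '' {z | a ≤ z.2 0 ∧ z.2 0 ≤ b}) :=
  (isCompact_slab x a b).image_of_continuousOn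
    (x.prod.1.contMDiffOn.continuousOn.mono fun _ hz => ha.trans_le hz.1)

/-- The image of a closed set bounded away from the end `t = 0` is closed. -/
theorem isClosed_j {C : Set (x.N.M × Eu 1)} (hC : IsClosed C) {s : ℝ} (hs : 0 < s)
    (h : ∀ z ∈ C, s ≤ z.2 0) : IsClosed (x.j '' C) := by
  have h1 := (x.closed.union (isCompact_j_slab x hs 1).isClosed).sdiff
    (isOpen_image x.prod.1 ((isOpen_O x).sdiff hC) sdiff_subset)
  convert h1 using 1
  ext p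
  constructor
  · rintro ⟨z, hz, rfl⟩
    refine ⟨?_, ?_⟩
    · rcases le_total 1 (z.2 0) with h2 | h2
      · exact Or.inl ⟨z, h2, rfl⟩
      · exact Or.inr ⟨z, ⟨h z hz, h2⟩, rfl⟩
    · rintro ⟨w, hw, hwz⟩
      exact hw.2 (inj x hw.1 (hs.trans_le (h z hz)) hwz ▸ hz)
  · rintro ⟨⟨z, hz, rfl⟩ | ⟨z, hz, rfl⟩, h2⟩
    · exact ⟨z, by_contra fun h3 => h2 ⟨z, ⟨(zero_lt_one' ℝ).trans_le hz, h3⟩, rfl⟩, rfl⟩
    · exact ⟨z, by_contra fun h3 => h2 ⟨z, ⟨hs.trans_le hz.1, h3⟩, rfl⟩, rfl⟩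

theorem isClosed_cyl {s : ℝ} (hs : 0 < s) : IsClosed (x.j '' {z | s ≤ z.2 0}) :=
  isClosed_j x (isClosed_le continuous_const (by fun_prop)) hs fun _ h => h

theorem pull_ev_off {S : Type} {u : x.N.M × Eu 1 → S} {c₀ : S} {s : ℝ} (hs : 0 < s)
    (h : ∀ z ∈ O x, z.2 0 < s → u z = c₀) {p : x.X.M} (hp : p ∉ x.j '' O x) :
    pull x.j (O x) u c₀ =ᶠ[𝓝 p] fun _ => c₀ := by
  filter_upwards [(isClosed_cyl x hs).isOpen_compl.mem_nhds
    fun ⟨z, hz, h1⟩ => hp ⟨z, hs.trans_le hz, h1⟩] with q hq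
  by_cases h1 : q ∈ x.j '' O x
  · obtain ⟨z, hz, rfl⟩ := h1
    rw [pull_j (inj x) _ _ hz]
    exact h z hz (lt_of_not_ge fun h2 => hq ⟨z, h2, rfl⟩)
  · exact pull_off _ _ h1

/-- Smooth functions on the cylinder that are constant near the end `t = 0` extend smoothly. -/
theorem contMDiff_pull {S : Type} [NormedAddCommGroup S] [NormedSpace ℝ S]
    {u : x.N.M × Eu 1 → S} {c₀ : S} {s : ℝ} (hs : 0 < s)
    (hu : ∀ z ∈ O x, ContMDiffAt ((𝓡 m).prod (𝓡 1)) 𝓘(ℝ, S) ∞ u z)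
    (h : ∀ z ∈ O x, z.2 0 < s → u z = c₀) :
    ContMDiff (𝓡 (m + 1)) 𝓘(ℝ, S) ∞ (pull x.j (O x) u c₀) := fun p => by
  by_cases hp : p ∈ x.j '' O x
  · obtain ⟨z, hz, rfl⟩ := hp
    exact contMDiffAt_pull (isOpen_O x) (inj x) hz (loc x hz) (hu z hz) c₀
  · exact contMDiffAt_const.congr_of_eventuallyEq (pull_ev_off x hs h hp)

/-- The height function: the cylinder coordinate, zero off the cylinder. -/
def ht : x.X.M → ℝ := pull x.j (O x) (fun z => z.2 0) 0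

theorem ht_j {z : x.N.M × Eu 1} (hz : z ∈ O x) : ht x (x.j z) = z.2 0 := pull_j (inj x) _ _ hz

theorem ht_off {p : x.X.M} (hp : p ∉ x.j '' O x) : ht x p = 0 := pull_off _ _ hp

theorem ht_nonneg (p : x.X.M) : 0 ≤ ht x p := by
  by_cases hp : p ∈ x.j '' O x
  · obtain ⟨z, hz, rfl⟩ := hp
    rw [ht_j x hz]; exact le_of_lt hz
  · rw [ht_off x hp]

theorem exists_of_ht_pos {p : x.X.M} (hp : 0 < ht x p) :
    ∃ z ∈ O x, x.j z = p ∧ z.2 0 = ht x p := by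
  by_cases h : p ∈ x.j '' O x
  · obtain ⟨z, hz, rfl⟩ := h
    exact ⟨z, hz, rfl, (ht_j x hz).symm⟩
  · rw [ht_off x h] at hp; exact absurd hp (lt_irrefl _)

theorem le_ht_iff {s : ℝ} (hs : 0 < s) {p : x.X.M} :
    s ≤ ht x p ↔ p ∈ x.j '' {z | s ≤ z.2 0} := by
  refine ⟨fun h => ?_, ?_⟩
  · obtain ⟨z, -, h1, h2⟩ := exists_of_ht_pos x (hs.trans_le h)
    exact ⟨z, h.trans_eq h2.symm, h1⟩
  · rintro ⟨z, hz, rfl⟩
    rw [ht_j x (hs.trans_le hz)]; exact hz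

theorem lt_ht_iff {s : ℝ} (hs : 0 ≤ s) {p : x.X.M} :
    s < ht x p ↔ p ∈ x.j '' {z | s < z.2 0} := by
  refine ⟨fun h => ?_, ?_⟩
  · obtain ⟨z, -, h1, h2⟩ := exists_of_ht_pos x (hs.trans_lt h)
    exact ⟨z, h.trans_eq h2.symm, h1⟩
  · rintro ⟨z, hz, rfl⟩
    rw [ht_j x (hs.trans_lt hz)]; exact hz

theorem mem_core_iff {p : x.X.M} : p ∈ x.core ↔ ht x p ≤ 1 := by
  rw [← not_lt, lt_ht_iff x zero_le_one]; rfl

theorem contMDiff_t : ContMDiff ((𝓡 m).prod (𝓡 1)) 𝓘(ℝ, ℝ) ∞ fun z : x.N.M × Eu 1 => z.2 0 :=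
  (EuclideanSpace.proj (0 : Fin 1) : Eu 1 →L[ℝ] ℝ).contMDiff.comp contMDiff_snd

theorem comp_ht {S : Type} (η : ℝ → S) :
    (fun p => η (ht x p)) = pull x.j (O x) (fun z => η (z.2 0)) (η 0) := by
  funext p
  by_cases hp : p ∈ x.j '' O x
  · obtain ⟨z, hz, rfl⟩ := hp
    rw [ht_j x hz, pull_j (inj x) _ _ hz]
  · rw [ht_off x hp, pull_off _ _ hp]

theorem contMDiff_comp_ht {S : Type} [NormedAddCommGroup S] [NormedSpace ℝ S] {η : ℝ → S}
    (hη : ContDiff ℝ ∞ η) {s : ℝ} (hs : 0 < s) (h : ∀ t < s, η t = η 0) :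
    ContMDiff (𝓡 (m + 1)) 𝓘(ℝ, S) ∞ fun p => η (ht x p) := by
  rw [comp_ht]
  exact contMDiff_pull x hs (fun z _ => (hη.contMDiff.comp (contMDiff_t x)) z) fun z _ hz => h _ hz

theorem continuous_ht : Continuous (ht x) := by
  refine continuous_iff_continuousAt.2 fun p => ?_
  by_cases hp : p ∈ x.j '' O x
  · obtain ⟨z, hz, rfl⟩ := hp
    exact (contMDiffAt_pull (isOpen_O x) (inj x) hz (loc x hz) (contMDiff_t x z) 0).continuousAt
  · rw [ContinuousAt, ht_off x hp]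
    refine tendsto_order.2 ⟨fun a ha => .of_forall fun q => ha.trans_le (ht_nonneg x q),
      fun s hs => ?_⟩
    filter_upwards [(isClosed_cyl x hs).isOpen_compl.mem_nhds
      fun ⟨z, hz, h1⟩ => hp ⟨z, hs.trans_le hz, h1⟩] with q hq
    exact lt_of_not_ge fun h => hq ((le_ht_iff x hs).1 h)

/-- The height function is proper. -/
theorem isCompact_ht_le (R : ℝ) : IsCompact {p | ht x p ≤ R} := by
  refine (x.core_cpt.union (isCompact_j_slab x one_pos R)).of_isClosed_subset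
    (isClosed_le (continuous_ht x) continuous_const) fun p hp => ?_
  rcases le_total (ht x p) 1 with h | h
  · exact Or.inl ((mem_core_iff x).2 h)
  · obtain ⟨z, -, h1, h2⟩ := exists_of_ht_pos x (one_pos.trans_le h)
    exact Or.inr ⟨z, ⟨h2 ▸ h, h2 ▸ hp⟩, h1⟩

theorem exists_ht_le {K : Set x.X.M} (hK : IsCompact K) : ∃ R, 1 ≤ R ∧ ∀ p ∈ K, ht x p ≤ R := by
  obtain ⟨R, hR⟩ := hK.bddAbove_image (continuous_ht x).continuousOn
  exact ⟨max R 1, le_max_right _ _, fun p hp => (hR ⟨p, hp, rfl⟩).trans (le_max_left _ _)⟩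

/-! ### Gradients -/

theorem dd_comp_ht (b : ℕ) (i : Fin (m + 1)) {η : ℝ → ℝ} {z : x.N.M × Eu 1} (hz : z ∈ O x)
    (hη : DifferentiableAt ℝ η (z.2 0)) :
    (ext x).dd (2 * b + 1) i (fun p => η (ht x p)) (x.j z) =
      if i = Fin.last m then deriv η (z.2 0) else 0 := by
  have h1 : HasFDerivAt (fun t : Eu 1 => η (t 0)) _ z.2 :=
    hη.hasDerivAt.comp_hasFDerivAt z.2 (EuclideanSpace.proj (0 : Fin 1) : Eu 1 →L[ℝ] ℝ).hasFDerivAt
  rw [dd_snd x b i hz (g := fun t : Eu 1 => η (t 0)) ?_ h1.differentiableAt, h1.fderiv]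
  · refine Fin.lastCases ?_ (fun i => ?_) i
    · rw [sn_symm_last]; simp [bv]
    · simp [sn_symm_cast, (Fin.castSucc_lt_last _).ne]
  · filter_upwards [(isOpen_O x).mem_nhds hz] with w hw
    exact congrArg η (ht_j x hw)

/-- The gradient of a function of the height. -/
theorem g2_comp_ht {η : ℝ → ℝ} (hη : Differentiable ℝ η) {s : ℝ} (hs : 0 < s)
    (h : ∀ t < s, η t = η 0) (p : x.X.M) :
    g2 x.X (fun p => η (ht x p)) p = deriv η (ht x p) ^ 2 := by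
  by_cases hp : p ∈ x.j '' O x
  · obtain ⟨z, hz, rfl⟩ := hp
    rw [← g2_ext x _ (mem_odd x hz (fr_mem x.N z.1)), ht_j x hz]
    simp [dd_comp_ht x _ _ hz (hη _)]
  · have h1 : η =ᶠ[𝓝 0] fun _ => η 0 := (eventually_lt_nhds hs).mono h
    have h2 := pull_ev_off x (u := fun z => η (z.2 0)) hs (fun z _ hz => h _ hz) hp
    rw [← comp_ht] at h2
    rw [ht_off x hp, h1.deriv_eq, deriv_const]
    unfold g2 SM.dd
    rw [h2.mfderiv_eq, mfderiv_const, zero_pow two_ne_zero]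
    exact Finset.sum_eq_zero fun _ _ => zero_pow two_ne_zero

/-- Functions that are invariant along the far cylinder have bounded gradient. -/
theorem g2_bdd {φ : x.X.M → ℝ} (hφ : ContMDiff (𝓡 (m + 1)) 𝓘(ℝ, ℝ) ∞ φ) {R : ℝ}
    {g : x.N.M → ℝ} (h : ∀ z ∈ O x, R ≤ z.2 0 → φ (x.j z) = g z.1) :
    ∃ C, 0 ≤ C ∧ ∀ p, g2 x.X φ p ≤ C := by
  obtain ⟨C, hC⟩ := (isCompact_ht_le x (|R| + 1)).bddAbove_image (continuous_g2 x.X hφ).continuousOn
  have key : ∀ z : x.N.M × Eu 1, |R| < z.2 0 →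
      g2 x.X φ (x.j z) = ∑ i, Mf.md (𝓡 m) 𝓘(ℝ, ℝ) g z.1 (V1 x (x.N.fr z.1) i z.1) ^ 2 := by
    intro z hz
    have hO : z ∈ O x := (abs_nonneg R).trans_lt hz
    rw [← g2_ext x _ (mem_odd x hO (fr_mem x.N z.1))]
    refine Finset.sum_congr rfl fun i _ => ?_
    refine congrArg (· ^ 2) (dd_fst x _ i hO (g := g) ?_)
    filter_upwards [(isOpen_lt continuous_const (contMDiff_t x).continuous).mem_nhds hz] with w hw
    exact h w ((abs_nonneg R).trans_lt hw) ((le_abs_self R).trans hw.le)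
  refine ⟨max C 0, le_max_right _ _, fun p => le_trans ?_ (le_max_left _ _)⟩
  rcases le_or_gt (ht x p) (|R| + 1) with h1 | h1
  · exact hC ⟨p, h1, rfl⟩
  · obtain ⟨z, -, rfl, h2⟩ := exists_of_ht_pos x (lt_trans (by positivity) h1)
    have h3 : (((z.1, (|R| + 1) • bv 0) : x.N.M × Eu 1).2 0) = |R| + 1 := by simp [bv]
    rw [key z (by linarith)]
    refine le_of_eq_of_le (key (z.1, (|R| + 1) • bv 0) (by rw [h3]; linarith)).symm (hC ⟨_, ?_, rfl⟩)
    rw [mem_ofPred_eq, ht_j x (show (0 : ℝ) < _ by rw [h3]; positivity), h3]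

theorem deriv_trans_bdd : ∃ C, 0 < C ∧ ∀ t, |deriv Real.smoothTransition t| ≤ C := by
  have hc : Continuous (deriv Real.smoothTransition) :=
    (Real.smoothTransition.contDiff (n := 1)).continuous_deriv le_rfl
  obtain ⟨C, hC⟩ := (isCompact_Icc (a := (0 : ℝ)) (b := 1)).bddAbove_image hc.abs.continuousOn
  refine ⟨max C 1, lt_max_of_lt_right one_pos, fun t => ?_⟩
  rcases lt_or_ge t 0 with h | h
  · have : Real.smoothTransition =ᶠ[𝓝 t] fun _ => 0 :=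
      (eventually_lt_nhds h).mono fun _ h => Real.smoothTransition.zero_of_nonpos h.le
    rw [this.deriv_eq]; simp
  rcases le_or_gt t 1 with h' | h'
  · exact (hC ⟨t, ⟨h, h'⟩, rfl⟩).trans (le_max_left _ _)
  · have : Real.smoothTransition =ᶠ[𝓝 t] fun _ => 1 :=
      (eventually_gt_nhds h').mono fun _ h => Real.smoothTransition.one_of_one_le h.le
    rw [this.deriv_eq]; simp

/-- Cut-off functions with small gradient. -/
theorem exists_cutoff {K : Set x.X.M} (hK : IsCompact K) {ε : ℝ} (hε : 0 < ε) :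
    ∃ ρ : x.X.M → ℝ, ContMDiff (𝓡 (m + 1)) 𝓘(ℝ, ℝ) ∞ ρ ∧ HasCompactSupport ρ ∧
      (∀ p, 0 ≤ ρ p ∧ ρ p ≤ 1) ∧ (∀ p ∈ K, ρ p = 1) ∧ ∀ p, g2 x.X ρ p ≤ ε ^ 2 := by
  obtain ⟨R, hR1, hR⟩ := exists_ht_le x hK
  obtain ⟨C, hC0, hC⟩ := deriv_trans_bdd
  have hd : 0 < ε / C := div_pos hε hC0
  let η : ℝ → ℝ := fun t => Real.smoothTransition (1 + (R - t) * (ε / C))
  have hη : ContDiff ℝ ∞ η := Real.smoothTransition.contDiff.comp (by fun_prop)
  have h1 : ∀ t ≤ R, η t = 1 := fun t ht => Real.smoothTransition.one_of_one_le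
    (le_add_of_nonneg_right (mul_nonneg (sub_nonneg.2 ht) hd.le))
  have h2 : ∀ t < 1, η t = η 0 := fun t ht => by rw [h1 t (by linarith), h1 0 (by linarith)]
  refine ⟨fun p => η (ht x p), contMDiff_comp_ht x hη one_pos h2, ?_,
    fun p => ⟨Real.smoothTransition.nonneg _, Real.smoothTransition.le_one _⟩,
    fun p hp => h1 _ (hR p hp), fun p => ?_⟩
  · refine HasCompactSupport.intro (isCompact_ht_le x (R + C / ε)) fun p hp => ?_
    refine Real.smoothTransition.zero_of_nonpos ?_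
    have h3 : C / ε ≤ ht x p - R := by linarith [show R + C / ε < ht x p from lt_of_not_ge hp]
    have h4 := mul_le_mul_of_nonneg_right h3 hd.le
    rw [div_mul_div_cancel₀ hε.ne', div_self hC0.ne'] at h4
    linarith
  · rw [g2_comp_ht x (hη.differentiable (by simp)) one_pos h2]
    have h3 : HasDerivAt η (deriv Real.smoothTransition (1 + (R - ht x p) * (ε / C)) *
        (-1 * (ε / C))) (ht x p) :=
      ((Real.smoothTransition.contDiff (n := 1)).differentiable one_ne_zero _).hasDerivAt.comp _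
        ((((hasDerivAt_id (ht x p)).const_sub R).mul_const (ε / C)).const_add 1)
    rw [h3.deriv, sq_le_sq, abs_mul, abs_of_pos hε, neg_one_mul, abs_neg, abs_of_pos hd]
    refine (mul_le_mul_of_nonneg_right (hC _) hd.le).trans_eq ?_
    field_simp

/-! ### Scalar curvature -/

/-- The scalar curvature is bounded below by a positive constant on the cylinder and bounded
below everywhere. -/
theorem scal_lower (hN : ∀ a b p, p ∈ x.N.U a → p ∈ x.N.U b →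
      ∑ i, ∑ j, x.N.riem a i j j i p = ∑ i, ∑ j, x.N.riem b i j j i p)
    (hG : ∀ (Y : SM (m + 1)) a b p, p ∈ Y.U a → p ∈ Y.U b →
      ∑ i, ∑ j, Y.riem a i j j i p = ∑ i, ∑ j, Y.riem b i j j i p)
    (hp : ∀ y, 0 < x.N.scal y) : ∃ κ C : ℝ, 0 < κ ∧ 0 ≤ C ∧ (∀ p, 0 < ht x p → κ ≤ x.X.scal p) ∧
      ∀ p, |x.X.scal p| ≤ C := by
  have := x.cpt
  have hc := continuous_scal x.N hN
  obtain ⟨κ, h0, hκ⟩ := isCompact_univ.exists_forall_le' hc.continuousOn fun y _ => hp y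
  obtain ⟨C₁, h1⟩ := isCompact_univ.bddAbove_image hc.abs.continuousOn
  obtain ⟨C₂, h2⟩ := x.core_cpt.bddAbove_image (continuous_scal x.X (hG x.X)).abs.continuousOn
  refine ⟨κ, max (max C₁ C₂) 0, h0, le_max_right _ _, fun p hp => ?_, fun p => ?_⟩
  · obtain ⟨z, hz, rfl, -⟩ := exists_of_ht_pos x hp
    rw [scal_j x hG hz]
    exact hκ _ trivial
  · refine le_trans ?_ (le_max_left _ _)
    rcases le_or_gt (ht x p) 1 with h | h
    · exact (h2 ⟨p, (mem_core_iff x).2 h, rfl⟩).trans (le_max_right _ _)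
    · obtain ⟨z, hz, rfl, -⟩ := exists_of_ht_pos x (one_pos.trans h)
      rw [scal_j x hG hz]
      exact (h1 ⟨z.1, trivial, rfl⟩).trans (le_max_left _ _)

/-! ### Partition of unity -/

/-- A finite partition of unity (sum of squares) subordinate to an open cover that is adapted to
the cylinder; the functions are invariant along the far cylinder and have bounded gradient. -/
theorem exists_partition {ι : Type} (W : ι → Set x.X.M) (hW : ∀ p, ∃ i, W i ∈ 𝓝 p)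
    (hc : ∀ y : x.N.M, ∃ i, ∀ᶠ y' in 𝓝 y, ∀ t : Eu 1, 2 ≤ t 0 → x.j (y', t) ∈ W i) :
    ∃ (r : ℕ) (ix : Fin r → ι) (φ : Fin r → x.X.M → ℝ) (g : Fin r → x.N.M → ℝ) (R C : ℝ),
      (∀ k, ContMDiff (𝓡 (m + 1)) 𝓘(ℝ, ℝ) ∞ (φ k)) ∧ (∀ k, tsupport (φ k) ⊆ W (ix k)) ∧
      (∀ p, ∑ k, φ k p ^ 2 = 1) ∧ (∀ k p, g2 x.X (φ k) p ≤ C) ∧
      ∀ k, ∀ z ∈ O x, R ≤ z.2 0 → φ k (x.j z) = g k z.1 := by
  have := x.cpt
  obtain ⟨r₁, ψ, hψ, hψ0⟩ := exists_bumps x.X (isCompact_ht_le x 3) (P := fun V => ∃ i, V = W i)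
    fun p _ => (hW p).elim fun i hi => ⟨_, hi, i, rfl⟩
  obtain ⟨r₂, χ, hχ, hχ0⟩ := exists_bumps x.N isCompact_univ
    (P := fun V => ∃ i, ∀ y ∈ V, ∀ t : Eu 1, 2 ≤ t 0 → x.j (y, t) ∈ W i)
    fun y _ => (hc y).elim fun i hi => ⟨_, hi, i, fun _ h => h⟩
  choose a1 a2 V1' a3 a4 using hψ
  choose i₁ hi₁ using a3
  choose b1 b2 V2 b3 b4 using hχ
  choose i₂ hi₂ using b3
  obtain ⟨R, hR1, hR⟩ := exists_ht_le x (isCompact_iUnion fun k => (a2 k).isCompact)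
  let u : Fin r₂ → x.N.M × Eu 1 → ℝ := fun l z => χ l z.1 * Real.smoothTransition (z.2 0 - 2)
  let f : Fin (r₁ + r₂) → x.X.M → ℝ := Fin.append ψ fun l => pull x.j (O x) (u l) 0
  let g₀ : Fin (r₁ + r₂) → x.N.M → ℝ := Fin.append (fun _ _ => 0) χ
  have f1 : ∀ k, ContMDiff (𝓡 (m + 1)) 𝓘(ℝ, ℝ) ∞ (f k) := fun k => by
    refine Fin.addCases (fun k => ?_) (fun l => ?_) k
    · simpa only [f, Fin.append_left] using a1 k
    · simp only [f, Fin.append_right]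
      refine contMDiff_pull x two_pos (fun z _ => (((b1 l).comp contMDiff_fst).mul
        (Real.smoothTransition.contDiff.contMDiff.comp
          ((contMDiff_t x).sub contMDiff_const))) z) fun z _ hz => ?_
      simp only [u, Real.smoothTransition.zero_of_nonpos (sub_nonpos.2 hz.le), mul_zero]
  have f2 : ∀ k, tsupport (f k) ⊆ W (Fin.append i₁ i₂ k) := fun k => by
    refine Fin.addCases (fun k => ?_) (fun l => ?_) k
    · simp only [f, Fin.append_left]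
      exact hi₁ k ▸ a4 k
    · simp only [f, Fin.append_right]
      have h1 : IsClosed (x.j '' {z | z.1 ∈ tsupport (χ l) ∧ 2 ≤ z.2 0}) :=
        isClosed_j x (((isClosed_tsupport _).preimage continuous_fst).inter
          (isClosed_le continuous_const (contMDiff_t x).continuous)) two_pos fun _ h => h.2
      refine (closure_minimal (fun p hp => ?_) h1).trans ?_
      · by_cases h2 : p ∈ x.j '' O x
        · obtain ⟨z, hz, rfl⟩ := h2
          rw [Function.mem_support, pull_j (inj x) _ _ hz] at hp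
          refine ⟨z, ⟨subset_tsupport _ (left_ne_zero_of_mul hp), le_of_not_gt fun h3 => ?_⟩, rfl⟩
          exact right_ne_zero_of_mul hp (Real.smoothTransition.zero_of_nonpos (sub_nonpos.2 h3.le))
        · exact absurd (pull_off _ _ h2) hp
      · rintro _ ⟨z, hz, rfl⟩
        exact hi₂ l _ (b4 l hz.1) _ hz.2
  have f3 : ∀ k, ∀ z ∈ O x, R + 3 ≤ z.2 0 → f k (x.j z) = g₀ k z.1 := fun k z hz h => by
    refine Fin.addCases (fun k => ?_) (fun l => ?_) k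
    · simp only [f, g₀, Fin.append_left]
      by_contra h1
      have h2 := hR _ (mem_iUnion.2 ⟨k, subset_tsupport _ h1⟩)
      rw [ht_j x hz] at h2
      linarith
    · simp only [f, g₀, Fin.append_right, pull_j (inj x) _ _ hz, u]
      rw [Real.smoothTransition.one_of_one_le (by linarith), mul_one]
  have f4 : ∀ p, 0 < ∑ k, f k p ^ 2 := fun p => by
    suffices h : ∃ k, f k p ≠ 0 by
      obtain ⟨k, hk⟩ := h
      exact Finset.sum_pos' (fun _ _ => sq_nonneg _) ⟨k, Finset.mem_univ _, by positivity⟩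
    rcases le_or_gt (ht x p) 3 with h | h
    · obtain ⟨k, hk⟩ := hψ0 p h
      exact ⟨Fin.castAdd _ k, by simpa only [f, Fin.append_left] using hk⟩
    · obtain ⟨z, hz, rfl, h1⟩ := exists_of_ht_pos x (lt_trans three_pos h)
      obtain ⟨l, hl⟩ := hχ0 z.1 trivial
      refine ⟨Fin.natAdd _ l, ?_⟩
      simp only [f, Fin.append_right, pull_j (inj x) _ _ hz, u]
      rwa [Real.smoothTransition.one_of_one_le (by linarith), mul_one]
  let φ : Fin (r₁ + r₂) → x.X.M → ℝ := fun k p => f k p * (√(∑ k, f k p ^ 2))⁻¹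
  have p1 : ∀ k, ContMDiff (𝓡 (m + 1)) 𝓘(ℝ, ℝ) ∞ (φ k) := fun k p => by
    have h1 : ContMDiffAt (𝓡 (m + 1)) 𝓘(ℝ, ℝ) ∞ (fun p => ∑ k, f k p ^ 2) p :=
      contMDiffAt_finsetSum fun k _ => (f1 k p).pow 2
    have h2 : ContDiffAt ℝ ∞ (fun s : ℝ => (√s)⁻¹) (∑ k, f k p ^ 2) :=
      (Real.contDiffAt_sqrt (f4 p).ne').inv (Real.sqrt_pos.2 (f4 p)).ne'
    exact (f1 k p).mul (ContMDiffAt.comp (g := fun s : ℝ => (√s)⁻¹) p h2.contMDiffAt h1)
  have p2 : ∀ k, ∀ z ∈ O x, R + 3 ≤ z.2 0 →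
      φ k (x.j z) = g₀ k z.1 * (√(∑ k, g₀ k z.1 ^ 2))⁻¹ := fun k z hz h => by
    simp only [φ, f3 _ z hz h]
  choose C hC0 hC using fun k => g2_bdd x (p1 k)
    (g := fun y => g₀ k y * (√(∑ k, g₀ k y ^ 2))⁻¹) (p2 k)
  refine ⟨r₁ + r₂, Fin.append i₁ i₂, φ, fun k y => g₀ k y * (√(∑ k, g₀ k y ^ 2))⁻¹, R + 3,
    ∑ k, C k, p1, fun k => (tsupport_mul_subset_left).trans (f2 k), fun p => ?_,
    fun k p => (hC k p).trans (Finset.single_le_sum (fun k _ => hC0 k) (Finset.mem_univ k)), p2⟩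
  simp only [φ, mul_pow, inv_pow, Real.sq_sqrt (f4 p).le]
  rw [← Finset.sum_mul, mul_inv_cancel₀ (f4 p).ne']

end Pool.Agent.Lib.ANA.Cyl
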