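import Pool.Agent.Lib.ANA.Chart
import Pool.Agent.Lib.CX.Vol
import Pool.Agent.Lib.LICH.Int

/-! The divergence theorem and the integrated Green and Lichnerowicz formulas on a manifold. -/

noncomputable section

open Set Filter Topology MeasureTheory
open scoped Manifold ContDiff RealInnerProductSpace

namespace Pool.Agent.Lib.ANA

open CX Fm

variable {n : ℕ} {X : SM n} {F : Fm n X.M} {U : Set X.M} {μ : Measure X.M}

variable (X F U) in
/-- The frame is orthonormal on `U`. -/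
def ON : Prop := ∀ x ∈ U, ∀ a, x ∈ X.U a → ∀ v, ‖(X.F a x).symm (F x v)‖ = ‖v‖

variable (X) in
lemma on_F (a : ℕ) : ON X (X.F a) (X.U a) := fun x hx b hb v => (X.spin b a x ⟨hb, hx⟩).norm_eq v

lemma ON.mono (h : ON X F U) {V : Set X.M} (hV : V ⊆ U) : ON X F V := fun x hx => h x (hV hx)

/-- The standard basis. -/
abbrev sb (n : ℕ) : Module.Basis (Fin n) ℝ (Eu n) := (EuclideanSpace.basisFun (Fin n) ℝ).toBasis

lemma rho_pm {M : Type} [TopologicalSpace M] [ChartedSpace (Eu n) M] (F : Fm n M) (ψ : Eu n → M)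
    (y : Eu n) : LICH.rho (sb n) (F.pe ψ) y = |(F.pm ψ y).det|⁻¹ := by
  have h := (sb n).det_comp (F.pm ψ y).toLinearMap (sb n)
  rw [Module.Basis.det_self, mul_one] at h
  rw [LICH.rho, ContinuousLinearMap.det, ← h]
  congr 3
  funext i
  simp [pe, bv]

lemma ON.dens_eq (h : ON X F U) {x₀ : X.M} {a : ℕ} {y : Eu n} (hy : y ∈ X.Om x₀ a)
    (hU : ci x₀ y ∈ U) : X.dens x₀ a y = LICH.rho (sb n) (F.pe (ci x₀)) y := by
  have ha := SM.symm_mem_W hy
  let L : Eu n →ₗᵢ[ℝ] Eu n :=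
    ⟨((F (ci x₀ y)).trans (X.F a (ci x₀ y)).symm).toLinearEquiv.toLinearMap, h _ hU a ha.2⟩
  have h1 : (F.pm (ci x₀) y).toLinearMap = (X.J x₀ a (ci x₀ y)).toLinearMap ∘ₗ L.toLinearMap := by
    rw [pm_ci (SM.Om_sub hy)]
    exact LinearMap.ext fun v => congrArg (mfderiv (𝓡 n) (𝓡 n) (X.ct x₀) (ci x₀ y))
      ((X.F a _).apply_symm_apply _).symm
  rw [rho_pm, ContinuousLinearMap.det, h1, LinearMap.det_comp, abs_mul,
    ← LinearMap.normDet_eq_abs_det L.toLinearMap, L.normDet_eq_one, mul_one]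
  rfl

lemma integrable_of_supp (hμ : X.IsVol μ) {T : Type} [NormedAddCommGroup T] {K : Set X.M}
    (hK : IsCompact K) {g : X.M → T} (h0 : ∀ x ∉ K, g x = 0) (h : ∀ x ∈ K, ContinuousAt g x) :
    Integrable g μ :=
  have := hμ.isFiniteMeasureOnCompacts
  (integrableOn_iff_integrable_of_support_subset fun x hx => of_not_not fun h => hx (h0 x h)).1
    (ContinuousOn.integrableOn_compact hK fun x hx => (h x hx).continuousWithinAt)

variable (F) in
/-- The divergence of the vector field `f e_j`. -/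
def dvg (j : Fin n) (f : X.M → ℝ) (x : X.M) : ℝ := F.dd j f x + F.dv j x * f x

lemma dvg_zero {j : Fin n} {f : X.M → ℝ} {x : X.M} (hx : x ∉ tsupport f) : dvg F j f x = 0 := by
  rw [dvg, F.dd_congr (notMem_tsupport_iff_eventuallyEq.1 hx), image_eq_zero_of_notMem_tsupport hx,
    mul_zero, add_zero]
  exact F.dd_const 0

lemma dvg_integrable (hμ : X.IsVol μ) (hF : F.Sm U) {f : X.M → ℝ}
    (hf : ∀ x ∈ tsupport f, ContMDiffAt (𝓡 n) 𝓘(ℝ, ℝ) 1 f x) (hc : HasCompactSupport f)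
    (hs : tsupport f ⊆ U) (j : Fin n) : Integrable (dvg F j f) μ :=
  integrable_of_supp hμ hc (fun _ => dvg_zero) fun x hx =>
    (hF.dd_smooth' (m := 0) (hs hx) (by simp) (by norm_cast) (hf x hx) j).continuousAt.add
      ((hF.dv_smooth (hs hx) j).continuousAt.mul (hf x hx).continuousAt)

lemma ibp_loc (hμ : X.IsVol μ) (hF : F.Sm U) (hO : ON X F U) {f : X.M → ℝ}
    (hf : ∀ x ∈ tsupport f, ContMDiffAt (𝓡 n) 𝓘(ℝ, ℝ) 1 f x) (hc : HasCompactSupport f)
    (hs : tsupport f ⊆ U) {x₀ : X.M} {a : ℕ} (hW : tsupport f ⊆ X.W x₀ a) (j : Fin n) :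
    ∫ x, dvg F j f x ∂μ = 0 := by
  let g : Eu n → ℝ := (X.Om x₀ a).indicator fun y => f (ci x₀ y)
  have hK : IsCompact (X.ct x₀ '' tsupport f) :=
    hc.image_of_continuousOn ((X.ct x₀).continuousOn.mono fun p hp => (hW hp).1)
  have h1 : tsupport g ⊆ X.ct x₀ '' tsupport f := by
    refine closure_minimal (fun y hy => ?_) hK.isClosed
    rw [support_indicator] at hy
    exact ⟨_, subset_tsupport _ hy.2, (X.ct x₀).right_inv (SM.Om_sub hy.1)⟩
  have h2 : tsupport g ⊆ X.Om x₀ a := h1.trans (image_mono hW)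
  have h3 : ∀ y ∈ tsupport g, ci x₀ y ∈ tsupport f := fun y hy => by
    obtain ⟨p, hp, rfl⟩ := h1 hy
    rwa [ci_chart (hW hp).1]
  have h4 : ∀ y ∈ X.Om x₀ a, g =ᶠ[𝓝 y] fun y => f (ci x₀ y) := fun y hy => by
    filter_upwards [(X.isOpen_Om x₀ a).mem_nhds hy] with z hz using indicator_of_mem hz _
  have h5 := (LICH.ibp (sb n) volume (e := F.pe (ci x₀)) (c := F.pc (ci x₀)) (f := g)
    (fun y hy => (hF.par x₀).frameAt ⟨SM.Om_sub (h2 hy), hs (h3 y hy)⟩)
    (fun y hy => ((smooth_ci (SM.Om_sub (h2 hy)) (by norm_cast)).1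
      (hf _ (h3 y hy))).congr_of_eventuallyEq (h4 y (h2 hy)))
    (hK.of_isClosed_subset isClosed_closure h1) j).2
  rw [hμ.integral_eq x₀ a (dvg_integrable hμ hF hf hc hs j).1 fun p hp =>
    dvg_zero fun h => hp (hW h), ← h5]
  refine Eq.trans ?_ (setIntegral_eq_integral_of_forall_compl_eq_zero
      (s := X.Om x₀ a) fun y hy => ?_)
  · refine setIntegral_congr_fun (X.isOpen_Om x₀ a).measurableSet fun y hy => ?_
    have h6 : LICH.X (F.pe (ci x₀) j) g y + LICH.dv (F.pc (ci x₀)) j y * g y =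
        dvg F j f (ci x₀ y) := by
      rw [dvg, dd_ci F (SM.Om_sub hy), LICH.X_congr (h4 y hy), (h4 y hy).self_of_nhds]; rfl
    simp only [h6]
    by_cases h7 : ci x₀ y ∈ tsupport f
    · rw [hO.dens_eq hy (hs h7), smul_eq_mul, mul_comm]
    · simp [dvg_zero h7]
  · have h6 : y ∉ tsupport g := fun h => hy (h2 h)
    rw [LICH.X_congr (notMem_tsupport_iff_eventuallyEq.1 h6), image_eq_zero_of_notMem_tsupport h6]
    simp [LICH.X]

/-- A finite smooth partition of unity near a compact set. -/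
lemma exists_part' {K : Set X.M} (hK : IsCompact K) (O : X.M → Set X.M) (hO : ∀ y ∈ K, O y ∈ 𝓝 y) :
    ∃ (r : ℕ) (p : Fin r → X.M) (θ : Fin r → X.M → ℝ), (∀ l, p l ∈ K ∧
      ContMDiff (𝓡 n) 𝓘(ℝ, ℝ) ∞ (θ l) ∧ HasCompactSupport (θ l) ∧ tsupport (θ l) ⊆ O (p l)) ∧
      ∀ᶠ y in 𝓝ˢ K, ∑ l, θ l y = 1 := by
  classical
  have h1 : ∀ y : K, ∃ b : SmoothBumpFunction (𝓡 n) y.1, tsupport b ⊆ O y := fun y => by
    simpa using (SmoothBumpFunction.nhds_basis_tsupport (I := 𝓡 n) y.1).mem_iff.1 (hO _ y.2)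
  choose b hb using h1
  obtain ⟨s, hs⟩ := hK.elim_nhds_subcover' (fun y hy => interior {z | b ⟨y, hy⟩ z = 1})
    fun y hy => interior_mem_nhds.2 (b ⟨y, hy⟩).eventuallyEq_one
  let q : Fin s.card → K := fun l => s.equivFin.symm l
  refine ⟨s.card, fun l => q l, fun l y => b (q l) y * ∏ k with k < l, (1 - b (q k) y),
    fun l => ⟨(q l).2, (b _).contMDiff.mul (contMDiff_finsetProd fun k _ =>
      contMDiff_const.sub (b _).contMDiff), (b _).hasCompactSupport.mul_right,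
      tsupport_mul_subset_left.trans (hb _)⟩, ?_⟩
  filter_upwards [(isOpen_biUnion fun _ _ => isOpen_interior).mem_nhdsSet.2 hs] with y hy
  obtain ⟨z, hz, h⟩ := mem_iUnion₂.1 hy
  have h2 := Finset.prod_one_sub_ordered Finset.univ fun l => b (q l) y
  rw [Finset.prod_eq_zero (Finset.mem_univ (s.equivFin ⟨z, hz⟩))] at h2
  · exact (sub_eq_zero.1 h2.symm).symm
  · have h3 : q (s.equivFin ⟨z, hz⟩) = z := by simp [q]
    rw [h3]
    exact sub_eq_zero.2 (interior_subset h).symm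

/-- A finite smooth partition of unity on a compact set. -/
lemma exists_part [SigmaCompactSpace X.M] {K : Set X.M} (hK : IsCompact K) (N : X.M → Set X.M) (hN : ∀ x ∈ K, N x ∈ 𝓝 x) :
    ∃ (s : Finset X.M) (φ : X.M → X.M → ℝ), (∀ x ∈ s, x ∈ K) ∧
      (∀ x, ContMDiff (𝓡 n) 𝓘(ℝ, ℝ) ∞ (φ x)) ∧ (∀ x ∈ s, tsupport (φ x) ⊆ N x) ∧
      (∀ x y, 0 ≤ φ x y) ∧ (∀ y, ∑ x ∈ s, φ x y ≤ 1) ∧ ∀ y ∈ K, ∑ x ∈ s, φ x y = 1 := by
  classical
  obtain ⟨s, h1, h2⟩ := hK.elim_nhds_subcover (fun x => interior (N x))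
    fun x hx => interior_mem_nhds.2 (hN x hx)
  obtain ⟨ρ, hρ⟩ := SmoothPartitionOfUnity.exists_isSubordinate (𝓡 n) hK.isClosed
    (fun x : s => interior (N x)) (fun _ => isOpen_interior) (h2.trans_eq (biUnion_eq_iUnion _ _))
  have e : ∀ y, ∑ x ∈ s, (if h : x ∈ s then (ρ ⟨x, h⟩ : X.M → ℝ) else 0) y = ∑ᶠ x, ρ x y := fun y => by
    rw [finsum_eq_sum_of_fintype, ← Finset.sum_attach]
    simp
  refine ⟨s, fun x => if h : x ∈ s then ρ ⟨x, h⟩ else 0, h1, fun x => ?_, fun x hx => ?_,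
    fun x y => ?_, fun y => (e y).trans_le (ρ.sum_le_one y), fun y hy => (e y).trans (ρ.sum_eq_one hy)⟩
  · dsimp only
    split_ifs with h
    exacts [(ρ ⟨x, h⟩).contMDiff, contMDiff_const]
  · simp only [dif_pos hx]
    exact (hρ ⟨x, hx⟩).trans interior_subset
  · dsimp only
    split_ifs with h
    exacts [ρ.nonneg _ _, le_rfl]

/-- The divergence theorem. -/
theorem ibp (hμ : X.IsVol μ) (hF : F.Sm U) (hO : ON X F U) {f : X.M → ℝ}
    (hf : ∀ x ∈ tsupport f, ContMDiffAt (𝓡 n) 𝓘(ℝ, ℝ) 1 f x) (hc : HasCompactSupport f)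
    (hs : tsupport f ⊆ U) (j : Fin n) : ∫ x, dvg F j f x ∂μ = 0 := by
  obtain ⟨r, p, φ, h1, h6⟩ := exists_part' hc (fun x => X.W x (X.fr x))
    fun x _ => (X.isOpen_W _ _).mem_nhds (X.mem_W_fr x)
  have h2 := fun l => (h1 l).2.1
  have hf' := contMDiff_of_tsupport hf
  have h7 : ∀ x, ContMDiff (𝓡 n) 𝓘(ℝ, ℝ) 1 fun y => φ x y * f y := fun x =>
    ((h2 x).of_le (by norm_cast)).mul hf'
  have h8 : ∀ x, tsupport (fun y => φ x y * f y) ⊆ tsupport f := fun x => tsupport_mul_subset_right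
  have h9 : f = fun y => ∑ x, φ x y * f y := funext fun y => by
    by_cases hy : y ∈ tsupport f
    · rw [← Finset.sum_mul, h6.self_of_nhdsSet y hy, one_mul]
    · simp [image_eq_zero_of_notMem_tsupport hy]
  have h10 : ∀ y, dvg F j f y = ∑ x, dvg F j (fun y => φ x y * f y) y := fun y => by
    simp only [dvg, Finset.sum_add_distrib, ← Finset.mul_sum]
    rw [← F.dd_sum fun x _ => (h7 x y).mdifferentiableAt one_ne_zero, ← h9, ← congrFun h9 y]
  simp only [h10]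
  rw [integral_finsetSum _ fun x _ =>
    dvg_integrable hμ hF (fun y _ => h7 x y) hc.mul_left ((h8 x).trans hs) j]
  exact Finset.sum_eq_zero fun x _ => ibp_loc hμ hF hO (fun y _ => h7 x y) hc.mul_left
    ((h8 x).trans hs) (tsupport_mul_subset_left.trans (h1 x).2.2.2) j

theorem ibp_sum (hμ : X.IsVol μ) (hF : F.Sm U) (hO : ON X F U) {f : Fin n → X.M → ℝ} {K : Set X.M}
    (hK : IsCompact K) (hU : K ⊆ U) (hs : ∀ j, tsupport (f j) ⊆ K)
    (hf : ∀ j, ∀ x ∈ K, ContMDiffAt (𝓡 n) 𝓘(ℝ, ℝ) 1 (f j) x) :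
    ∫ x, ∑ j, dvg F j (f j) x ∂μ = 0 := by
  have hc : ∀ j, HasCompactSupport (f j) := fun j => hK.of_isClosed_subset isClosed_closure (hs j)
  rw [integral_finsetSum _ fun j _ =>
    dvg_integrable hμ hF (fun x hx => hf j x (hs j hx)) (hc j) ((hs j).trans hU) j]
  exact Finset.sum_eq_zero fun j _ =>
    ibp hμ hF hO (fun x hx => hf j x (hs j hx)) (hc j) ((hs j).trans hU) j

variable {S : Type} [NormedAddCommGroup S] [InnerProductSpace ℝ S] {γ : Fin n → S →L[ℝ] S}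
  {u v : X.M → S}

lemma tsupport_inner {w v : X.M → S} : tsupport (fun y => ⟪w y, v y⟫) ⊆ tsupport v :=
  closure_mono fun y hy h => hy (by simp [h])

lemma integrable_inner (hμ : X.IsVol μ) {K : Set X.M} (hK : IsCompact K) {p q : X.M → S}
    (hp : ∀ x ∈ K, ContinuousAt p x) (hq : ∀ x ∈ K, ContinuousAt q x) (h0 : ∀ x ∉ K, q x = 0) :
    Integrable (fun x => ⟪p x, q x⟫) μ :=
  integrable_of_supp hμ hK (fun x hx => by simp [h0 x hx]) fun x hx => (hp x hx).inner (hq x hx)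

lemma smooth_inner {m : ℕ∞ω} (hm : m ≤ ∞) {x : X.M} (hu : ContMDiffAt (𝓡 n) 𝓘(ℝ, S) m u x)
    (hv : ContMDiffAt (𝓡 n) 𝓘(ℝ, S) m v x) :
    ContMDiffAt (𝓡 n) 𝓘(ℝ, ℝ) m (fun y => ⟪u y, v y⟫) x :=
  (smooth_self hm).2 (((smooth_self hm).1 hu).inner ℝ ((smooth_self hm).1 hv))

lemma nab_smooth' (hF : F.Sm U) {x : X.M} (hx : x ∈ U) {m m' : ℕ∞ω} (hm : m + 1 ≤ m') (hm' : m' ≤ ∞)
    (hu : ContMDiffAt (𝓡 n) 𝓘(ℝ, S) m' u x) (i : Fin n) :
    ContMDiffAt (𝓡 n) 𝓘(ℝ, S) m (F.nab γ i u) x :=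
  (hF.dd_smooth' hx hm hm' hu i).add (((hF.con_smooth hx γ i).of_le
    ((le_self_add.trans hm).trans hm')).clm_apply (hu.of_le (le_self_add.trans hm)))

lemma dir_smooth' (hF : F.Sm U) {x : X.M} (hx : x ∈ U) {m m' : ℕ∞ω} (hm : m + 1 ≤ m') (hm' : m' ≤ ∞)
    (hu : ContMDiffAt (𝓡 n) 𝓘(ℝ, S) m' u x) : ContMDiffAt (𝓡 n) 𝓘(ℝ, S) m (F.dir γ u) x :=
  contMDiffAt_finsetSum fun i _ => contMDiffAt_const.clm_apply (nab_smooth' hF hx hm hm' hu i)

/-- The Dirac operator is formally symmetric. -/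
theorem integral_dir (hμ : X.IsVol μ) (hF : F.Sm U) (hO : ON X F U) (hγ : Cl γ)
    (hu : ∀ x ∈ tsupport v, ContMDiffAt (𝓡 n) 𝓘(ℝ, S) 1 u x)
    (hv : ∀ x ∈ tsupport v, ContMDiffAt (𝓡 n) 𝓘(ℝ, S) 1 v x) (hc : HasCompactSupport v)
    (hs : tsupport v ⊆ U) : ∫ x, ⟪F.dir γ u x, v x⟫ ∂μ = ∫ x, ⟪u x, F.dir γ v x⟫ ∂μ := by
  have i1 := integrable_inner hμ hc (fun x hx => (dir_smooth' (γ := γ) (m := 0) hF (hs hx) (by simp)
    (by norm_cast) (hu x hx)).continuousAt) (fun x hx => (hv x hx).continuousAt)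
    fun x hx => image_eq_zero_of_notMem_tsupport hx
  have i2 := integrable_inner hμ hc (fun x hx => (hu x hx).continuousAt)
    (fun x hx => (dir_smooth' (γ := γ) (m := 0) hF (hs hx) (by simp) (by norm_cast)
      (hv x hx)).continuousAt) fun x hx => F.dir_zero (notMem_tsupport_iff_eventuallyEq.1 hx)
  rw [← sub_eq_zero, ← integral_sub i1 i2, ← ibp_sum hμ hF hO (f := fun j y => ⟪γ j (u y), v y⟫)
    hc hs (fun _ => tsupport_inner) fun j x hx =>
      smooth_inner (by norm_cast) (contMDiffAt_const.clm_apply (hu x hx)) (hv x hx)]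
  refine integral_congr_ae (Eventually.of_forall fun x => ?_)
  by_cases hx : x ∈ tsupport v
  · exact F.green_dir hγ ((hu x hx).mdifferentiableAt one_ne_zero)
      ((hv x hx).mdifferentiableAt one_ne_zero)
  · simp [image_eq_zero_of_notMem_tsupport hx, F.dir_zero (notMem_tsupport_iff_eventuallyEq.1 hx),
      dvg_zero fun h => hx (tsupport_inner h)]

/-- The integrated Lichnerowicz formula. -/
theorem integral_lich (hμ : X.IsVol μ) (hF : F.Sm U) (hO : ON X F U) (hγ : Cl γ)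
    (hu : ∀ x ∈ tsupport v, ContMDiffAt (𝓡 n) 𝓘(ℝ, S) 2 u x)
    (hv : ∀ x ∈ tsupport v, ContMDiffAt (𝓡 n) 𝓘(ℝ, S) 1 v x) (hc : HasCompactSupport v)
    (hs : tsupport v ⊆ U) : ∫ x, ⟪F.dir γ u x, F.dir γ v x⟫ ∂μ =
      ∑ i, ∫ x, ⟪F.nab γ i u x, F.nab γ i v x⟫ ∂μ + ∫ x, F.scal x / 4 * ⟪u x, v x⟫ ∂μ := by
  have hu1 := fun x hx => (hu x hx).of_le one_le_two
  have h0 := fun x (hx : x ∉ tsupport v) => notMem_tsupport_iff_eventuallyEq.1 hx
  have i1 := integrable_inner hμ hc (fun x hx => (dir_smooth' (γ := γ) (m := 0) hF (hs hx) (by simp)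
    (by norm_cast) (hu1 x hx)).continuousAt) (fun x hx => (dir_smooth' (γ := γ) (m := 0) hF (hs hx)
      (by simp) (by norm_cast) (hv x hx)).continuousAt) fun x hx => F.dir_zero (h0 x hx)
  have i2 := fun i => integrable_inner hμ hc (fun x hx => (nab_smooth' (γ := γ) (m := 0) hF (hs hx)
    (by simp) (by norm_cast) (hu1 x hx) i).continuousAt) (fun x hx => (nab_smooth' (γ := γ) (m := 0)
      hF (hs hx) (by simp) (by norm_cast) (hv x hx) i).continuousAt)
        fun x hx => F.nab_zero (h0 x hx)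
  have i3 : Integrable (fun x => F.scal x / 4 * ⟪u x, v x⟫) μ :=
    integrable_of_supp hμ hc (fun x hx => by simp [image_eq_zero_of_notMem_tsupport hx])
      fun x hx => ((hF.scal_smooth (hs hx)).continuousAt.div_const 4).mul
        ((hu x hx).continuousAt.inner (hv x hx).continuousAt)
  have h1 : ∀ j, tsupport (fun y => ⟪F.nab γ j u y, v y⟫ + ⟪γ j (F.dir γ u y), v y⟫) ⊆ tsupport v :=
    fun j => closure_mono fun y hy h => hy (by simp [h])
  have i4 : Integrable (fun x => ∑ i, ⟪F.nab γ i u x, F.nab γ i v x⟫ + F.scal x / 4 * ⟪u x, v x⟫) μ :=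
    (integrable_finsetSum _ fun i _ => i2 i).add i3
  rw [← integral_finsetSum _ fun i _ => i2 i,
    ← integral_add (integrable_finsetSum _ fun i _ => i2 i) i3, eq_comm, ← sub_eq_zero,
    ← integral_sub i4 i1, ← ibp_sum hμ hF hO hc hs h1
      fun j x hx => (smooth_inner (by norm_cast) (nab_smooth' hF (hs hx) le_rfl (by norm_cast)
        (hu x hx) j) (hv x hx)).add (smooth_inner (by norm_cast) (contMDiffAt_const.clm_apply
          (dir_smooth' hF (hs hx) le_rfl (by norm_cast) (hu x hx))) (hv x hx))]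
  refine integral_congr_ae (Eventually.of_forall fun x => ?_)
  by_cases hx : x ∈ tsupport v
  · exact hF.green_lich (hs hx) hγ (hu x hx) ((hv x hx).mdifferentiableAt one_ne_zero)
  · simp [image_eq_zero_of_notMem_tsupport hx, F.dir_zero (h0 x hx), F.nab_zero (h0 x hx),
      dvg_zero fun h => hx (h1 _ h)]

end Pool.Agent.Lib.ANA
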