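import Pool.Agent.Lib.ANA.Blue
import Pool.Agent.Lib.CX.Sec

/-! Block COC: the cocycle of the covering. -/

noncomputable section

open Set Function Filter Topology MeasureTheory

namespace Pool.Agent.Lib.ANA

open CX

theorem stCOC : St_COC := by
  intro G _ m x
  refine ⟨fun a => x.isOpen_t a, fun {a b p} ha hb => ?_, fun a b g => ⟨?_, 1, fun p => ?_⟩, ?_⟩
  · filter_upwards [(x.isOpen_co a b ((x.f p).co a b)).mem_nhds ⟨ha, hb, rfl⟩] with q hq
    exact hq.2.2
  · exact Measurable.ite (x.isOpen_co a b g).measurableSet measurable_const measurable_const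
  · unfold EE
    split_ifs <;> simp
  · obtain ⟨r, F, h⟩ := x.exists_fin
    refine ⟨r, F, fun p => ⟨(x.f p).ix, ?_, BG1.t_ix (x.f p)⟩,
      fun a ha => eq_empty_of_forall_notMem fun p hp => hp ((h p).1 a ha), fun p => (h p).2⟩
    by_contra hn
    exact BG1.t_ix (x.f p) ((h p).1 _ (not_lt.1 hn))

end Pool.Agent.Lib.ANA
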