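import Mathlib

/-! Manifold lemmas for cylinders: brackets on a product with a vector space. -/

noncomputable section

open Manifold Set Topology Filter VectorField
open scoped ContDiff

namespace Pool.Agent.Lib.ANA.CylA

section Product

variable {E F M : Type} [NormedAddCommGroup E] [NormedSpace ℝ E] [CompleteSpace E]
  [NormedAddCommGroup F] [NormedSpace ℝ F] [CompleteSpace F]
  [TopologicalSpace M] [ChartedSpace E M] [IsManifold 𝓘(ℝ, E) ∞ M]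

/-- The vector field `(V, s)` on `M × F`. -/
def up (V : ∀ y : M, TangentSpace 𝓘(ℝ, E) y) (s : F) (z : M × F) :
    TangentSpace (𝓘(ℝ, E).prod 𝓘(ℝ, F)) z := ((V z.1 : E), s)

omit [CompleteSpace E] [CompleteSpace F] in
theorem contMDiffAt_up {V : ∀ y : M, TangentSpace 𝓘(ℝ, E) y} {z : M × F} (s : F)
    (hV : ContMDiffAt 𝓘(ℝ, E) 𝓘(ℝ, E).tangent ∞
      (fun y => (⟨y, V y⟩ : TangentBundle 𝓘(ℝ, E) M)) z.1) :
    ContMDiffAt (𝓘(ℝ, E).prod 𝓘(ℝ, F)) (𝓘(ℝ, E).prod 𝓘(ℝ, F)).tangent ∞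
      (fun w => (⟨w, up V s w⟩ : TangentBundle (𝓘(ℝ, E).prod 𝓘(ℝ, F)) (M × F))) z := by
  have h1 : ContMDiff 𝓘(ℝ, F) 𝓘(ℝ, F).tangent ∞
      (fun t : F => (⟨t, s⟩ : TangentBundle 𝓘(ℝ, F) F)) :=
    contMDiff_vectorSpace_iff_contDiff.2 contDiff_const
  have h2 := (contMDiff_equivTangentBundleProd_symm (I := 𝓘(ℝ, E)) (I' := 𝓘(ℝ, F)) (M := M)
    (M' := F) (n := ∞)).contMDiffAt.comp z
    ((hV.comp z contMDiffAt_fst).prodMk (h1.contMDiffAt.comp z contMDiffAt_snd))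
  exact h2

omit [CompleteSpace E] [CompleteSpace F] in
theorem deriv_chart (y : M) (p : E × F) (hp : p.1 ∈ (extChartAt 𝓘(ℝ, E) y).target) :
    ∃ L : E ≃L[ℝ] E, (L : E →L[ℝ] E) = mfderiv 𝓘(ℝ, E) 𝓘(ℝ, E) (extChartAt 𝓘(ℝ, E) y).symm p.1 ∧
      ((ContinuousLinearEquiv.prodCongr L (ContinuousLinearEquiv.refl ℝ F) :
        (E × F) ≃L[ℝ] (E × F)) : (E × F) →L[ℝ] (E × F)) =
      mfderiv 𝓘(ℝ, E × F) (𝓘(ℝ, E).prod 𝓘(ℝ, F))
        (fun q : E × F => ((extChartAt 𝓘(ℝ, E) y).symm q.1, q.2)) p := by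
  have h0 := isInvertible_mfderivWithin_extChartAt_symm (I := 𝓘(ℝ, E)) hp
  have h1 := mdifferentiableWithinAt_extChartAt_symm (I := 𝓘(ℝ, E)) hp
  rw [ModelWithCorners.range_eq_univ, mfderivWithin_univ] at h0
  rw [ModelWithCorners.range_eq_univ, mdifferentiableWithinAt_univ] at h1
  obtain ⟨L, hL⟩ := h0
  refine ⟨L, hL, (HasMFDerivAt.mfderiv ?_).symm⟩
  have h3 := h1.hasMFDerivAt
  rw [← hL] at h3
  exact (h3.comp p (ContinuousLinearMap.fst ℝ E F).hasMFDerivAt).prodMk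
    (ContinuousLinearMap.snd ℝ E F).hasMFDerivAt

omit [CompleteSpace E] [CompleteSpace F] in
theorem pull_up (V : ∀ y : M, TangentSpace 𝓘(ℝ, E) y) (s : F) (y : M) (p : E × F)
    (hp : p.1 ∈ (extChartAt 𝓘(ℝ, E) y).target) :
    (mpullback 𝓘(ℝ, E × F) (𝓘(ℝ, E).prod 𝓘(ℝ, F))
      (fun q : E × F => ((extChartAt 𝓘(ℝ, E) y).symm q.1, q.2)) (up V s) p : E × F) =
      ((mpullback 𝓘(ℝ, E) 𝓘(ℝ, E) (extChartAt 𝓘(ℝ, E) y).symm V p.1 : E), s) := by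
  obtain ⟨L, hL, h2⟩ := deriv_chart y p hp
  rw [mpullback_apply, mpullback_apply, ← h2, ← hL]
  erw [ContinuousLinearMap.inverse_equiv, ContinuousLinearMap.inverse_equiv]
  rfl

omit [CompleteSpace E] [CompleteSpace F] in
theorem lieBracket_up {v w : E → E} {p : E × F} (s s' : F) (hv : DifferentiableAt ℝ v p.1)
    (hw : DifferentiableAt ℝ w p.1) :
    lieBracket ℝ (fun q : E × F => (v q.1, s)) (fun q : E × F => (w q.1, s')) p =
      (lieBracket ℝ v w p.1, 0) := by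
  have h : ∀ {v : E → E} (s : F), DifferentiableAt ℝ v p.1 → ∀ u : E × F,
      fderiv ℝ (fun q : E × F => (v q.1, s)) p u = (fderiv ℝ v p.1 u.1, 0) := fun {v} s hv u => by
    have h1 : HasFDerivAt (fun q : E × F => (v q.1, s)) _ p :=
      (hv.hasFDerivAt.comp p hasFDerivAt_fst).prodMk (hasFDerivAt_const s p)
    rw [h1.fderiv]
    rfl
  simp only [lieBracket, h s hv, h s' hw, Prod.mk_sub_mk, sub_zero]

/-- The bracket of `(V, s)` and `(W, s')` is `([V, W], 0)`. -/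
theorem bracket_up {V W : ∀ y : M, TangentSpace 𝓘(ℝ, E) y} {z : M × F} (s s' : F)
    (hV : ContMDiffAt 𝓘(ℝ, E) 𝓘(ℝ, E).tangent ∞
      (fun y => (⟨y, V y⟩ : TangentBundle 𝓘(ℝ, E) M)) z.1)
    (hW : ContMDiffAt 𝓘(ℝ, E) 𝓘(ℝ, E).tangent ∞
      (fun y => (⟨y, W y⟩ : TangentBundle 𝓘(ℝ, E) M)) z.1) :
    mlieBracket (𝓘(ℝ, E).prod 𝓘(ℝ, F)) (up V s) (up W s') z =
      up (mlieBracket 𝓘(ℝ, E) V W) 0 z := by
  have : IsManifold 𝓘(ℝ, E) (minSmoothness ℝ 2) M := by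
    rw [minSmoothness_of_isRCLikeNormedField]; infer_instance
  have : IsManifold (𝓘(ℝ, E).prod 𝓘(ℝ, F)) (minSmoothness ℝ 2) (M × F) := by
    rw [minSmoothness_of_isRCLikeNormedField]; infer_instance
  have hn : minSmoothness ℝ 2 ≤ (∞ : WithTop ℕ∞) := by
    rw [minSmoothness_of_isRCLikeNormedField]; exact WithTop.coe_le_coe.2 le_top
  set e := extChartAt 𝓘(ℝ, E) z.1 with he
  set g : E × F → M × F := fun q => (e.symm q.1, q.2) with hg
  set p : E × F := (e z.1, z.2) with hp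
  have h1 : e.symm p.1 = z.1 := extChartAt_to_inv z.1
  have h2 : g p = z := Prod.ext h1 rfl
  have hp1 : p.1 ∈ e.target := mem_extChartAt_target z.1
  have hs : ContMDiffAt 𝓘(ℝ, E) 𝓘(ℝ, E) ∞ e.symm p.1 :=
    (contMDiffOn_extChartAt_symm z.1).contMDiffAt (extChartAt_target_mem_nhds (I := 𝓘(ℝ, E)) z.1)
  have hgs : ContMDiffAt 𝓘(ℝ, E × F) (𝓘(ℝ, E).prod 𝓘(ℝ, F)) ∞ g p :=
    (hs.comp p (ContinuousLinearMap.fst ℝ E F).contMDiffAt).prodMk
      (ContinuousLinearMap.snd ℝ E F).contMDiffAt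
  obtain ⟨L, hL, hL2⟩ := deriv_chart z.1 p hp1
  have hV' := contMDiffAt_up s hV
  have hW' := contMDiffAt_up s' hW
  rw [← h2] at hV' hW'
  rw [← h1] at hV hW
  have k1 := mpullback_mlieBracket (hV'.mdifferentiableAt (by simp))
    (hW'.mdifferentiableAt (by simp)) hgs hn
  have k2 := mpullback_mlieBracket (hV.mdifferentiableAt (by simp))
    (hW.mdifferentiableAt (by simp)) hs hn
  have hd : ∀ {V : ∀ y : M, TangentSpace 𝓘(ℝ, E) y}, ContMDiffAt 𝓘(ℝ, E) 𝓘(ℝ, E).tangent ∞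
      (fun y => (⟨y, V y⟩ : TangentBundle 𝓘(ℝ, E) M)) (e.symm p.1) →
      DifferentiableAt ℝ (mpullback 𝓘(ℝ, E) 𝓘(ℝ, E) e.symm V : E → E) p.1 := fun hV =>
    (contMDiffAt_vectorSpace_iff_contDiffAt.1 (hV.mpullback_vectorField_preimage (m := ∞) hs
      ⟨L, hL⟩ le_rfl)).differentiableAt (by simp)
  have hev : ∀ (V : ∀ y : M, TangentSpace 𝓘(ℝ, E) y) (s : F),
      mpullback 𝓘(ℝ, E × F) (𝓘(ℝ, E).prod 𝓘(ℝ, F)) g (up V s) =ᶠ[𝓝 p]
        fun q : E × F => ((mpullback 𝓘(ℝ, E) 𝓘(ℝ, E) e.symm V q.1 : E), s) := fun V s => by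
    filter_upwards [continuous_fst.continuousAt.preimage_mem_nhds
      (extChartAt_target_mem_nhds (I := 𝓘(ℝ, E)) z.1)] with q hq
    exact pull_up V s z.1 q hq
  rw [(hev V s).mlieBracket_vectorField_eq (hev W s')] at k1
  rw [← mlieBracketWithin_univ (I := 𝓘(ℝ, E × F)), mlieBracketWithin_eq_lieBracketWithin,
    lieBracketWithin_univ] at k1
  rw [← mlieBracketWithin_univ (V := mpullback _ _ _ _), mlieBracketWithin_eq_lieBracketWithin,
    lieBracketWithin_univ] at k2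
  have k3 := lieBracket_up s s' (hd hV) (hd hW)
  have k4 := pull_up (mlieBracket 𝓘(ℝ, E) V W) 0 z.1 p hp1
  have k5 : mpullback 𝓘(ℝ, E × F) (𝓘(ℝ, E).prod 𝓘(ℝ, F)) g
      (mlieBracket (𝓘(ℝ, E).prod 𝓘(ℝ, F)) (up V s) (up W s')) p =
      mpullback 𝓘(ℝ, E × F) (𝓘(ℝ, E).prod 𝓘(ℝ, F)) g (up (mlieBracket 𝓘(ℝ, E) V W) 0) p :=
    (k1.trans k3).trans ((congrArg (fun v : E => (v, (0 : F))) k2).symm.trans k4.symm)
  rw [mpullback_apply, mpullback_apply, ← hL2] at k5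
  erw [ContinuousLinearMap.inverse_equiv] at k5
  rw [← h2]
  exact (ContinuousLinearEquiv.injective _) k5
omit [CompleteSpace E] [CompleteSpace F] [IsManifold 𝓘(ℝ, E) ∞ M] in
/-- The derivative of a function of the first factor (no differentiability assumed). -/
theorem mfderiv_comp_fst {S : Type} [NormedAddCommGroup S] [NormedSpace ℝ S] (g : M → S)
    (z : M × F) (v : E) (s : F) :
    (mfderiv (𝓘(ℝ, E).prod 𝓘(ℝ, F)) 𝓘(ℝ, S) (fun w : M × F => g w.1) z (v, s) : S) =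
      mfderiv 𝓘(ℝ, E) 𝓘(ℝ, S) g z.1 v := by
  by_cases h : MDifferentiableAt 𝓘(ℝ, E) 𝓘(ℝ, S) g z.1
  · have h1 := (h.hasMFDerivAt.comp z (hasMFDerivAt_fst (I := 𝓘(ℝ, E)) (I' := 𝓘(ℝ, F)) z)).mfderiv
    exact congrArg (fun L : (E × F) →L[ℝ] S => L (v, s)) h1
  · have h1 : ¬ MDifferentiableAt (𝓘(ℝ, E).prod 𝓘(ℝ, F)) 𝓘(ℝ, S) (fun w : M × F => g w.1) z :=
      fun h1 => h (MDifferentiableAt.comp (f := fun y : M => (y, z.2)) z.1 h1
        (mdifferentiableAt_id.prodMk mdifferentiableAt_const))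
    rw [mfderiv_zero_of_not_mdifferentiableAt h, mfderiv_zero_of_not_mdifferentiableAt h1]
    rfl

omit [CompleteSpace E] [CompleteSpace F] [IsManifold 𝓘(ℝ, E) ∞ M] in
/-- The derivative of a function of the second factor. -/
theorem mfderiv_comp_snd {S : Type} [NormedAddCommGroup S] [NormedSpace ℝ S] {g : F → S}
    (z : M × F) (h : DifferentiableAt ℝ g z.2) (v : E) (s : F) :
    (mfderiv (𝓘(ℝ, E).prod 𝓘(ℝ, F)) 𝓘(ℝ, S) (fun w : M × F => g w.2) z (v, s) : S) =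
      fderiv ℝ g z.2 s := by
  have h1 := (h.hasFDerivAt.hasMFDerivAt.comp z
    (hasMFDerivAt_snd (I := 𝓘(ℝ, E)) (I' := 𝓘(ℝ, F)) z)).mfderiv
  exact congrArg (fun L : (E × F) →L[ℝ] S => L (v, s)) h1

end Product

end Pool.Agent.Lib.ANA.CylA
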