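import Mathlib

/-! Transport of functions along an injective local diffeomorphism. -/

noncomputable section

open Manifold Set Topology Filter
open scoped ContDiff

namespace Pool.Agent.Lib.ANA.CylB

open Classical in
/-- The function `u ∘ j⁻¹` on `j '' O`, extended by `c₀`. -/
def pull {Z M S : Type} (j : Z → M) (O : Set Z) (u : Z → S) (c₀ : S) (p : M) : S :=
  if h : p ∈ j '' O then u h.choose else c₀

theorem pull_j {Z M S : Type} {j : Z → M} {O : Set Z} (inj : InjOn j O) (u : Z → S) (c₀ : S)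
    {z : Z} (hz : z ∈ O) : pull j O u c₀ (j z) = u z := by
  have h : j z ∈ j '' O := ⟨z, hz, rfl⟩
  rw [pull, dif_pos h, inj h.choose_spec.1 hz h.choose_spec.2]

theorem pull_off {Z M S : Type} {j : Z → M} {O : Set Z} (u : Z → S) (c₀ : S) {p : M}
    (hp : p ∉ j '' O) : pull j O u c₀ p = c₀ := dif_neg hp

variable {E H Z E' H' M : Type} [NormedAddCommGroup E] [NormedSpace ℝ E]
  [TopologicalSpace H] {I : ModelWithCorners ℝ E H} [TopologicalSpace Z]
  [ChartedSpace H Z] [NormedAddCommGroup E'] [NormedSpace ℝ E'] [TopologicalSpace H']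
  {J : ModelWithCorners ℝ E' H'} [TopologicalSpace M] [ChartedSpace H' M]
  {j : Z → M} {O : Set Z}

theorem ev_inv {z : Z} (h : IsLocalDiffeomorphAt I J ∞ j z) {W : Set Z} (hW : W ∈ 𝓝 z) :
    ∀ᶠ p in 𝓝 (j z), h.localInverse p ∈ W ∧ j (h.localInverse p) = p := by
  have h1 : h.localInverse (j z) = z := h.localInverse_left_inv h.localInverse_mem_target
  have h2 := h.localInverse_contMDiffAt.continuousAt
  rw [ContinuousAt, h1] at h2
  filter_upwards [h2 hW, h.localInverse_eventuallyEq_right] with p hp hp'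
  exact ⟨hp, hp'⟩

theorem image_mem_nhds {z : Z} (h : IsLocalDiffeomorphAt I J ∞ j z) {W : Set Z} (hW : W ∈ 𝓝 z) :
    j '' W ∈ 𝓝 (j z) := by
  filter_upwards [ev_inv h hW] with p hp
  exact ⟨_, hp.1, hp.2⟩

theorem isOpen_image (hj : IsLocalDiffeomorphOn I J ∞ j O) {W : Set Z} (hW : IsOpen W)
    (hWO : W ⊆ O) : IsOpen (j '' W) := by
  rw [isOpen_iff_mem_nhds]
  rintro _ ⟨z, hz, rfl⟩
  exact image_mem_nhds (hj ⟨z, hWO hz⟩) (hW.mem_nhds hz)

theorem pull_ev {S : Type} (hO : IsOpen O) (inj : InjOn j O) {z : Z} (hz : z ∈ O)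
    (h : IsLocalDiffeomorphAt I J ∞ j z) (u : Z → S) (c₀ : S) :
    pull j O u c₀ =ᶠ[𝓝 (j z)] u ∘ h.localInverse := by
  filter_upwards [ev_inv h (hO.mem_nhds hz)] with p hp
  rw [← hp.2, pull_j inj u c₀ hp.1, hp.2]
  rfl

theorem contMDiffAt_of_comp {E'' H'' S : Type} [NormedAddCommGroup E''] [NormedSpace ℝ E'']
    [TopologicalSpace H''] {K : ModelWithCorners ℝ E'' H''} [TopologicalSpace S]
    [ChartedSpace H'' S] {z : Z} (h : IsLocalDiffeomorphAt I J ∞ j z) {φ : M → S}
    (hφ : ContMDiffAt I K ∞ (φ ∘ j) z) : ContMDiffAt J K ∞ φ (j z) := by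
  have h1 : h.localInverse (j z) = z := h.localInverse_left_inv h.localInverse_mem_target
  have h2 : ContMDiffAt J K ∞ ((φ ∘ j) ∘ h.localInverse) (j z) :=
    ContMDiffAt.comp (j z) (by rw [h1]; exact hφ) h.localInverse_contMDiffAt
  refine h2.congr_of_eventuallyEq ?_
  filter_upwards [h.localInverse_eventuallyEq_right] with p hp
  exact (congrArg φ hp).symm

omit [TopologicalSpace M] in
theorem pull_comp_ev {S : Type} (hO : IsOpen O) (inj : InjOn j O) {z : Z} (hz : z ∈ O)
    (u : Z → S) (c₀ : S) : pull j O u c₀ ∘ j =ᶠ[𝓝 z] u := by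
  filter_upwards [hO.mem_nhds hz] with w hw
  exact pull_j inj u c₀ hw

theorem contMDiffAt_pull {E'' H'' S : Type} [NormedAddCommGroup E''] [NormedSpace ℝ E'']
    [TopologicalSpace H''] {K : ModelWithCorners ℝ E'' H''} [TopologicalSpace S]
    [ChartedSpace H'' S] (hO : IsOpen O) (inj : InjOn j O) {z : Z} (hz : z ∈ O)
    (h : IsLocalDiffeomorphAt I J ∞ j z) {u : Z → S} (hu : ContMDiffAt I K ∞ u z) (c₀ : S) :
    ContMDiffAt J K ∞ (pull j O u c₀) (j z) :=
  contMDiffAt_of_comp h (hu.congr_of_eventuallyEq (pull_comp_ev hO inj hz u c₀))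

/-- The chain rule along a local diffeomorphism (no differentiability assumed). -/
theorem mfderiv_comp_j {S : Type} [NormedAddCommGroup S] [NormedSpace ℝ S] {z : Z}
    (h : IsLocalDiffeomorphAt I J ∞ j z) (φ : M → S) (v : E) :
    (mfderiv I 𝓘(ℝ, S) (φ ∘ j) z v : S) = mfderiv J 𝓘(ℝ, S) φ (j z) (mfderiv I J j z v) := by
  by_cases h0 : MDifferentiableAt J 𝓘(ℝ, S) φ (j z)
  · rw [mfderiv_comp z h0 (h.mdifferentiableAt (by simp))]
    rfl
  · have h1 : h.localInverse (j z) = z := h.localInverse_left_inv h.localInverse_mem_target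
    have h2 : ¬ MDifferentiableAt I 𝓘(ℝ, S) (φ ∘ j) z := fun h2 => h0 (by
      have h3 : MDifferentiableAt J 𝓘(ℝ, S) ((φ ∘ j) ∘ h.localInverse) (j z) :=
        MDifferentiableAt.comp (j z) (by rw [h1]; exact h2)
          (h.localInverse_mdifferentiableAt (by simp))
      refine h3.congr_of_eventuallyEq ?_
      filter_upwards [h.localInverse_eventuallyEq_right] with p hp
      exact (congrArg φ hp).symm)
    rw [mfderiv_zero_of_not_mdifferentiableAt h0, mfderiv_zero_of_not_mdifferentiableAt h2]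
    rfl

/-- The push forward of a smooth vector field is smooth. -/
theorem contMDiffAt_push [IsManifold I ∞ Z] [IsManifold J ∞ M] (hO : IsOpen O)
    (hj : IsLocalDiffeomorphOn I J ∞ j O) {z : Z} (hz : z ∈ O) {V : ∀ w : Z, TangentSpace I w}
    (hV : ContMDiffAt I I.tangent ∞ (fun w => (⟨w, V w⟩ : TangentBundle I Z)) z)
    {W : ∀ p : M, TangentSpace J p} (hW : ∀ w ∈ O, W (j w) = mfderiv I J j w (V w)) :
    ContMDiffAt J J.tangent ∞ (fun p => (⟨p, W p⟩ : TangentBundle J M)) (j z) := by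
  refine contMDiffAt_of_comp (hj ⟨z, hz⟩) ?_
  have h1 := hj.contMDiffOn.contMDiffOn_tangentMapWithin (m := ∞) le_rfl hO.uniqueMDiffOn
  have h2 : (Bundle.TotalSpace.proj : TangentBundle I Z → Z) ⁻¹' O ∈
      𝓝 (⟨z, V z⟩ : TangentBundle I Z) :=
    (hO.preimage (FiberBundle.continuous_proj E (TangentSpace I))).mem_nhds hz
  refine ((h1.contMDiffAt h2).comp z hV).congr_of_eventuallyEq ?_
  filter_upwards [hO.mem_nhds hz] with w hw
  simp only [Function.comp, tangentMapWithin, hW w hw]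
  rw [mfderivWithin_of_isOpen hO hw]

end Pool.Agent.Lib.ANA.CylB
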