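import Pool.Agent.Lib.CX.Defs
import Pool.Agent.Lib.ANA.CylA
import Pool.Agent.Lib.ANA.CylB

/-! The product frames on the cylinder of a singular manifold. -/

noncomputable section

open Manifold Set Topology Filter VectorField CliffordAlgebra
open scoped ContDiff

namespace Pool.Agent.Lib.ANA.Cyl

open CX CylA CylB

/-! ### Linear algebra -/

theorem il_eq {m : ℕ} (i : Fin m) : il (p := m) (q := 1) rfl i = i.castSucc := rfl

theorem ir_eq {m : ℕ} (i : Fin 1) : ir (p := m) (q := 1) rfl i = Fin.last m := by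
  rw [Subsingleton.elim i 0]; rfl

theorem inc_apply {p n : ℕ} (f : Fin p ↪ Fin n) (v : Eu p) (k : Fin n) :
    inc f v k = ∑ i, if k = f i then v i else 0 := by
  change (∑ i, v i • bv (f i)) k = _
  simp [bv, Finset.sum_apply, Pi.single_apply]

/-- The identification `ℝ^m × ℝ = ℝ^(m+1)`. -/
def sn (m : ℕ) : (Eu m × Eu 1) ≃L[ℝ] Eu (m + 1) :=
  LinearEquiv.toContinuousLinearEquiv
    { toFun := fun v => WithLp.toLp 2 (Fin.snoc (α := fun _ => ℝ) v.1.ofLp (v.2 0))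
      invFun := fun w => (WithLp.toLp 2 fun i => w i.castSucc, WithLp.toLp 2 fun _ => w (Fin.last m))
      map_add' := fun u v => by
        ext i
        refine Fin.lastCases ?_ (fun i => ?_) i <;> simp
      map_smul' := fun r v => by
        ext i
        refine Fin.lastCases ?_ (fun i => ?_) i <;> simp
      left_inv := fun v => by
        ext i
        · simp
        · simp [Subsingleton.elim i 0]
      right_inv := fun w => by
        ext i
        refine Fin.lastCases ?_ (fun i => ?_) i <;> simp }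

variable {m : ℕ}

@[simp] theorem sn_cast (v : Eu m × Eu 1) (i : Fin m) : sn m v i.castSucc = v.1 i := by
  simp [sn]

@[simp] theorem sn_last (v : Eu m × Eu 1) : sn m v (Fin.last m) = v.2 0 := by
  simp [sn]

theorem sn_eq (v : Eu m × Eu 1) :
    sn m v = inc (il (p := m) (q := 1) rfl) v.1 + inc (ir (p := m) (q := 1) rfl) v.2 := by
  ext i
  refine Fin.lastCases ?_ (fun i => ?_) i
  · simp [inc_apply, il_eq, ir_eq, (Fin.castSucc_lt_last _).ne']
  · simp [inc_apply, il_eq, ir_eq, (Fin.castSucc_lt_last _).ne]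

theorem sn_symm_cast (i : Fin m) : (sn m).symm (bv i.castSucc) = (bv i, 0) := by
  rw [ContinuousLinearEquiv.symm_apply_eq]
  ext k
  refine Fin.lastCases ?_ (fun k => ?_) k
  · simp [bv, (Fin.castSucc_lt_last _).ne']
  · simp [bv]

theorem sn_symm_last : (sn m).symm (bv (Fin.last m)) = (0, bv 0) := by
  rw [ContinuousLinearEquiv.symm_apply_eq]
  ext k
  refine Fin.lastCases ?_ (fun k => ?_) k
  · simp [bv]
  · simp [bv, (Fin.castSucc_lt_last _).ne]

theorem covers_trans {n : ℕ} {s t : Cl n} {A B C : Eu n → Eu n} (hs : Covers s id A)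
    (ht : Covers t id B) (h : ∀ v, A (C v) = B v) : Covers (star s * t) id C := by
  refine ⟨mul_mem (spinGroup.star_mem hs.1) ht.1, fun v => ?_⟩
  have h1 := hs.2 (C v)
  have h2 := ht.2 v
  simp only [id, h] at h1 h2 ⊢
  have h3 : ι (Qn n) (C v) * star s = star s * ι (Qn n) (B v) := by
    calc ι (Qn n) (C v) * star s = star s * (s * ι (Qn n) (C v)) * star s := by
          rw [← mul_assoc, spinGroup.star_mul_self_of_mem hs.1, one_mul]
      _ = star s * ι (Qn n) (B v) := by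
          rw [← h1, mul_assoc, mul_assoc, spinGroup.mul_star_self_of_mem hs.1, mul_one]
  rw [← mul_assoc, h3, mul_assoc, h2, mul_assoc]

theorem s_self {n : ℕ} (X : SM n) {a : ℕ} {p : X.M} (hp : p ∈ X.U a) : X.s a a p = 1 := by
  have h := X.cocycle a a a p ⟨⟨hp, hp⟩, hp⟩
  have h1 := spinGroup.star_mul_self_of_mem (X.spin a a p ⟨hp, hp⟩).1
  calc X.s a a p = star (X.s a a p) * (X.s a a p * X.s a a p) := by rw [← mul_assoc, h1, one_mul]
    _ = 1 := by rw [h, h1]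

/-- The involution of the Clifford algebra as a linear map. -/
def starL (n : ℕ) : Cl n →ₗ[ℝ] Cl n := reverse ∘ₗ involute.toLinearMap

theorem starL_apply {n : ℕ} (s : Cl n) : starL n s = star s := rfl

/-! ### The product frames -/

variable {G : Type} [Group G] (x : Sing G m)

/-- The open half cylinder. -/
def O : Set (x.N.M × Eu 1) := {z | 0 < z.2 0}

theorem isOpen_O : IsOpen (O x) := isOpen_lt continuous_const (by fun_prop)

theorem loc {z : x.N.M × Eu 1} (hz : z ∈ O x) :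
    IsLocalDiffeomorphAt ((𝓡 m).prod (𝓡 1)) (𝓡 (m + 1)) ∞ x.j z := x.prod.1 ⟨z, hz⟩

theorem inj : InjOn x.j (O x) := x.prod.2.1

/-- The lift of the derivative of the cylinder map. -/
def T (c b : ℕ) (z : x.N.M × Eu 1) : Cl (m + 1) := x.prod.2.2.choose (b, 0, c) z

open Classical in
/-- The product frame along the cylinder map. -/
def Fz (b : ℕ) (z : x.N.M × Eu 1) : Eu (m + 1) ≃L[ℝ] Eu (m + 1) :=
  if h : z ∈ O x then
    ((sn m).symm.trans (ContinuousLinearEquiv.prodCongr (x.N.F b z.1 : Eu m ≃L[ℝ] Eu m)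
      (ContinuousLinearEquiv.refl ℝ (Eu 1)))).trans
      ((loc x h).mfderivToContinuousLinearEquiv (by simp))
  else ContinuousLinearEquiv.refl ℝ _

theorem Fz_apply (b : ℕ) {z : x.N.M × Eu 1} (hz : z ∈ O x) (v : Eu (m + 1)) :
    Fz x b z v = mfderiv ((𝓡 m).prod (𝓡 1)) (𝓡 (m + 1)) x.j z
      (up (fun y => x.N.F b y ((sn m).symm v).1) ((sn m).symm v).2 z) := by
  rw [Fz, dif_pos hz]; rfl

theorem T_smc (c b : ℕ) : SmC ((𝓡 m).prod (𝓡 1)) (T x c b)
    {z ∈ O x | z.1 ∈ x.N.U b ∧ x.j z ∈ x.X.U c} := fun l =>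
  (x.prod.2.2.choose_spec.1 (b, 0, c) l).mono fun _ hz => ⟨hz.1, hz.2.1, trivial, hz.2.2⟩

theorem T_covers {c b : ℕ} {z : x.N.M × Eu 1} (hz : z ∈ O x) (hb : z.1 ∈ x.N.U b)
    (hc : x.j z ∈ x.X.U c) :
    Covers (T x c b z) id fun v => (x.X.F c (x.j z)).symm (Fz x b z v) := by
  have h := x.prod.2.2.choose_spec.2.1 (b, 0, c) z ⟨hz, hb, trivial, hc⟩
  refine ⟨h.1, fun v => ?_⟩
  have h1 := h.2 ((sn m).symm v)
  simp only [← sn_eq, ContinuousLinearEquiv.apply_symm_apply] at h1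
  exact (congrArg (fun w : Eu (m + 1) => ι (Qn (m + 1)) ((x.X.F c (x.j z)).symm w) * T x c b z)
    (Fz_apply x b hz v)).trans h1

theorem T_compat {c c' b b' : ℕ} {z : x.N.M × Eu 1} (hz : z ∈ O x) (hb : z.1 ∈ x.N.U b)
    (hb' : z.1 ∈ x.N.U b') (hc : x.j z ∈ x.X.U c) (hc' : x.j z ∈ x.X.U c') :
    x.X.s c c' (x.j z) * T x c' b' z =
      T x c b z * CliffordAlgebra.map (inc (il (p := m) (q := 1) rfl)) (x.N.s b b' z.1) := by
  have h := x.prod.2.2.choose_spec.2.2 (b, 0, c) (b', 0, c') z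
    ⟨⟨hz, hb, trivial, hc⟩, ⟨hz, hb', trivial, hc'⟩⟩
  simp only [map_one, mul_one] at h
  exact h

/-- The domains of the frames. -/
def eU (a : ℕ) : Set x.X.M :=
  if a % 2 = 0 then x.X.U (a / 2) else x.j '' {z ∈ O x | z.1 ∈ x.N.U (a / 2)}

/-- The frames. -/
def eF (a : ℕ) (p : x.X.M) : Eu (m + 1) ≃L[ℝ] TangentSpace (𝓡 (m + 1)) p :=
  if a % 2 = 0 then x.X.F (a / 2) p
  else pull x.j (O x) (Fz x (a / 2)) (ContinuousLinearEquiv.refl ℝ _) p

/-- The cocycle. -/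
def es (a b : ℕ) : x.X.M → Cl (m + 1) :=
  if a % 2 = 0 then
    if b % 2 = 0 then x.X.s (a / 2) (b / 2) else pull x.j (O x) (T x (a / 2) (b / 2)) 1
  else
    if b % 2 = 0 then pull x.j (O x) (fun z => star (T x (b / 2) (a / 2) z)) 1
    else pull x.j (O x) (fun z => CliffordAlgebra.map (inc (il (p := m) (q := 1) rfl))
      (x.N.s (a / 2) (b / 2) z.1)) 1

theorem eU_even (a : ℕ) : eU x (2 * a) = x.X.U a := by simp [eU]

theorem eU_odd (b : ℕ) : eU x (2 * b + 1) = x.j '' {z ∈ O x | z.1 ∈ x.N.U b} := by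
  have : (2 * b + 1) / 2 = b := by omega
  simp [eU, this]

theorem eF_even (a : ℕ) : eF x (2 * a) = x.X.F a := by funext p; simp [eF]

theorem eF_odd (b : ℕ) {z : x.N.M × Eu 1} (hz : z ∈ O x) : eF x (2 * b + 1) (x.j z) = Fz x b z := by
  have : (2 * b + 1) / 2 = b := by omega
  rw [eF, if_neg (by omega), this]
  exact pull_j (inj x) _ _ hz

theorem es_ee (a b : ℕ) : es x (2 * a) (2 * b) = x.X.s a b := by simp [es]

theorem es_eo (a b : ℕ) : es x (2 * a) (2 * b + 1) = pull x.j (O x) (T x a b) 1 := by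
  have : (2 * b + 1) / 2 = b := by omega
  simp [es, this]

theorem es_oe (a b : ℕ) :
    es x (2 * a + 1) (2 * b) = pull x.j (O x) (fun z => star (T x b a z)) 1 := by
  have : (2 * a + 1) / 2 = a := by omega
  simp [es, this]

theorem es_oo (a b : ℕ) : es x (2 * a + 1) (2 * b + 1) = pull x.j (O x) (fun z =>
    CliffordAlgebra.map (inc (il (p := m) (q := 1) rfl)) (x.N.s a b z.1)) 1 := by
  have h1 : (2 * a + 1) / 2 = a := by omega
  have h2 : (2 * b + 1) / 2 = b := by omega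
  simp [es, h1, h2]

theorem mem_even {a : ℕ} {p : x.X.M} (hp : p ∈ x.X.U a) : p ∈ eU x (2 * a) :=
  (eU_even x a).symm ▸ hp

theorem mem_odd {b : ℕ} {z : x.N.M × Eu 1} (hz : z ∈ O x) (hb : z.1 ∈ x.N.U b) :
    x.j z ∈ eU x (2 * b + 1) := (eU_odd x b).symm ▸ ⟨z, ⟨hz, hb⟩, rfl⟩

theorem isOpen_dom (b : ℕ) : IsOpen {z ∈ O x | z.1 ∈ x.N.U b} :=
  (isOpen_O x).inter ((x.N.isOpen b).preimage continuous_fst)

theorem isOpen_eU (a : ℕ) : IsOpen (eU x a) := by
  obtain ⟨a, rfl | rfl⟩ := Nat.even_or_odd' a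
  · rw [eU_even]; exact x.X.isOpen a
  · rw [eU_odd]; exact isOpen_image x.prod.1 (isOpen_dom x a) fun _ h => h.1

theorem es_covers {c a : ℕ} {p : x.X.M} (hc : p ∈ x.X.U c) (ha : p ∈ eU x a) :
    Covers (es x (2 * c) a p) id fun v => (x.X.F c p).symm (eF x a p v) := by
  obtain ⟨a, rfl | rfl⟩ := Nat.even_or_odd' a
  · rw [eU_even] at ha
    rw [es_ee, eF_even]
    exact x.X.spin c a p ⟨hc, ha⟩
  · rw [eU_odd] at ha
    obtain ⟨z, hz, rfl⟩ := ha
    rw [es_eo, pull_j (inj x) _ _ hz.1, eF_odd x a hz.1]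
    exact T_covers x hz.1 hz.2 hc

theorem es_fac {c a b : ℕ} {p : x.X.M} (hc : p ∈ x.X.U c) (ha : p ∈ eU x a) (hb : p ∈ eU x b) :
    es x a b p = star (es x (2 * c) a p) * es x (2 * c) b p := by
  have h0 := spinGroup.star_mul_self_of_mem (es_covers x hc ha).1
  suffices h : es x (2 * c) a p * es x a b p = es x (2 * c) b p by
    rw [← h, ← mul_assoc, h0, one_mul]
  have h1 := spinGroup.mul_star_self_of_mem (es_covers x hc ha).1
  obtain ⟨a, rfl | rfl⟩ := Nat.even_or_odd' a <;> obtain ⟨b, rfl | rfl⟩ := Nat.even_or_odd' b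
  · rw [eU_even] at ha hb
    rw [es_ee, es_ee, es_ee]
    exact x.X.cocycle c a b p ⟨⟨hc, ha⟩, hb⟩
  · rw [eU_even] at ha
    rw [eU_odd] at hb
    obtain ⟨z, hz, rfl⟩ := hb
    rw [es_ee, es_eo, es_eo, pull_j (inj x) _ _ hz.1, pull_j (inj x) _ _ hz.1,
      T_compat x hz.1 hz.2 hz.2 hc ha, s_self _ hz.2, map_one, mul_one]
  · rw [eU_even] at hb
    rw [eU_odd] at ha
    obtain ⟨z, hz, rfl⟩ := ha
    have h2 := T_compat x hz.1 hz.2 hz.2 hc hb
    rw [s_self _ hz.2, map_one, mul_one] at h2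
    rw [es_ee, es_eo, es_oe, pull_j (inj x) _ _ hz.1, pull_j (inj x) _ _ hz.1, ← h2, mul_assoc,
      spinGroup.mul_star_self_of_mem (T_covers x hz.1 hz.2 hb).1, mul_one]
  · rw [eU_odd] at ha hb
    obtain ⟨z, hz, rfl⟩ := ha
    obtain ⟨w, hw, hwz⟩ := hb
    obtain rfl : w = z := inj x hw.1 hz.1 hwz
    rw [es_eo, es_eo, es_oo, pull_j (inj x) _ _ hz.1, pull_j (inj x) _ _ hz.1,
      pull_j (inj x) _ _ hz.1, ← T_compat x hz.1 hz.2 hw.2 hc hc, s_self _ hc, one_mul]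

theorem es_smc (a b : ℕ) : SmC (𝓡 (m + 1)) (es x a b) (eU x a ∩ eU x b) := by
  have key : ∀ (c b : ℕ) (l : Cl (m + 1) →ₗ[ℝ] ℝ) {z : x.N.M × Eu 1}, z ∈ O x → z.1 ∈ x.N.U b →
      x.j z ∈ x.X.U c → ContMDiffAt ((𝓡 m).prod (𝓡 1)) 𝓘(ℝ, ℝ) ∞ (fun w => l (T x c b w)) z :=
    fun c b l z hz hb hc => (T_smc x c b l).contMDiffAt (by
      filter_upwards [(isOpen_dom x b).mem_nhds ⟨hz, hb⟩,
        (loc x hz).contMDiffAt.continuousAt ((x.X.isOpen c).mem_nhds hc)] with w h1 h2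
      exact ⟨h1.1, h1.2, h2⟩)
  have fin : ∀ (u : x.N.M × Eu 1 → Cl (m + 1)) (l : Cl (m + 1) →ₗ[ℝ] ℝ) {z : x.N.M × Eu 1},
      z ∈ O x → ContMDiffAt ((𝓡 m).prod (𝓡 1)) 𝓘(ℝ, ℝ) ∞ (fun w => l (u w)) z →
      ContMDiffAt (𝓡 (m + 1)) 𝓘(ℝ, ℝ) ∞ (fun p => l (pull x.j (O x) u 1 p)) (x.j z) :=
    fun u l z hz hu => contMDiffAt_of_comp (loc x hz) (hu.congr_of_eventuallyEq
      ((pull_comp_ev (isOpen_O x) (inj x) hz u 1).fun_comp l))
  obtain ⟨a, rfl | rfl⟩ := Nat.even_or_odd' a <;> obtain ⟨b, rfl | rfl⟩ := Nat.even_or_odd' b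
  · rw [eU_even, eU_even, es_ee]
    exact x.X.smc a b
  · rw [eU_even, eU_odd, es_eo]
    rintro l _ ⟨ha, z, hz, rfl⟩
    exact (fin _ l hz.1 (key a b l hz.1 hz.2 ha)).contMDiffWithinAt
  · rw [eU_even, eU_odd, es_oe]
    rintro l _ ⟨⟨z, hz, rfl⟩, hb⟩
    exact (fin _ l hz.1 (key b a (l ∘ₗ starL _) hz.1 hz.2 hb)).contMDiffWithinAt
  · rw [eU_odd, eU_odd, es_oo]
    rintro l _ ⟨⟨z, hz, rfl⟩, w, hw, hwz⟩
    obtain rfl : w = z := inj x hw.1 hz.1 hwz
    refine (fin _ l hz.1 ?_).contMDiffWithinAt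
    exact ((x.N.smc a b (l ∘ₗ (CliffordAlgebra.map
      (inc (il (p := m) (q := 1) rfl))).toLinearMap)).contMDiffAt
      (((x.N.isOpen a).inter (x.N.isOpen b)).mem_nhds ⟨hz.2, hw.2⟩)).comp w contMDiffAt_fst

theorem eF_smooth (a : ℕ) (v : Eu (m + 1)) : ContMDiffOn (𝓡 (m + 1)) (𝓡 (m + 1)).tangent ∞
    (fun p => (⟨p, eF x a p v⟩ : TangentBundle (𝓡 (m + 1)) x.X.M)) (eU x a) := by
  obtain ⟨a, rfl | rfl⟩ := Nat.even_or_odd' a
  · rw [eU_even, eF_even]
    exact x.X.smooth a v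
  · rw [eU_odd]
    rintro _ ⟨z, hz, rfl⟩
    refine (contMDiffAt_push (isOpen_O x) x.prod.1 hz.1 (contMDiffAt_up ((sn m).symm v).2
      ((x.N.smooth a ((sn m).symm v).1).contMDiffAt ((x.N.isOpen a).mem_nhds hz.2)))
      fun w hw => ?_).contMDiffWithinAt
    rw [eF_odd x a hw]
    exact Fz_apply x a hw v

/-- The same spin manifold with the product frames of the cylinder added: the frame `2 a` is the
frame `a` of `X`, the frame `2 b + 1` is the product frame built from the frame `b` of `N`. -/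
abbrev ext : SM (m + 1) where
  M := x.X.M
  U := eU x
  F := eF x
  s := es x
  isOpen := isOpen_eU x
  cover p := (x.X.cover p).imp' (2 * ·) fun a ha => (eU_even x a).symm ▸ ha
  smooth := eF_smooth x
  spin a b p hp := by
    obtain ⟨c, hc⟩ := x.X.cover p
    rw [es_fac x hc hp.1 hp.2]
    refine covers_trans (es_covers x hc hp.1) (es_covers x hc hp.2) fun v => ?_
    rw [ContinuousLinearEquiv.apply_symm_apply]
  smc := es_smc x
  cocycle a b c p hp := by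
    obtain ⟨d, hd⟩ := x.X.cover p
    rw [es_fac x hd hp.1.1 hp.1.2, es_fac x hd hp.1.2 hp.2, es_fac x hd hp.1.1 hp.2, mul_assoc,
      ← mul_assoc (es x (2 * d) b p), spinGroup.mul_star_self_of_mem (es_covers x hd hp.1.2).1,
      one_mul]

/-! ### The even frames -/

theorem e_even (a : ℕ) : (ext x).e (2 * a) = x.X.e a := by
  funext i p
  exact congrArg (fun F : ∀ p : x.X.M, Eu (m + 1) ≃L[ℝ] TangentSpace (𝓡 (m + 1)) p => F p (bv i))
    (eF_even x a)

theorem dd_even {S : Type} [NormedAddCommGroup S] [NormedSpace ℝ S] (a : ℕ) :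
    (ext x).dd (S := S) (2 * a) = x.X.dd a := by
  funext i φ p
  unfold SM.dd
  rw [e_even]

theorem cc_even (a : ℕ) : (ext x).cc (2 * a) = x.X.cc a := by
  funext i j k p
  unfold SM.cc
  rw [e_even]
  exact congrArg (fun F : ∀ p : x.X.M, Eu (m + 1) ≃L[ℝ] TangentSpace (𝓡 (m + 1)) p =>
    (F p).symm _ k) (eF_even x a)

theorem ga_even (a : ℕ) : (ext x).ga (2 * a) = x.X.ga a := by
  funext i j k p
  unfold SM.ga
  rw [cc_even]

theorem riem_even (a : ℕ) : (ext x).riem (2 * a) = x.X.riem a := by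
  funext i j k l p
  unfold SM.riem
  rw [cc_even, ga_even, dd_even]

theorem dirac_even {N : ℕ} (S : Spinor (m + 1) N) (a : ℕ) :
    (ext x).dirac S (2 * a) = x.X.dirac S a := by
  funext ψ p
  unfold SM.dirac
  rw [ga_even, dd_even]

/-! ### The odd frames -/

/-- The first component of the `i`-th product vector field. -/
def V1 (b : ℕ) (i : Fin (m + 1)) (y : x.N.M) : TangentSpace (𝓡 m) y :=
  x.N.F b y ((sn m).symm (bv i)).1

theorem V1_cast (b : ℕ) (i : Fin m) : V1 x b i.castSucc = x.N.e b i := by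
  funext y; rw [V1, sn_symm_cast]; rfl

theorem V1_last (b : ℕ) : V1 x b (Fin.last m) = 0 := by
  funext y; rw [V1, sn_symm_last]; exact map_zero _

theorem e_odd (b : ℕ) (i : Fin (m + 1)) {z : x.N.M × Eu 1} (hz : z ∈ O x) :
    (ext x).e (2 * b + 1) i (x.j z) = mfderiv ((𝓡 m).prod (𝓡 1)) (𝓡 (m + 1)) x.j z
      (up (V1 x b i) ((sn m).symm (bv i)).2 z) :=
  (congrArg (fun F : Eu (m + 1) ≃L[ℝ] Eu (m + 1) => F (bv i)) (eF_odd x b hz)).trans
    (Fz_apply x b hz _)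

section dd

variable {S : Type} [NormedAddCommGroup S] [NormedSpace ℝ S]

theorem dd_odd (b : ℕ) (i : Fin (m + 1)) (φ : x.X.M → S) {z : x.N.M × Eu 1} (hz : z ∈ O x) :
    (ext x).dd (2 * b + 1) i φ (x.j z) = mfderiv ((𝓡 m).prod (𝓡 1)) 𝓘(ℝ, S) (φ ∘ x.j) z
      ((V1 x b i z.1 : Eu m), ((sn m).symm (bv i)).2) := by
  unfold SM.dd
  rw [e_odd x b i hz]
  exact (mfderiv_comp_j (loc x hz) φ _).symm

theorem dd_odd_cast (b : ℕ) (i : Fin m) (φ : x.X.M → S) {z : x.N.M × Eu 1} (hz : z ∈ O x) :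
    (ext x).dd (2 * b + 1) i.castSucc φ (x.j z) =
      mfderiv ((𝓡 m).prod (𝓡 1)) 𝓘(ℝ, S) (φ ∘ x.j) z ((x.N.e b i z.1 : Eu m), (0 : Eu 1)) := by
  rw [dd_odd x b _ φ hz, V1_cast, sn_symm_cast]

theorem dd_odd_last (b : ℕ) (φ : x.X.M → S) {z : x.N.M × Eu 1} (hz : z ∈ O x) :
    (ext x).dd (2 * b + 1) (Fin.last m) φ (x.j z) =
      mfderiv ((𝓡 m).prod (𝓡 1)) 𝓘(ℝ, S) (φ ∘ x.j) z ((0 : Eu m), (bv 0 : Eu 1)) := by
  rw [dd_odd x b _ φ hz, V1_last, sn_symm_last]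
  rfl

/-- Functions that do not depend on the cylinder coordinate. -/
theorem dd_fst (b : ℕ) (i : Fin (m + 1)) {φ : x.X.M → S} {g : x.N.M → S} {z : x.N.M × Eu 1}
    (hz : z ∈ O x) (h : φ ∘ x.j =ᶠ[𝓝 z] fun w => g w.1) :
    (ext x).dd (2 * b + 1) i φ (x.j z) = mfderiv (𝓡 m) 𝓘(ℝ, S) g z.1 (V1 x b i z.1) := by
  rw [dd_odd x b i φ hz, h.mfderiv_eq]
  exact mfderiv_comp_fst g z _ _

theorem dd_fst_cast (b : ℕ) (i : Fin m) {φ : x.X.M → S} {g : x.N.M → S} {z : x.N.M × Eu 1}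
    (hz : z ∈ O x) (h : φ ∘ x.j =ᶠ[𝓝 z] fun w => g w.1) :
    (ext x).dd (2 * b + 1) i.castSucc φ (x.j z) = x.N.dd b i g z.1 := by
  rw [dd_fst x b _ hz h, V1_cast]; rfl

theorem dd_fst_last (b : ℕ) {φ : x.X.M → S} {g : x.N.M → S} {z : x.N.M × Eu 1}
    (hz : z ∈ O x) (h : φ ∘ x.j =ᶠ[𝓝 z] fun w => g w.1) :
    (ext x).dd (2 * b + 1) (Fin.last m) φ (x.j z) = 0 := by
  rw [dd_fst x b _ hz h, V1_last]; exact map_zero _

/-- Functions of the cylinder coordinate. -/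
theorem dd_snd (b : ℕ) (i : Fin (m + 1)) {φ : x.X.M → S} {g : Eu 1 → S} {z : x.N.M × Eu 1}
    (hz : z ∈ O x) (h : φ ∘ x.j =ᶠ[𝓝 z] fun w => g w.2) (hg : DifferentiableAt ℝ g z.2) :
    (ext x).dd (2 * b + 1) i φ (x.j z) = fderiv ℝ g z.2 ((sn m).symm (bv i)).2 := by
  rw [dd_odd x b i φ hz, h.mfderiv_eq]
  exact mfderiv_comp_snd z hg _ _

end dd

theorem V1_smooth (b : ℕ) (i : Fin (m + 1)) {y : x.N.M} (hy : y ∈ x.N.U b) :
    ContMDiffAt (𝓡 m) (𝓡 m).tangent ∞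
      (fun y => (⟨y, V1 x b i y⟩ : TangentBundle (𝓡 m) x.N.M)) y :=
  (x.N.smooth b _).contMDiffAt ((x.N.isOpen b).mem_nhds hy)

theorem cc_odd (b : ℕ) (i j k : Fin (m + 1)) {z : x.N.M × Eu 1} (hz : z ∈ O x)
    (hb : z.1 ∈ x.N.U b) : (ext x).cc (2 * b + 1) i j k (x.j z) =
      sn m ((x.N.F b z.1).symm (mlieBracket (𝓡 m) (V1 x b i) (V1 x b j) z.1), 0) k := by
  have i1 : IsManifold (𝓡 (m + 1)) (minSmoothness ℝ 2) x.X.M := by
    rw [minSmoothness_of_isRCLikeNormedField]; infer_instance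
  have i2 : IsManifold ((𝓡 m).prod (𝓡 1)) (minSmoothness ℝ 2) (x.N.M × Eu 1) := by
    rw [minSmoothness_of_isRCLikeNormedField]; infer_instance
  have hn : minSmoothness ℝ 2 ≤ (∞ : WithTop ℕ∞) := by
    rw [minSmoothness_of_isRCLikeNormedField]; exact WithTop.coe_le_coe.2 le_top
  have hU : eU x (2 * b + 1) ∈ 𝓝 (x.j z) :=
    (isOpen_eU x _).mem_nhds (by rw [eU_odd]; exact ⟨z, ⟨hz, hb⟩, rfl⟩)
  have hd : ∀ i, MDifferentiableAt (𝓡 (m + 1)) (𝓡 (m + 1)).tangent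
      (fun p => (⟨p, (ext x).e (2 * b + 1) i p⟩ : TangentBundle (𝓡 (m + 1)) x.X.M)) (x.j z) :=
    fun i => ((eF_smooth x _ (bv i)).contMDiffAt hU).mdifferentiableAt (by simp)
  have k1 := mpullback_mlieBracket (hd i) (hd j) (loc x hz).contMDiffAt hn
  have hev : ∀ i, mpullback ((𝓡 m).prod (𝓡 1)) (𝓡 (m + 1)) x.j ((ext x).e (2 * b + 1) i) =ᶠ[𝓝 z]
      up (V1 x b i) ((sn m).symm (bv i)).2 := fun i => by
    filter_upwards [(isOpen_O x).mem_nhds hz] with w hw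
    rw [mpullback_apply, e_odd x b i hw, ← (loc x hw).mfderivToContinuousLinearEquiv_coe (by simp),
      ContinuousLinearMap.inverse_equiv]
    exact ((loc x hw).mfderivToContinuousLinearEquiv (by simp)).symm_apply_apply _
  rw [(hev i).mlieBracket_vectorField_eq (hev j),
    bracket_up _ _ (V1_smooth x b i hb) (V1_smooth x b j hb), mpullback_apply,
    ← (loc x hz).mfderivToContinuousLinearEquiv_coe (by simp),
    ContinuousLinearMap.inverse_equiv] at k1
  have k2 := (congrArg (fun F : Eu (m + 1) ≃L[ℝ] Eu (m + 1) => F.symm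
    (mlieBracket (𝓡 (m + 1)) ((ext x).e (2 * b + 1) i) ((ext x).e (2 * b + 1) j) (x.j z)) k)
    (eF_odd x b hz))
  refine k2.trans ?_
  rw [Fz, dif_pos hz]
  exact congrArg (fun w : Eu m × Eu 1 => sn m ((x.N.F b z.1).symm w.1, w.2) k) k1

section cc

variable (b : ℕ) {z : x.N.M × Eu 1} (hz : z ∈ O x) (hb : z.1 ∈ x.N.U b)
include hz hb

theorem cc_cast (i j k : Fin m) :
    (ext x).cc (2 * b + 1) i.castSucc j.castSucc k.castSucc (x.j z) = x.N.cc b i j k z.1 := by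
  rw [cc_odd x b _ _ _ hz hb, sn_cast, V1_cast, V1_cast]; rfl

theorem cc_last {i j k : Fin (m + 1)} (h : i = Fin.last m ∨ j = Fin.last m ∨ k = Fin.last m) :
    (ext x).cc (2 * b + 1) i j k (x.j z) = 0 := by
  rw [cc_odd x b _ _ _ hz hb]
  rcases h with rfl | rfl | rfl
  · rw [V1_last, mlieBracket_zero_left, Pi.zero_apply, map_zero, Prod.mk_zero_zero, map_zero]; rfl
  · rw [V1_last, mlieBracket_zero_right, Pi.zero_apply, map_zero, Prod.mk_zero_zero, map_zero]; rfl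
  · rw [sn_last]; rfl

theorem ga_cast (i j k : Fin m) :
    (ext x).ga (2 * b + 1) i.castSucc j.castSucc k.castSucc (x.j z) = x.N.ga b i j k z.1 := by
  unfold SM.ga
  rw [cc_cast x b hz hb, cc_cast x b hz hb, cc_cast x b hz hb]

theorem ga_last {i j k : Fin (m + 1)} (h : i = Fin.last m ∨ j = Fin.last m ∨ k = Fin.last m) :
    (ext x).ga (2 * b + 1) i j k (x.j z) = 0 := by
  unfold SM.ga
  rw [cc_last x b hz hb h, cc_last x b hz hb (i := j) (by tauto),
    cc_last x b hz hb (i := k) (by tauto)]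
  simp

theorem ga_cast_ev (i j k : Fin m) :
    (ext x).ga (2 * b + 1) i.castSucc j.castSucc k.castSucc ∘ x.j =ᶠ[𝓝 z]
      fun w => x.N.ga b i j k w.1 := by
  filter_upwards [(isOpen_dom x b).mem_nhds ⟨hz, hb⟩] with w hw
  exact ga_cast x b hw.1 hw.2 i j k

theorem dd_ga_last (l : Fin (m + 1)) {i j k : Fin (m + 1)}
    (h : i = Fin.last m ∨ j = Fin.last m ∨ k = Fin.last m) :
    (ext x).dd (2 * b + 1) l ((ext x).ga (2 * b + 1) i j k) (x.j z) = 0 := by
  rw [dd_fst x b l (g := fun _ => 0) hz, mfderiv_const]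
  · rfl
  · filter_upwards [(isOpen_dom x b).mem_nhds ⟨hz, hb⟩] with w hw
    exact ga_last x b hw.1 hw.2 h

theorem riem_cast (i j k l : Fin m) :
    (ext x).riem (2 * b + 1) i.castSucc j.castSucc k.castSucc l.castSucc (x.j z) =
      x.N.riem b i j k l z.1 := by
  unfold SM.riem
  rw [dd_fst_cast x b _ hz (ga_cast_ev x b hz hb j k l),
    dd_fst_cast x b _ hz (ga_cast_ev x b hz hb i k l), Fin.sum_univ_castSucc,
    ga_last x b hz hb (k := Fin.last m) (by tauto), ga_last x b hz hb (k := Fin.last m) (by tauto),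
    cc_last x b hz hb (k := Fin.last m) (by tauto)]
  simp only [ga_cast x b hz hb, cc_cast x b hz hb, zero_mul, sub_zero, add_zero]

theorem riem_last_left (j k : Fin (m + 1)) :
    (ext x).riem (2 * b + 1) (Fin.last m) j k (Fin.last m) (x.j z) = 0 := by
  unfold SM.riem
  rw [dd_ga_last x b hz hb _ (by tauto), dd_ga_last x b hz hb _ (by tauto)]
  simp [ga_last x b hz hb (i := Fin.last m), cc_last x b hz hb (i := Fin.last m)]

theorem riem_last_mid (i l : Fin (m + 1)) :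
    (ext x).riem (2 * b + 1) i (Fin.last m) (Fin.last m) l (x.j z) = 0 := by
  unfold SM.riem
  rw [dd_ga_last x b hz hb _ (by tauto), dd_ga_last x b hz hb _ (by tauto)]
  simp [ga_last x b hz hb (i := Fin.last m), cc_last x b hz hb (j := Fin.last m)]

/-- The scalar curvature in the product frame. -/
theorem scal_odd : ∑ i, ∑ j, (ext x).riem (2 * b + 1) i j j i (x.j z) =
    ∑ i, ∑ j, x.N.riem b i j j i z.1 := by
  rw [Fin.sum_univ_castSucc]
  simp only [riem_last_left x b hz hb, Finset.sum_const_zero, add_zero]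
  refine Finset.sum_congr rfl fun i _ => ?_
  rw [Fin.sum_univ_castSucc, riem_last_mid x b hz hb, add_zero]
  exact Finset.sum_congr rfl fun j _ => riem_cast x b hz hb i j j i

end cc

theorem fr_mem {n : ℕ} (X : SM n) (p : X.M) : p ∈ X.U (X.fr p) := Nat.sInf_mem (X.cover p)

/-- The scalar curvature on the cylinder, from the independence of the frame. -/
theorem scal_j (hG : ∀ (Y : SM (m + 1)) a b p, p ∈ Y.U a → p ∈ Y.U b →
      ∑ i, ∑ j, Y.riem a i j j i p = ∑ i, ∑ j, Y.riem b i j j i p)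
    {z : x.N.M × Eu 1} (hz : z ∈ O x) : x.X.scal (x.j z) = x.N.scal z.1 := by
  have h := hG (ext x) (2 * x.X.fr (x.j z)) (2 * x.N.fr z.1 + 1) (x.j z)
    (mem_even x (fr_mem _ _)) (mem_odd x hz (fr_mem _ _))
  rw [riem_even, scal_odd x _ hz (fr_mem _ _)] at h
  exact h

end Pool.Agent.Lib.ANA.Cyl
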