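import Pool.Agent.Lib.CX.Vol

/-! Analysis of the Dirac operator on a spin manifold: definitions. A global section is a map
`X.M → Eu N`, read at each point `y` in the frame `X.fr y`. -/

noncomputable section

open Set Function MeasureTheory CliffordAlgebra
open scoped Manifold ContDiff InnerProductSpace

namespace Pool.Agent.Lib.ANA

open CX

section L2

variable {α V : Type} [MeasurableSpace α] [NormedAddCommGroup V] [InnerProductSpace ℝ V]

/-- Bounded measurable functions. -/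
def Bm (ψ : α → ℝ) : Prop := Measurable ψ ∧ ∃ C, ∀ y, |ψ y| ≤ C

open Classical in
/-- The class of a square integrable function. -/
def cl (μ : Measure α) (s : α → V) : Lp V 2 μ := if h : MemLp s 2 μ then h.toLp s else 0

variable (V) in
open Classical in
/-- The multiplication operator. -/
def mul (μ : Measure α) (ψ : α → ℝ) : Lp V 2 μ →L[ℝ] Lp V 2 μ :=
  if h : ∃ A : Lp V 2 μ →L[ℝ] Lp V 2 μ, ∀ f, A f =ᵐ[μ] fun y => ψ y • f y then h.choose else 0

/-- A constant matrix acting on `L²`. -/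
abbrev cst (μ : Measure α) (A : V →L[ℝ] V) : Lp V 2 μ →L[ℝ] Lp V 2 μ := A.compLpL 2 μ

end L2

variable {n N : ℕ} (X : SM n) (S : Spinor n N)

/-- The zero module. -/
def sp0 (n : ℕ) : Spinor n 0 where
  c := CliffordAlgebra.lift _ ⟨0, fun _ => Subsingleton.elim _ _⟩
  skew _ u w := by simp [Subsingleton.elim w 0, Subsingleton.elim u 0]

/-- Clifford multiplication by a basis vector. -/
def gam (i : Fin n) : Eu N →L[ℝ] Eu N := S.c (ι (Qn n) (bv i))

/-- A grading operator. -/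
structure Gr (w : Eu N →L[ℝ] Eu N) : Prop where
  sq : ∀ u, w (w u) = u
  sym : ∀ u v, ⟪w u, v⟫_ℝ = ⟪u, w v⟫_ℝ
  anti : ∀ v u, w (S.c (ι (Qn n) v) u) = -S.c (ι (Qn n) v) (w u)

/-- The transition from the frame `b` to the frame `a` on spinors. -/
def tr (a b : ℕ) (y : X.M) : Eu N →L[ℝ] Eu N := S.c (X.s a b y)

/-- The rotation matrix `e^b_j = ∑ i, om a b i j • e^a_i`. -/
def om (a b : ℕ) (y : X.M) (i j : Fin n) : ℝ := (X.F a y).symm (X.e b j y) i

/-- The scalar curvature computed in the frame `a`. -/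
def scalL (a : ℕ) (y : X.M) : ℝ := ∑ i, ∑ j, X.riem a i j j i y

/-- The spin connection in the frame `a`. -/
def nabL (a : ℕ) (i : Fin n) (u : X.M → Eu N) (y : X.M) : Eu N :=
  X.dd a i u y + (1 / 4 : ℝ) •
    ∑ j, ∑ k, X.ga a i j k y • S.c (ι (Qn n) (bv j) * ι (Qn n) (bv k)) (u y)

theorem dirac_eq (a : ℕ) (u : X.M → Eu N) (y : X.M) :
    X.dirac S a u y = ∑ i, gam S i (nabL X S a i u y) := rfl

theorem scal_eq (y : X.M) : X.scal y = scalL X (X.fr y) y := rfl

/-- The components of a global section in the frame `a`. -/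
def loc (a : ℕ) (s : X.M → Eu N) (y : X.M) : Eu N := tr X S a (X.fr y) y (s y)

/-- The global section with components `u` in the frame `a`. -/
def glob (a : ℕ) (u : X.M → Eu N) (y : X.M) : Eu N := tr X S (X.fr y) a y (u y)

/-- Smooth sections with compact support. -/
structure IsT (s : X.M → Eu N) : Prop where
  cpt : HasCompactSupport s
  sm : ∀ a, ContMDiffOn (𝓡 n) 𝓘(ℝ, Eu N) ∞ (loc X S a s) (X.U a)

/-- Elementary test functions: smooth with compact support in `U a ∩ O`. -/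
structure IsE (a : ℕ) (O : Set X.M) (u : X.M → Eu N) : Prop where
  sm : ContMDiff (𝓡 n) 𝓘(ℝ, Eu N) ∞ u
  cpt : HasCompactSupport u
  sub : tsupport u ⊆ X.U a ∩ O

/-- The components of the covariant derivative. -/
def nab (i : Fin n) (s : X.M → Eu N) (y : X.M) : Eu N :=
  nabL X S (X.fr y) i (loc X S (X.fr y) s) y

/-- The Dirac operator. -/
def dir (s : X.M → Eu N) (y : X.M) : Eu N := X.dirac S (X.fr y) (loc X S (X.fr y) s) y

theorem dir_eq (s : X.M → Eu N) (y : X.M) : dir X S s y = ∑ i, gam S i (nab X S i s y) := rfl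

/-- The operator `D + w`. -/
def dw (w : Eu N →L[ℝ] Eu N) (s : X.M → Eu N) (y : X.M) : Eu N := dir X S s y + w (s y)

/-- The components of the gradient. -/
def dv (i : Fin n) (ψ : X.M → ℝ) (y : X.M) : ℝ := X.dd (X.fr y) i ψ y

/-- Clifford multiplication by the vector field with components `d`. -/
def cg (μ : Measure X.M) (d : Fin n → X.M → ℝ) : Lp (Eu N) 2 μ →L[ℝ] Lp (Eu N) 2 μ :=
  ∑ i, cst μ (gam S i) * mul (Eu N) μ (d i)

/-- Smooth bounded functions with bounded gradient. -/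
structure Sm (ψ : X.M → ℝ) : Prop where
  sm : ContMDiff (𝓡 n) 𝓘(ℝ, ℝ) ∞ ψ
  bd : ∃ C, ∀ y, |ψ y| ≤ C
  bd' : ∃ C, ∀ i y, |dv X i ψ y| ≤ C

/-- Completeness in the form of cut-off functions. -/
structure Cpl : Prop where
  sc : SigmaCompactSpace X.M
  cut : ∀ K, IsCompact K → ∀ ε > (0 : ℝ), ∃ ρ : X.M → ℝ, ContMDiff (𝓡 n) 𝓘(ℝ, ℝ) ∞ ρ ∧
    HasCompactSupport ρ ∧ (∀ y ∈ K, ρ y = 1) ∧ ∀ i y, |dv X i ρ y| ≤ ε

/-- `p` lies in the domain of the adjoint of `D`, with image `q`. -/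
def Weak (μ : Measure X.M) (p q : Lp (Eu N) 2 μ) : Prop :=
  ∀ t, IsT X S t → ⟪p, cl μ (dir X S t)⟫_ℝ = ⟪q, cl μ t⟫_ℝ

/-- `p` is a limit of test sections whose images under `D` stay bounded. -/
def Strong (μ : Measure X.M) (p : Lp (Eu N) 2 μ) : Prop :=
  ∃ C : ℝ, ∀ η > (0 : ℝ), ∃ f, IsT X S f ∧ ‖cl μ f - p‖ < η ∧ ‖cl μ (dir X S f)‖ ≤ C

/-- `R = (D + w)⁻¹` and `Nn j = ∇_j R`. -/
structure Res (w : Eu N →L[ℝ] Eu N) (μ : Measure X.M) (R : Lp (Eu N) 2 μ →L[ℝ] Lp (Eu N) 2 μ)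
    (Nn : Fin n → Lp (Eu N) 2 μ →L[ℝ] Lp (Eu N) 2 μ) : Prop where
  R_cl : ∀ s, IsT X S s → R (cl μ (dw X S w s)) = cl μ s
  N_cl : ∀ s, IsT X S s → ∀ j, Nn j (cl μ (dw X S w s)) = cl μ (nab X S j s)
  dense : Dense {η | ∃ s, IsT X S s ∧ η = cl μ (dw X S w s)}

variable {G : Type} [Group G] {m : ℕ}

/-- The open set on which the join coordinate `a` does not vanish. -/
def OO (x : Sing G m) (a : ℕ) : Set x.X.M := {p | (x.f p).t a ≠ 0}

open Classical in
/-- The indicator function of the set in `O a ∩ O b` on which the cocycle has the value `g`. -/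
def EE (x : Sing G m) (a b : ℕ) (g : G) (p : x.X.M) : ℝ :=
  if p ∈ OO x a ∧ p ∈ OO x b ∧ (x.f p).co a b = g then 1 else 0

/-- A quadratic partition of unity subordinate to the sets `O a`, `a < r`. -/
structure Phi (x : Sing G m) (r : ℕ) (φ : ℕ → x.X.M → ℝ) : Prop where
  sm : ∀ a, Sm x.X (φ a)
  sub : ∀ a, tsupport (φ a) ⊆ OO x a
  sq : ∀ p, ∑ a ∈ Finset.range r, φ a p ^ 2 = 1

end Pool.Agent.Lib.ANA
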