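import Pool.Agent.Lib.ANA.Fr

/-! The length of the gradient of a function on a Riemannian spin manifold. -/

noncomputable section

open Manifold Set Topology Filter CliffordAlgebra
open scoped ContDiff InnerProductSpace

namespace Pool.Agent.Lib.ANA.Fr

open CX Mf

variable {n : ℕ}

theorem polar_Qn (v w : Eu n) : QuadraticMap.polar (Qn n) v w = -(2 * ⟪v, w⟫_ℝ) := by
  simp only [QuadraticMap.polar, Qn, _root_.neg_apply, LinearMap.BilinMap.toQuadraticMap_apply,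
    innerₗ_apply_apply, inner_add_left, inner_add_right, real_inner_comm v w]
  ring

theorem covers_inner {W : Type} {s : Cl n} {κ A : W → Eu n} (h : Covers s κ A) (v w : W) :
    ⟪A v, A w⟫_ℝ = ⟪κ v, κ w⟫_ℝ := by
  have h1 : (ι (Qn n) (A v) * ι (Qn n) (A w) + ι (Qn n) (A w) * ι (Qn n) (A v)) * s =
      s * (ι (Qn n) (κ v) * ι (Qn n) (κ w) + ι (Qn n) (κ w) * ι (Qn n) (κ v)) := by
    rw [add_mul, mul_add, mul_assoc, mul_assoc, h.2, h.2, ← mul_assoc, ← mul_assoc, h.2, h.2,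
      mul_assoc, mul_assoc]
  rw [ι_mul_ι_add_swap, ι_mul_ι_add_swap, ← Algebra.commutes, ← Algebra.smul_def,
    ← Algebra.smul_def, polar_Qn, polar_Qn] at h1
  have hs : s ≠ 0 := by
    intro h0
    have := spinGroup.mul_star_self_of_mem h.1
    rw [h0, zero_mul] at this
    exact zero_ne_one this
  have := smul_left_injective ℝ hs h1
  linarith

theorem covers_norm {W : Type} {s : Cl n} {κ A : W → Eu n} (h : Covers s κ A) (v : W) :
    ‖A v‖ = ‖κ v‖ := by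
  rw [norm_eq_sqrt_real_inner, covers_inner h, ← norm_eq_sqrt_real_inner]

theorem sum_sq_bv (L : Eu n →L[ℝ] ℝ) : ∑ i, L (bv i) ^ 2 = ‖L‖ ^ 2 := by
  obtain ⟨w, rfl⟩ := (InnerProductSpace.toDual ℝ (Eu n)).surjective L
  rw [LinearIsometryEquiv.norm_map, ← (EuclideanSpace.basisFun (Fin n) ℝ).sum_sq_inner_left w]
  simp [bv]

theorem norm_bv (i : Fin n) : ‖(bv i : Eu n)‖ = 1 := by simp [bv]

variable (X : SM n)

/-- The differential of `φ` in the frame `a`. -/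
def dF (a : ℕ) (φ : X.M → ℝ) (p : X.M) : Eu n →L[ℝ] ℝ :=
  (md (𝓡 n) 𝓘(ℝ) φ p).comp (X.F a p).toContinuousLinearMap

theorem dF_apply (a : ℕ) (φ : X.M → ℝ) (p : X.M) (v : Eu n) :
    dF X a φ p v = md (𝓡 n) 𝓘(ℝ) φ p (X.F a p v) := rfl

theorem dF_bv (a : ℕ) (φ : X.M → ℝ) (p : X.M) (i : Fin n) : dF X a φ p (bv i) = X.dd a i φ p := rfl

/-- The length of the gradient. -/
def gn (φ : X.M → ℝ) (p : X.M) : ℝ := ‖dF X (X.fr p) φ p‖

theorem gn_nonneg (φ : X.M → ℝ) (p : X.M) : 0 ≤ gn X φ p := norm_nonneg _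

variable {X} {a b : ℕ} {φ : X.M → ℝ} {p : X.M}

theorem norm_dF_le (ha : p ∈ X.U a) (hb : p ∈ X.U b) : ‖dF X b φ p‖ ≤ ‖dF X a φ p‖ := by
  refine ContinuousLinearMap.opNorm_le_bound _ (norm_nonneg _) fun v => ?_
  have h1 : dF X b φ p v = dF X a φ p ((X.F a p).symm (X.F b p v)) := by
    rw [dF_apply, dF_apply, ContinuousLinearEquiv.apply_symm_apply]
  have h2 := covers_norm (X.spin a b p ⟨ha, hb⟩) v
  rw [h1]
  exact ((dF X a φ p).le_opNorm _).trans_eq (congrArg _ h2)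

theorem gn_eq (ha : p ∈ X.U a) : gn X φ p = ‖dF X a φ p‖ :=
  le_antisymm (norm_dF_le ha (fr_mem X p)) (norm_dF_le (fr_mem X p) ha)

theorem sum_dd_sq (ha : p ∈ X.U a) : ∑ i, X.dd a i φ p ^ 2 = gn X φ p ^ 2 := by
  rw [gn_eq ha, ← sum_sq_bv]; rfl

theorem abs_dd_le (ha : p ∈ X.U a) (i : Fin n) : |X.dd a i φ p| ≤ gn X φ p := by
  rw [gn_eq ha]
  exact ((dF X a φ p).le_opNorm (bv i)).trans_eq (by rw [norm_bv, mul_one])

theorem gn_le (ha : p ∈ X.U a) {C : ℝ} (hC : 0 ≤ C)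
    (h : ∀ v, |md (𝓡 n) 𝓘(ℝ) φ p (X.F a p v)| ≤ C * ‖v‖) : gn X φ p ≤ C := by
  rw [gn_eq ha]
  exact ContinuousLinearMap.opNorm_le_bound _ hC h

theorem abs_md_le (ha : p ∈ X.U a) (v : Eu n) :
    |md (𝓡 n) 𝓘(ℝ) φ p (X.F a p v)| ≤ gn X φ p * ‖v‖ := by
  rw [gn_eq ha]
  exact (dF X a φ p).le_opNorm v

theorem gn_congr {ψ : X.M → ℝ} (h : φ =ᶠ[𝓝 p] ψ) : gn X φ p = gn X ψ p := by
  unfold gn dF
  rw [md_congr h]

theorem gn_const (c : ℝ) (p : X.M) : gn X (fun _ => c) p = 0 := by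
  have : md (𝓡 n) 𝓘(ℝ) (fun _ : X.M => c) p = 0 := mfderiv_const
  simp [gn, dF, this]

theorem continuousAt_gn (hφ : ContMDiffAt (𝓡 n) 𝓘(ℝ) ∞ φ p) : ContinuousAt (gn X φ) p := by
  have ha := fr_mem X p
  have h1 : ContinuousAt (fun q => √(∑ i, X.dd (X.fr p) i φ q ^ 2)) p :=
    (tendsto_finsetSum _ fun i _ =>
      (((smF X _).dd_smooth ha hφ i).continuousAt.pow 2).tendsto).sqrt
  refine h1.congr ?_
  filter_upwards [(X.isOpen _).mem_nhds ha] with q hq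
  rw [sum_dd_sq hq, Real.sqrt_sq (gn_nonneg X φ q)]

theorem gn_bdd (hφ : ContMDiff (𝓡 n) 𝓘(ℝ) ∞ φ) {K : Set X.M} (hK : IsCompact K) :
    ∃ C, 0 ≤ C ∧ ∀ p ∈ K, gn X φ p ≤ C := by
  obtain ⟨C, hC⟩ := hK.bddAbove_image
    (continuous_iff_continuousAt.2 fun p => continuousAt_gn (hφ p)).continuousOn
  exact ⟨max C 0, le_max_right _ _, fun p hp => (hC ⟨p, hp, rfl⟩).trans (le_max_left _ _)⟩

end Pool.Agent.Lib.ANA.Fr
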