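import Pool.Agent.Lib.ANA.CYL

/-! Block KAP. -/

noncomputable section

open Manifold Set
open scoped ContDiff

namespace Pool.Agent.Lib.ANA

open CX Cyl CylB

theorem KAP.bdd (hG : St_GAU) {G : Type} [Group G] {m : ℕ} (x : Sing G m) :
    ∃ C, 0 ≤ C ∧ ∀ p, |x.X.scal p| ≤ C := by
  have := x.cpt
  obtain ⟨C₁, h1⟩ := isCompact_univ.bddAbove_image
    (continuous_scal x.N (CYL.gauge hG _)).abs.continuousOn
  obtain ⟨C₂, h2⟩ := x.core_cpt.bddAbove_image
    (continuous_scal x.X (CYL.gauge hG _)).abs.continuousOn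
  refine ⟨max (max C₁ C₂) 0, le_max_right _ _, fun p => le_trans ?_ (le_max_left _ _)⟩
  rcases le_or_gt (ht x p) 1 with h | h
  · exact (h2 ⟨p, (mem_core_iff x).2 h, rfl⟩).trans (le_max_right _ _)
  · obtain ⟨z, hz, rfl, -⟩ := exists_of_ht_pos x (one_pos.trans h)
    rw [scal_j x (CYL.gauge hG) hz]
    exact (h1 ⟨z.1, trivial, rfl⟩).trans (le_max_left _ _)

theorem stKAP (hG : St_GAU) : St_KAP := fun G _ m N x _ => by
  refine ⟨(KAP.bdd hG x).imp fun C hC p => (abs_le.1 (hC.2 p)).1, fun hp => ?_⟩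
  obtain ⟨κ, C, h0, hC0, h1, h2⟩ := scal_lower x (CYL.gauge hG _) (CYL.gauge hG) hp
  have hm : MeasurableSet x.core := x.core_cpt.isClosed.measurableSet
  refine ⟨x.core.indicator fun _ => √(κ + C), κ / 4,
    ⟨measurable_const.indicator hm, √(κ + C), fun p => ?_⟩,
    HasCompactSupport.intro x.core_cpt fun p hp => indicator_of_notMem hp _, by positivity,
    fun p => ?_⟩
  · by_cases h : p ∈ x.core
    · rw [indicator_of_mem h, abs_of_nonneg (Real.sqrt_nonneg _)]
    · rw [indicator_of_notMem h, abs_zero]; exact Real.sqrt_nonneg _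
  · by_cases h : p ∈ x.core
    · rw [indicator_of_mem h, Real.sq_sqrt (by positivity)]
      linarith [(abs_le.1 (h2 p)).1]
    · rw [indicator_of_notMem h]
      have := h1 p (one_pos.trans (lt_of_not_ge fun h' => h ((mem_core_iff x).2 h')))
      linarith

end Pool.Agent.Lib.ANA
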