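import Pool.Agent.Lib.ANA.Blue

/-! Block LIC: the global Green and Lichnerowicz formulas. -/

noncomputable section

open Set Function Filter Topology MeasureTheory CliffordAlgebra
open scoped Manifold ContDiff InnerProductSpace

namespace Pool.Agent.Lib.ANA

open CX

namespace LIC

variable {n N : ℕ} {X : SM n} {S : Spinor n N}

/-- Induction principle: test sections are finite sums of test sections supported in small sets. -/
theorem ind (hP : St_PART) (hC : CoreApi X S) (O : X.M → Set X.M) (hO : ∀ y, O y ∈ 𝓝 y)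
    (P : (X.M → Eu N) → Prop) (h0 : P fun _ => 0)
    (hadd : ∀ s t, IsT X S s → IsT X S t → P s → P t → P fun y => s y + t y)
    (hloc : ∀ t y, IsT X S t → tsupport t ⊆ O y → P t) {t} (ht : IsT X S t) : P t := by
  obtain ⟨r, p, θ, hθ, h1⟩ := hP n X (tsupport t) ht.cpt O fun y _ => hO y
  have hT : ∀ l, IsT X S fun y => θ l y • t y := fun l => hC.mul ht fun y _ => (hθ l).2.1 y
  have key : ∀ F : Finset (Fin r), P fun y => ∑ l ∈ F, θ l y • t y := by
    intro F
    induction F using Finset.induction_on with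
    | empty => simpa using h0
    | insert l F hl ih =>
      simp only [Finset.sum_insert hl]
      exact hadd _ _ (hT l) (hC.sum F fun k _ => hT k) (hloc _ (p l) (hT l)
        ((tsupport_smul_subset_left _ _).trans (hθ l).2.2.2)) ih
  have : (fun y => ∑ l, θ l y • t y) = t := by
    funext y
    rw [← Finset.sum_smul]
    by_cases hy : y ∈ tsupport t
    · rw [h1.self_of_nhdsSet y hy, one_smul]
    · rw [image_eq_zero_of_notMem_tsupport hy, smul_zero]
  exact this ▸ key Finset.univ

theorem cont (hA : AlgApi X S) (hL : LocApi X S) (hG : GauApi X S) : Continuous X.scal := by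
  refine continuous_iff_continuousAt.2 fun y => ?_
  have hn := (X.isOpen _).mem_nhds (hA.mem_fr y)
  exact ((hL.scalL_sm _).contMDiffAt hn).continuousAt.congr
    (by filter_upwards [hn] with z hz using hG.scal hz)

theorem intg {μ : Measure X.M} (hM : MulApi (Eu N) μ) (hc : Continuous X.scal) {s t : X.M → Eu N}
    (hK : HasCompactSupport s) (hs : MemLp s 2 μ) (ht : MemLp t 2 μ) :
    Integrable (fun y => X.scal y / 4 * ⟪s y, t y⟫_ℝ) μ := by
  obtain ⟨C, hC⟩ := hK.isCompact.exists_bound_of_continuousOn (hc.div_const 4).continuousOn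
  have hb : Bm ((tsupport s).indicator fun y => X.scal y / 4) :=
    ⟨(hc.div_const 4).measurable.indicator (isClosed_tsupport s).measurableSet, max C 0, fun y => by
      by_cases hy : y ∈ tsupport s
      · rw [indicator_of_mem hy]; exact (hC y hy).trans (le_max_left _ _)
      · simp [hy]⟩
  refine (hM.inner_cl (hM.mul_cl hb hs).1 ht).1.congr (ae_of_all _ fun y => ?_)
  by_cases hy : y ∈ tsupport s
  · simp only [indicator_of_mem hy, real_inner_smul_left]
  · simp [image_eq_zero_of_notMem_tsupport hy]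

end LIC

theorem stLIC (hMUL : St_MUL) (hALG : St_ALGB) (hLOC : St_LOC) (hGAU : St_GAU) (hGR : St_GREEN)
    (hP : St_PART) (hCORE : St_CORE) (hMEM : St_MEM) : St_LIC := by
  intro n N X S μ hμ
  have hM := hMUL X.M (Eu N) μ
  have hA := hALG n N X S
  have hL := hLOC n N X S
  have hG := hGAU n N X S
  have hC := hCORE n N X S
  have m0 : ∀ {s}, IsT X S s → MemLp s 2 μ := fun hs => (hMEM n N X S μ hμ _ hs).1
  have m1 : ∀ {s}, IsT X S s → ∀ i, MemLp (nab X S i s) 2 μ := fun hs => (hMEM n N X S μ hμ _ hs).2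
  have hc := LIC.cont hA hL hG
  have := hμ.isFiniteMeasureOnCompacts
  have key : ∀ {s t}, IsT X S s → IsT X S t →
      ⟪cl μ (dir X S s), cl μ t⟫_ℝ = ⟪cl μ s, cl μ (dir X S t)⟫_ℝ ∧
      ⟪cl μ (dir X S s), cl μ (dir X S t)⟫_ℝ = ∑ i, ⟪cl μ (nab X S i s), cl μ (nab X S i t)⟫_ℝ +
        ∫ y, X.scal y / 4 * ⟪s y, t y⟫_ℝ ∂μ := by
    intro s t hs ht
    refine LIC.ind hP hC (fun y => X.U (X.fr y) ∩ (X.ct y).source)
      (fun y => inter_mem ((X.isOpen _).mem_nhds (hA.mem_fr y)) (chart_source_mem_nhds _ y))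
      (fun t => ⟪cl μ (dir X S s), cl μ t⟫_ℝ = ⟪cl μ s, cl μ (dir X S t)⟫_ℝ ∧
      ⟪cl μ (dir X S s), cl μ (dir X S t)⟫_ℝ = ∑ i, ⟪cl μ (nab X S i s), cl μ (nab X S i t)⟫_ℝ +
        ∫ y, X.scal y / 4 * ⟪s y, t y⟫_ℝ ∂μ) ?_ ?_ ?_ ht
    · have z : ∀ y : X.M, y ∉ tsupport fun _ : X.M => (0 : Eu N) := fun y => by simp
      have h1 : dir X S (fun _ => 0) = fun _ => 0 := funext fun y => hC.dir_zero (z y)
      have h2 : ∀ i, nab X S i (fun _ => 0) = fun _ => 0 := fun i =>
        funext fun y => hC.nab_zero (z y) i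
      simp [h1, h2, hM.cl_zero]
    · intro u v hu hv pu pv
      have h1 : dir X S (fun y => u y + v y) = fun y => dir X S u y + dir X S v y :=
        funext (hC.dir_add hu hv)
      have h2 : ∀ i, nab X S i (fun y => u y + v y) = fun y => nab X S i u y + nab X S i v y :=
        fun i => funext (hC.nab_add hu hv i)
      simp only [h1, h2, hM.cl_add (m0 hu) (m0 hv), hM.cl_add (m0 (hC.dir hu)) (m0 (hC.dir hv)),
        hM.cl_add (m1 hu _) (m1 hv _), inner_add_right, mul_add, Finset.sum_add_distrib]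
      rw [integral_add (LIC.intg hM hc hs.cpt (m0 hs) (m0 hu))
        (LIC.intg hM hc hs.cpt (m0 hs) (m0 hv))]
      exact ⟨by rw [pu.1, pv.1], by rw [pu.2, pv.2]; ring⟩
    · intro t x₀ ht hsub
      set a := X.fr x₀
      have hE := (hC.unglob ht hsub).1
      obtain ⟨g1, g2⟩ := hGR n N X S μ hμ x₀ a _ _ (hs.sm a) hE
      have nt : ∀ {y}, y ∉ X.U a → y ∉ tsupport t := fun hy h => hy (hsub h).1
      have nv : ∀ {y}, y ∉ X.U a → y ∉ tsupport (loc X S a t) := fun hy h => hy (hE.sub h).1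
      have d0 : ∀ {y}, y ∉ X.U a → X.dirac S a (loc X S a t) y = 0 := fun {y} hy => by
        change ∑ i, gam S i (nabL X S a i (loc X S a t) y) = 0
        simp [hL.nabL_zero (nv hy)]
      have e1 : ∀ y, ⟪X.dirac S a (loc X S a s) y, loc X S a t y⟫_ℝ = ⟪dir X S s y, t y⟫_ℝ := by
        intro y
        by_cases hy : y ∈ X.U a
        · rw [← hC.loc_dir hs hy, hC.loc_inner _ _ hy]
        · simp [image_eq_zero_of_notMem_tsupport (nt hy), image_eq_zero_of_notMem_tsupport (nv hy)]
      have e2 : ∀ y, ⟪loc X S a s y, X.dirac S a (loc X S a t) y⟫_ℝ = ⟪s y, dir X S t y⟫_ℝ := by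
        intro y
        by_cases hy : y ∈ X.U a
        · rw [← hC.loc_dir ht hy, hC.loc_inner _ _ hy]
        · simp [d0 hy, hC.dir_zero (nt hy)]
      have e3 : ∀ y, ⟪X.dirac S a (loc X S a s) y, X.dirac S a (loc X S a t) y⟫_ℝ =
          ⟪dir X S s y, dir X S t y⟫_ℝ := by
        intro y
        by_cases hy : y ∈ X.U a
        · rw [← hC.loc_dir hs hy, ← hC.loc_dir ht hy, hC.loc_inner _ _ hy]
        · simp [d0 hy, hC.dir_zero (nt hy)]
      have e4 : ∀ y, scalL X a y / 4 * ⟪loc X S a s y, loc X S a t y⟫_ℝ =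
          X.scal y / 4 * ⟪s y, t y⟫_ℝ := by
        intro y
        by_cases hy : y ∈ X.U a
        · rw [hG.scal hy, hC.loc_inner _ _ hy]
        · simp [image_eq_zero_of_notMem_tsupport (nt hy), image_eq_zero_of_notMem_tsupport (nv hy)]
      have e5 : ∀ y, ∑ i, ⟪nabL X S a i (loc X S a s) y, nabL X S a i (loc X S a t) y⟫_ℝ =
          ∑ i, ⟪nab X S i s y, nab X S i t y⟫_ℝ := by
        intro y
        by_cases hy : y ∈ X.U a
        · rw [hC.nab_inner hs ht hy]
        · simp [hL.nabL_zero (nv hy), hC.nab_zero (nt hy)]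
      have i5 : ∀ i, Integrable
          (fun y => ⟪nabL X S a i (loc X S a s) y, nabL X S a i (loc X S a t) y⟫_ℝ) μ := fun i =>
        (integrableOn_iff_integrable_of_support_subset (s := tsupport (loc X S a t))
          fun y hy => of_not_not fun h => hy (by simp [hL.nabL_zero h])).1
          (ContinuousOn.integrableOn_compact hE.cpt fun y hy =>
            ((hL.nabL_sm (hE.sub hy).1 ((hs.sm a).contMDiffAt
              ((X.isOpen a).mem_nhds (hE.sub hy).1)) i).continuousAt.inner
              (hL.nabL_sm (hE.sub hy).1 (hE.sm y) i).continuousAt).continuousWithinAt)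
      rw [← integral_finsetSum _ fun i _ => i5 i] at g2
      simp only [e1, e2, e3, e4, e5] at g1 g2
      rw [integral_finsetSum _ fun i _ => (hM.inner_cl (m1 hs i) (m1 ht i)).1] at g2
      simp only [(hM.inner_cl (m0 (hC.dir hs)) (m0 ht)).2, (hM.inner_cl (m0 hs) (m0 (hC.dir ht))).2,
        (hM.inner_cl (m0 (hC.dir hs)) (m0 (hC.dir ht))).2, (hM.inner_cl (m1 hs _) (m1 ht _)).2]
      exact ⟨g1, g2⟩
  refine ⟨hc, fun hs ht => (key hs ht).1, fun hs => ?_, fun hs => ?_⟩
  · simpa only [real_inner_self_eq_norm_sq] using LIC.intg hM hc hs.cpt (m0 hs) (m0 hs)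
  · simpa only [real_inner_self_eq_norm_sq] using (key hs hs).2

end Pool.Agent.Lib.ANA
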