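import Pool.Agent.Lib.ANA.Blue

noncomputable section

open Set Function Filter Topology MeasureTheory
open scoped Manifold ContDiff InnerProductSpace

namespace Pool.Agent.Lib.ANA

open CX

namespace MEM

variable {n N : ℕ} {X : SM n} {S : Spinor n N}

/-- a function given in the first frame by functions that are continuous on the frame domains -/
theorem meas_fr (hA : AlgApi X S) (g : ℕ → X.M → Eu N) (hg : ∀ a, ContinuousOn (g a) (X.U a)) :
    StronglyMeasurable fun y => g (X.fr y) y := by
  classical
  borelize (Eu N)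
  have h1 : ∀ a, Measurable ((X.U a).piecewise (g a) fun _ => 0) := fun a =>
    (hg a).measurable_piecewise continuousOn_const (X.isOpen a).measurableSet
  have h2 : Measurable fun p : X.M × ℕ => (X.U p.2).piecewise (g p.2) (fun _ => 0) p.1 :=
    measurable_from_prod_countable_left h1
  have h3 := h2.comp (measurable_id.prodMk hA.meas_fr)
  have h4 : (fun y => g (X.fr y) y) = (fun p : X.M × ℕ =>
      (X.U p.2).piecewise (g p.2) (fun _ => 0) p.1) ∘ fun y => (id y, X.fr y) :=
    funext fun y => by simp [piecewise_eq_of_mem _ _ _ (hA.mem_fr y)]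
  rw [h4]
  exact h3.stronglyMeasurable

/-- a function that is continuous in every frame is continuous -/
theorem cont_of {q : X.M → ℝ} (g : ℕ → X.M → ℝ) (hg : ∀ a, ContinuousOn (g a) (X.U a))
    (hq : ∀ a, ∀ y ∈ X.U a, q y = g a y) : Continuous q := by
  refine continuous_iff_continuousAt.2 fun y => ?_
  obtain ⟨a, ha⟩ := X.cover y
  exact ((hg a).congr (hq a)).continuousAt ((X.isOpen a).mem_nhds ha)

theorem nabL_cont (hL : LocApi X S) {s : X.M → Eu N} (hs : IsT X S s) (a : ℕ) (i : Fin n) :
    ContinuousOn (nabL X S a i (loc X S a s)) (X.U a) := fun _ hy =>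
  (hL.nabL_sm hy ((hs.sm a).contMDiffAt ((X.isOpen a).mem_nhds hy)) i).continuousAt.continuousWithinAt

end MEM

theorem stMEM (hALG : St_ALGB) (hLOC : St_LOC) (hCORE : St_CORE) : St_MEM := by
  intro n N X S μ hμ s hs
  have hA := hALG n N X S
  have hL := hLOC n N X S
  have hC := hCORE n N X S
  have := hμ.isFiniteMeasureOnCompacts
  refine ⟨?_, fun i => ?_⟩
  · have h1 : StronglyMeasurable s := by
      have := MEM.meas_fr hA (fun a => loc X S a s) fun a => (hs.sm a).continuousOn
      have h2 : (fun y => loc X S (X.fr y) s y) = s := funext fun y => hA.tr_self (hA.mem_fr y) _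
      rwa [h2] at this
    have h2 : Continuous fun y => ‖s y‖ :=
      MEM.cont_of (fun a y => ‖loc X S a s y‖) (fun a => (hs.sm a).continuousOn.norm)
        fun a y hy => (hA.tr_norm hy (hA.mem_fr y) _).symm
    exact (h2.memLp_of_hasCompactSupport (μ := μ) hs.cpt.norm).of_le h1.aestronglyMeasurable
      (Eventually.of_forall fun y => (norm_norm _).ge)
  · have h1 : StronglyMeasurable (nab X S i s) :=
      MEM.meas_fr hA (fun a => nabL X S a i (loc X S a s)) fun a => MEM.nabL_cont hL hs a i
    have h2 : Continuous fun y => ∑ j, ⟪nab X S j s y, nab X S j s y⟫_ℝ :=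
      MEM.cont_of (fun a y => ∑ j, ⟪nabL X S a j (loc X S a s) y, nabL X S a j (loc X S a s) y⟫_ℝ)
        (fun a => continuousOn_finsetSum _ fun j _ =>
          ContinuousOn.inner (𝕜 := ℝ) (MEM.nabL_cont hL hs a j) (MEM.nabL_cont hL hs a j))
        fun a y hy => hC.nab_inner hs hs hy
    have h3 : HasCompactSupport fun y => √(∑ j, ⟪nab X S j s y, nab X S j s y⟫_ℝ) :=
      HasCompactSupport.intro hs.cpt fun y hy => by simp [hC.nab_zero hy]
    refine (h2.sqrt.memLp_of_hasCompactSupport (μ := μ) h3).of_le h1.aestronglyMeasurable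
      (Eventually.of_forall fun y => ?_)
    rw [Real.norm_of_nonneg (Real.sqrt_nonneg _)]
    refine Real.le_sqrt_of_sq_le ?_
    rw [← real_inner_self_eq_norm_sq]
    exact Finset.single_le_sum (f := fun j => ⟪nab X S j s y, nab X S j s y⟫_ℝ)
      (fun j _ => real_inner_self_nonneg) (Finset.mem_univ i)

end Pool.Agent.Lib.ANA
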