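import Pool.Agent.Lib.ANA.Blue

/-! Block PHI: the quadratic partition of unity. -/

noncomputable section

open Set Function Filter Topology
open scoped Manifold ContDiff

namespace Pool.Agent.Lib.ANA

open CX

namespace PHI

variable {n : ℕ} (X : SM n)

theorem part [SigmaCompactSpace X.M] (r : ℕ) (O : ℕ → Set X.M) (hO : ∀ a, IsOpen (O a))
    (hc : ∀ p, ∃ a < r, p ∈ O a) : ∃ θ : ℕ → X.M → ℝ,
    (∀ a, ContMDiff (𝓡 n) 𝓘(ℝ, ℝ) ∞ (θ a)) ∧ (∀ a p, θ a p ≠ 0 → p ∈ O a) ∧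
    ∀ p, ∑ a ∈ Finset.range r, θ a p = 1 := by
  obtain ⟨f, hf⟩ := SmoothPartitionOfUnity.exists_isSubordinate (𝓡 n) isClosed_univ
    (fun a : Fin r => O a) (fun a => hO a) fun p _ =>
      let ⟨a, ha, h⟩ := hc p
      mem_iUnion.2 ⟨⟨a, ha⟩, h⟩
  refine ⟨fun a => if h : a < r then f ⟨a, h⟩ else fun _ => 0, fun a => ?_, fun a p hp => ?_,
    fun p => ?_⟩
  · simp only
    split_ifs with h
    · exact (f ⟨a, h⟩).contMDiff
    · exact contMDiff_const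
  · simp only at hp
    split_ifs at hp with h
    · exact hf ⟨a, h⟩ (subset_tsupport _ hp)
    · exact absurd rfl hp
  · rw [Finset.sum_range, ← f.sum_eq_one (mem_univ p), finsum_eq_sum_of_fintype]
    exact Finset.sum_congr rfl fun a _ => by simp

/-- the cut function -/
def sg (r : ℕ) (u : ℝ) : ℝ := expNegInvGlue (u - 1 / (2 * r + 2))

/-- normalisation -/
def nm (r : ℕ) (u : ℕ → ℝ) (a : ℕ) : ℝ :=
  sg r (u a) * (√(∑ b ∈ Finset.range r, sg r (u b) ^ 2))⁻¹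

theorem sum_pos {r : ℕ} {u : ℕ → ℝ} (h : ∑ a ∈ Finset.range r, u a = 1) :
    0 < ∑ b ∈ Finset.range r, sg r (u b) ^ 2 := by
  obtain ⟨a, ha, h1⟩ : ∃ a ∈ Finset.range r, 1 / (2 * r + 2 : ℝ) < u a := by
    by_contra hn
    push Not at hn
    have h2 := Finset.sum_le_sum hn
    rw [h, Finset.sum_const, Finset.card_range, nsmul_eq_mul, mul_one_div,
      le_div_iff₀ (by positivity)] at h2
    have : (0 : ℝ) ≤ r := Nat.cast_nonneg r
    linarith
  exact Finset.sum_pos' (fun _ _ => sq_nonneg _)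
    ⟨a, ha, pow_pos (expNegInvGlue.pos_of_pos (sub_pos.2 h1)) 2⟩

theorem nm_sq {r : ℕ} {u : ℕ → ℝ} (h : ∑ a ∈ Finset.range r, u a = 1) :
    ∑ a ∈ Finset.range r, nm r u a ^ 2 = 1 := by
  simp only [nm, mul_pow, inv_pow, Real.sq_sqrt (sum_pos h).le]
  rw [← Finset.sum_mul, mul_inv_cancel₀ (sum_pos h).ne']

theorem nm_smooth {r : ℕ} {θ : ℕ → X.M → ℝ} (hθ : ∀ a, ContMDiff (𝓡 n) 𝓘(ℝ, ℝ) ∞ (θ a))
    (h : ∀ p, ∑ a ∈ Finset.range r, θ a p = 1) (a : ℕ) :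
    ContMDiff (𝓡 n) 𝓘(ℝ, ℝ) ∞ fun p => nm r (fun b => θ b p) a := fun p => by
  have f1 : ∀ b, ContMDiff (𝓡 n) 𝓘(ℝ, ℝ) ∞ fun p => sg r (θ b p) := fun b =>
    expNegInvGlue.contDiff.contMDiff.comp ((hθ b).sub contMDiff_const)
  have h1 : ContMDiffAt (𝓡 n) 𝓘(ℝ, ℝ) ∞ (fun p => ∑ b ∈ Finset.range r, sg r (θ b p) ^ 2) p :=
    contMDiffAt_finsetSum fun k _ => (f1 k p).pow 2
  have h2 : ContDiffAt ℝ ∞ (fun s : ℝ => (√s)⁻¹) (∑ b ∈ Finset.range r, sg r (θ b p) ^ 2) :=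
    (Real.contDiffAt_sqrt (sum_pos (h p)).ne').inv (Real.sqrt_pos.2 (sum_pos (h p))).ne'
  exact (f1 a p).mul (ContMDiffAt.comp (g := fun s : ℝ => (√s)⁻¹) p h2.contMDiffAt h1)

theorem nm_supp {r : ℕ} {θ : ℕ → X.M → ℝ} {a : ℕ} (hθ : Continuous (θ a)) :
    tsupport (fun p => nm r (fun b => θ b p) a) ⊆ {p | θ a p ≠ 0} := by
  have h0 : (0 : ℝ) < 1 / (2 * r + 2) := by positivity
  refine (closure_minimal (fun p hp => ?_) (isClosed_le continuous_const hθ :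
    IsClosed {p | 1 / (2 * r + 2 : ℝ) ≤ θ a p})).trans fun p hp => (h0.trans_le hp).ne'
  by_contra hn
  exact left_ne_zero_of_mul hp (expNegInvGlue.zero_of_nonpos (sub_nonpos.2 (not_le.1 hn).le))

end PHI

open PHI in
theorem stPHI (hE : St_EXT) (hY : St_CYL) (hC : St_COC) : St_PHI := by
  intro G _ m x
  have := x.cpt
  obtain ⟨r, -, hr, -, -⟩ := (hC G m x).fin
  have hb : (bv 0 : Eu 1) 0 = 1 := by simp [bv]
  have hj : Continuous fun y => x.j (y, bv 0) :=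
    x.continuousOn_j.comp_continuous (by fun_prop) fun y => show 0 < (bv 0 : Eu 1) 0 by
      rw [hb]; exact one_pos
  obtain ⟨θ, θ1, θ2, θ3⟩ := part x.X r (OO x) (hC G m x).isOpen hr
  obtain ⟨g, g1, g2, g3⟩ := part x.N r (fun a => (fun y => x.j (y, bv 0)) ⁻¹' OO x a)
    (fun a => ((hC G m x).isOpen a).preimage hj) fun y => hr _
  have hη : ContDiff ℝ ∞ fun t : ℝ => Real.smoothTransition (t - 2) :=
    Real.smoothTransition.contDiff.comp (contDiff_id.sub contDiff_const)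
  have hη0 : ∀ t ≤ (2 : ℝ), Real.smoothTransition (t - 2) = 0 := fun t ht =>
    Real.smoothTransition.zero_of_nonpos (sub_nonpos.2 ht)
  choose ψ ψ1 ψ2 ψ3 using fun a => (hE G m x).ext (g a) _ (g1 a) hη 2 two_pos hη0
  obtain ⟨ρ, ρ1, ρ2, ρ3⟩ := (hE G m x).ext (fun _ => 1) _ contMDiff_const hη 2 two_pos hη0
  let h : ℕ → x.X.M → ℝ := fun a p => (1 - ρ p) * θ a p + ψ a p
  have h1 : ∀ a, ContMDiff (𝓡 (m + 1)) 𝓘(ℝ, ℝ) ∞ (h a) := fun a =>
    ((contMDiff_const.sub ρ1).mul (θ1 a)).add (ψ1 a)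
  have h2 : ∀ a p, h a p ≠ 0 → p ∈ OO x a := fun a p hp => by
    by_contra hn
    refine hp ?_
    have e1 : θ a p = 0 := by_contra fun e => hn (θ2 a p e)
    have e2 : ψ a p = 0 := by
      by_cases hp' : p ∈ x.j '' {z | 2 ≤ z.2 0}
      · obtain ⟨⟨y, t⟩, ht, rfl⟩ := hp'
        have ht' : (2 : ℝ) ≤ t 0 := ht
        rw [ψ2 a y t (by linarith)]
        refine mul_eq_zero_of_right _ (by_contra fun e => hn ?_)
        have e3 := g2 a y e
        simp only [OO, mem_preimage, mem_ofPred_eq] at e3 ⊢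
        rwa [x.cyl y t (by linarith)]
      · exact ψ3 a p hp'
    simp only [h, e1, e2, mul_zero, add_zero]
  have h3 : ∀ p, ∑ a ∈ Finset.range r, h a p = 1 := fun p => by
    have e : ∑ a ∈ Finset.range r, ψ a p = ρ p := by
      by_cases hp' : p ∈ x.j '' {z | 2 ≤ z.2 0}
      · obtain ⟨⟨y, t⟩, ht, rfl⟩ := hp'
        have ht' : (0 : ℝ) < t 0 := two_pos.trans_le ht
        simp only [ψ2 _ y t ht', ρ2 y t ht', ← Finset.mul_sum, g3]
      · simp only [ψ3 _ p hp', ρ3 p hp', Finset.sum_const_zero]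
    simp only [h, Finset.sum_add_distrib, ← Finset.mul_sum, θ3, e]
    ring
  refine ⟨r, fun a p => nm r (fun b => h b p) a, fun a => ?_,
    fun a => (nm_supp x.X (h1 a).continuous).trans (h2 a), fun p => nm_sq (h3 p)⟩
  refine (hY G m x).pull _ _ (nm_smooth x.X h1 h3 a) (nm_smooth x.N g1 g3 a) 3 three_pos
    fun y t ht => ?_
  have e : Real.smoothTransition (t 0 - 2) = 1 :=
    Real.smoothTransition.one_of_one_le (by linarith)
  simp only [h, ψ2 _ y t (by linarith), ρ2 y t (by linarith), e, mul_one, sub_self, zero_mul,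
    zero_add, one_mul]

end Pool.Agent.Lib.ANA
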