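import Pool.Agent.Lib.ANA.Blue

/-! REL2: local compactness of the resolvent. -/

noncomputable section

open Set Function Filter Topology MeasureTheory CliffordAlgebra
open scoped Manifold ContDiff InnerProductSpace

namespace Pool.Agent.Lib.ANA

open CX

namespace REL2

theorem cpt_of_approx {E : Type} [NormedAddCommGroup E] [NormedSpace ℝ E] [CompleteSpace E]
    (A B : E →L[ℝ] E) {D : Set E} (hD : Dense D)
    (h : ∀ δ > (0 : ℝ), ∃ Q : E →L[ℝ] E, IsCompactOperator Q ∧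
      ∀ η ∈ D, ‖A η - Q (A η)‖ ^ 2 ≤ δ * (‖B η‖ ^ 2 + ‖A η‖ ^ 2)) : IsCompactOperator A := by
  have hc : IsClosed {f : E →L[ℝ] E | IsCompactOperator f} := isClosed_setOfPred_isCompactOperator
  refine hc.closure_subset (Metric.mem_closure_iff.2 fun ε hε => ?_)
  set M : ℝ := ‖A‖ + ‖B‖ + 1 with hM
  have hA := norm_nonneg A
  have hB := norm_nonneg B
  have hM0 : 0 < M := by positivity
  set t : ℝ := ε / (2 * M) with ht
  have ht0 : 0 < t := by positivity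
  obtain ⟨Q, hQ, hη⟩ := h (t ^ 2) (by positivity)
  have hall : ∀ η, ‖A η - Q (A η)‖ ^ 2 ≤ t ^ 2 * (‖B η‖ ^ 2 + ‖A η‖ ^ 2) := by
    intro η
    have hcl : IsClosed {η | ‖A η - Q (A η)‖ ^ 2 ≤ t ^ 2 * (‖B η‖ ^ 2 + ‖A η‖ ^ 2)} :=
      isClosed_le (by fun_prop) (by fun_prop)
    exact hcl.closure_subset_iff.2 hη (hD η)
  refine ⟨Q ∘L A, hQ.comp_clm A, ?_⟩
  rw [dist_eq_norm]
  refine lt_of_le_of_lt (ContinuousLinearMap.opNorm_le_bound _ (by positivity : 0 ≤ ε / 2)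
    fun η => ?_) (by linarith)
  have h1 := A.le_opNorm η
  have h2 := B.le_opNorm η
  have h3 := norm_nonneg η
  have h4 : ‖B η‖ ^ 2 + ‖A η‖ ^ 2 ≤ (M * ‖η‖) ^ 2 := by
    have a1 : ‖A η‖ ^ 2 ≤ (‖A‖ * ‖η‖) ^ 2 := pow_le_pow_left₀ (norm_nonneg _) h1 2
    have a2 : ‖B η‖ ^ 2 ≤ (‖B‖ * ‖η‖) ^ 2 := pow_le_pow_left₀ (norm_nonneg _) h2 2
    have a3 : ‖A‖ ^ 2 + ‖B‖ ^ 2 ≤ M ^ 2 := by rw [hM]; nlinarith [mul_nonneg hA hB]
    have a4 := mul_le_mul_of_nonneg_right a3 (sq_nonneg ‖η‖)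
    nlinarith
  have h5 : t * M = ε / 2 := by rw [ht]; field_simp
  have h6 : ‖A η - Q (A η)‖ ^ 2 ≤ (ε / 2 * ‖η‖) ^ 2 := by
    refine (hall η).trans ?_
    rw [← h5, mul_assoc, mul_pow]
    exact mul_le_mul_of_nonneg_left h4 (sq_nonneg t)
  exact (pow_le_pow_iff_left₀ (norm_nonneg _) (by positivity) two_ne_zero).1 h6

theorem one (hMUL : St_MUL) (hSMB : St_SMB) (hCORE : St_CORE) (hMEM : St_MEM) (hREL1 : St_REL1)
    {n N : ℕ} (X : SM n) (S : Spinor n N) (μ : Measure X.M) (hμ : X.IsVol μ)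
    (w : Eu N →L[ℝ] Eu N) {R Nn} (hR : Res X S w μ R Nn) (θ : X.M → ℝ)
    (h1 : ContMDiff (𝓡 n) 𝓘(ℝ, ℝ) ∞ θ) (h2 : HasCompactSupport θ) {x₀ : X.M} {a : ℕ}
    (h3 : tsupport θ ⊆ X.W x₀ a) :
    IsCompactOperator (mul (Eu N) μ θ * R : Lp (Eu N) 2 μ →L[ℝ] Lp (Eu N) 2 μ) := by
  have L := hMUL X.M (Eu N) μ
  have C := hCORE n N X S
  have hb := (hSMB n X).bm ((hSMB n X).of_cpt h1 h2)
  refine cpt_of_approx _ (mul (Eu N) μ θ * (1 - cst μ w * R) + cg X S μ (fun i => dv X i θ) * R)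
    hR.dense fun δ hδ => ?_
  obtain ⟨Q, hQ, hf⟩ := hREL1 n N X S μ hμ x₀ a _ h2 h3 δ hδ
  refine ⟨Q, hQ, ?_⟩
  rintro _ ⟨s, hs, rfl⟩
  have hsm : ∀ y ∈ tsupport s, ContMDiffAt (𝓡 n) 𝓘(ℝ, ℝ) ∞ θ y := fun y _ => h1 y
  have m1 := (hMEM n N X S μ hμ s hs).1
  have m2 := (hMEM n N X S μ hμ _ (C.dir hs)).1
  have e1 : (mul (Eu N) μ θ * R) (cl μ (dw X S w s)) = cl μ fun y => θ y • s y := by
    rw [mul_apply_eq_comp, hR.R_cl s hs, (L.mul_cl hb.1 m1).2]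
  have e2 : cl μ (dw X S w s) = cl μ (dir X S s) + cst μ w (cl μ s) := by
    rw [(L.cst_cl w m1).2, ← L.cl_add m2 (L.cst_cl w m1).1]
    rfl
  have m3 : ∀ i, MemLp (fun y => gam S i (dv X i θ y • s y)) 2 μ := fun i =>
    (L.cst_cl (gam S i) (L.mul_cl (hb.2 i) m1).1).1
  have e3 : (mul (Eu N) μ θ * (1 - cst μ w * R) + cg X S μ (fun i => dv X i θ) * R)
      (cl μ (dw X S w s)) = cl μ (dir X S fun y => θ y • s y) := by
    have a1 : dir X S (fun y => θ y • s y) =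
        fun y => θ y • dir X S s y + ∑ i, gam S i (dv X i θ y • s y) :=
      funext fun y => C.dir_mul hs hsm y
    rw [a1, L.cl_add (L.mul_cl hb.1 m2).1 (memLp_finsetSum _ fun i _ => m3 i),
      L.cl_sum _ _ fun i _ => m3 i, ← (L.mul_cl hb.1 m2).2]
    simp only [_root_.add_apply, mul_apply_eq_comp,
      _root_.sub_apply, one_apply_eq_self, hR.R_cl s hs, cg,
      _root_.sum_apply]
    congr 1
    · rw [e2, add_sub_cancel_right]
    · refine Finset.sum_congr rfl fun i _ => ?_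
      rw [(L.mul_cl (hb.2 i) m1).2, (L.cst_cl (gam S i) (L.mul_cl (hb.2 i) m1).1).2]
  rw [e1, e3]
  exact hf _ (C.mul hs hsm) (tsupport_smul_subset_left θ s)

end REL2

theorem stREL2 (hMUL : St_MUL) (hPART : St_PART) (hSMB : St_SMB) (hCORE : St_CORE)
    (hMEM : St_MEM) (hREL1 : St_REL1) : St_REL2 := by
  intro n N X S μ hμ w _ R Nn hR χ hχ hc
  have L := hMUL X.M (Eu N) μ
  obtain ⟨r, p, θ, h1, h2⟩ := hPART n X _ hc (fun y => X.W y (X.fr y))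
    fun y _ => (X.isOpen_W _ _).mem_nhds (X.mem_W_fr y)
  have hb : ∀ l, Bm (θ l) := fun l =>
    ((hSMB n X).bm ((hSMB n X).of_cpt (h1 l).2.1 (h1 l).2.2.1)).1
  have e1 : χ = fun y => χ y * ∑ l, θ l y := by
    funext y
    by_cases hy : y ∈ tsupport χ
    · rw [h2.self_of_nhdsSet y hy, mul_one]
    · rw [image_eq_zero_of_notMem_tsupport hy, zero_mul]
  have hs := L.mul_sum Finset.univ θ fun l _ => hb l
  have e2 : mul (Eu N) μ χ * R = mul (Eu N) μ χ * ∑ l, mul (Eu N) μ (θ l) * R := by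
    rw [← Finset.sum_mul, ← hs.2, ← mul_assoc, ← (L.mul_mul hχ hs.1).2, ← e1]
  rw [e2]
  have h3 : (∑ l, mul (Eu N) μ (θ l) * R) ∈
      compactOperator (RingHom.id ℝ) (Lp (Eu N) 2 μ) (Lp (Eu N) 2 μ) :=
    Submodule.sum_mem _ fun l _ =>
      REL2.one hMUL hSMB hCORE hMEM hREL1 X S μ hμ w hR (θ l) (h1 l).2.1 (h1 l).2.2.1 (h1 l).2.2.2
  exact IsCompactOperator.clm_comp h3 (mul (Eu N) μ χ)

end Pool.Agent.Lib.ANA
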